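import Pool.Agent.Helper19.QR.Core

/-!
# Block QR-RC: Rado's conjecture at the continuum

A tree is a partial order in which the predecessors of each element are linearly ordered and every nonempty
subset has a minimal element (well-founded). `Special W`: `W` is a countable union of antichains.

`CR → RC`. Let `S` be the complex of the finite chains of the tree `T`. If `W` is special, the same colouring
shows `Thin S W`: a set of one colour all of whose two-element subsets are chains has at most one
element. So by `CR` there is `f : T → ℕ` such that all chains of one colour are finite. For `t : T` the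
set `{s < t | f s = f t}` is a chain of one colour (predecessors of `t` are linearly ordered), so it is
finite; let `n t` be its number of elements, and colour `t` by `Nat.pair (f t) (n t)`. If `s < t` and
`f s = f t` then `{r < s | f r = f s} ∪ {s} ⊆ {r < t | f r = f t}`, so `n s < n t`.
-/

set_option autoImplicit false

open Set Cardinal

namespace Pool.Agent.Helper19.QR

/-- `W` is a countable union of antichains. -/
def Special {T : Type} [PartialOrder T] (W : Set T) : Prop :=
  ∃ f : T → ℕ, ∀ s ∈ W, ∀ t ∈ W, f s = f t → ¬ s < t

/-- Rado's conjecture at the continuum: a tree all of whose subsets of size at most the continuum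
are countable unions of antichains is a countable union of antichains. -/
def RC : Prop := ∀ (T : Type) [PartialOrder T] [WellFoundedLT T],
  (∀ t : T, IsChain (· ≤ ·) (Set.Iio t)) → (∀ W : Set T, #W ≤ 𝔠 → Special W) →
    Special (Set.univ : Set T)

theorem rc_of_cr (h : CR) : RC := by
  classical
  intro T _ _ htree hW
  have hS : ∀ F ∈ {F : Finset T | IsChain (· ≤ ·) (F : Set T)}, ∀ G ⊆ F,
      G ∈ {F : Finset T | IsChain (· ≤ ·) (F : Set T)} := by
    intro F hF G hG
    exact IsChain.mono (Finset.coe_subset.2 hG) hF
  obtain ⟨f, hf⟩ := h T {F : Finset T | IsChain (· ≤ ·) (F : Set T)} hS (by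
    intro W hc
    obtain ⟨f, hf⟩ := hW W hc
    refine ⟨f, fun n A hAW hAn hA => Set.Subsingleton.finite ?_⟩
    intro s hs t ht
    by_contra hne
    have hF : IsChain (· ≤ ·) (({s, t} : Finset T) : Set T) := by
      refine hA {s, t} ?_
      intro x hx
      rw [Finset.mem_coe, Finset.mem_insert, Finset.mem_singleton] at hx
      rcases hx with rfl | rfl
      · exact hs
      · exact ht
    rcases hF (by simp) (by simp) hne with h1 | h1
    · exact hf s (hAW hs) t (hAW ht) ((hAn s hs).trans (hAn t ht).symm) (lt_of_le_of_ne h1 hne)
    · exact hf t (hAW ht) s (hAW hs) ((hAn t ht).trans (hAn s hs).symm)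
        (lt_of_le_of_ne h1 (Ne.symm hne)))
  have hfin : ∀ t, {s | s < t ∧ f s = f t}.Finite := by
    intro t
    refine hf (f t) _ (subset_univ _) (fun v hv => hv.2) ?_
    intro F hF
    exact (htree t).mono fun x hx => (hF hx).1
  refine ⟨fun t => Nat.pair (f t) (hfin t).toFinset.card, fun s _ t _ hst hlt => ?_⟩
  obtain ⟨h1, h2⟩ := Nat.pair_eq_pair.1 hst
  have h3 : (hfin s).toFinset ⊂ (hfin t).toFinset := by
    rw [Finset.ssubset_iff_of_subset]
    · refine ⟨s, ?_, ?_⟩
      · rw [Set.Finite.mem_toFinset]
        exact ⟨hlt, h1⟩
      · rw [Set.Finite.mem_toFinset]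
        exact fun h4 => lt_irrefl s h4.1
    · intro r hr
      rw [Set.Finite.mem_toFinset] at hr ⊢
      exact ⟨hr.1.trans hlt, hr.2.trans h1⟩
  exact (Finset.card_lt_card h3).ne h2

end Pool.Agent.Helper19.QR
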