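import Pool.Agent.Helper19.QR.Clos

/-!
# Block QR-RT: retractions

`exists_ret`: there is an operation `Φ₀` such that `Ret N` for all nonempty closed `N`. For finite `e` and
`n : ℕ` there is, by compactness, a finite set `P(e, n)` of points such that every `x : X` has some
`y ∈ P(e, n)` with `|f y - f x| < 1/(n+1)` for all `f` with `inr f ∈ e` (cover `X` by the open sets
`{z | ∀ f, |f z - f x| < 1/(n+1)}`, `x : X`). Let `Φ₀ e` be the set of all `inl y`, `y ∈ P(e, n)`,
`n : ℕ`. For a closed nonempty `N` and `x : X`: the closed sets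
`closure (pts N) ∩ {z | |f z - f x| ≤ 1/(n+1) for f ∈ F}`, `F` a finite set of functions of `N`, are nonempty and
directed (if `F` is empty, use any element of `N` to get a nonempty `e`). So there is a point in all
of them (compare `exists_limit_point` in `Helper93/EC/Tight.lean`).

`exists_retraction`: if `RG N univ` and `Ret N`, the point `y` is unique (continuous functions separate
points, so `Eqv univ p q` implies `p = q`) and depends continuously on `x`: the graph
`{(x, y) | y ∈ closure (pts N), Eqv N x y}` is closed, and `X` is compact.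
-/

set_option autoImplicit false

open Set Cardinal

namespace Pool.Agent.Helper19.QR

variable {X : Type} [TopologicalSpace X] [CompactSpace X] [T2Space X]

theorem eq_of_eqv_univ {p q : X} (h : Eqv univ p q) : p = q := by
  by_contra hne
  obtain ⟨f, hf0, hf1, -⟩ := exists_continuous_zero_one_of_isClosed
    (isClosed_singleton (x := p)) (isClosed_singleton (x := q)) (by simpa using hne)
  have h1 := h f (mem_univ _)
  have h2 : f p = 0 := hf0 rfl
  have h3 : f q = 1 := hf1 rfl
  rw [h2, h3] at h1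
  exact zero_ne_one h1

private theorem exists_fin19 (e : Finset (X ⊕ C(X, ℝ))) (n : ℕ) : ∃ P : Set X, P.Finite ∧
    ∀ x : X, ∃ y ∈ P, ∀ f : C(X, ℝ), Sum.inr f ∈ e → |f y - f x| < 1 / ((n : ℝ) + 1) := by
  let U : X → Set X := fun y =>
    {x | ∀ f ∈ {f : C(X, ℝ) | Sum.inr f ∈ e}, |f y - f x| < 1 / ((n : ℝ) + 1)}
  have hfin : {f : C(X, ℝ) | Sum.inr f ∈ e}.Finite :=
    e.finite_toSet.preimage Sum.inr_injective.injOn
  have hU : ∀ y, IsOpen (U y) := fun y => by
    have h1 : U y = ⋂ f ∈ {f : C(X, ℝ) | Sum.inr f ∈ e},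
        {x | |f y - f x| < 1 / ((n : ℝ) + 1)} := by
      ext x
      simp [U]
    rw [h1]
    exact hfin.isOpen_biInter fun f _ => isOpen_lt (by fun_prop) continuous_const
  obtain ⟨t, ht⟩ := isCompact_univ.elim_finite_subcover U hU
    (fun x _ => mem_iUnion.2 ⟨x, fun f _ => by
      rw [sub_self, abs_zero]
      positivity⟩)
  refine ⟨t, t.finite_toSet, fun x => ?_⟩
  have h1 := ht (mem_univ x)
  simp only [mem_iUnion] at h1
  obtain ⟨y, hy, hxy⟩ := h1
  exact ⟨y, hy, fun f hf => hxy f hf⟩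

theorem exists_ret : ∃ Φ₀ : Finset (X ⊕ C(X, ℝ)) → Set (X ⊕ C(X, ℝ)), CV Φ₀ ∧
    ∀ N, N.Nonempty → Clo Φ₀ N → Ret N := by
  classical
  choose P hP hPx using exists_fin19 (X := X)
  refine ⟨fun e => ⋃ n, Sum.inl '' P e n, fun e => countable_iUnion fun n =>
    ((hP e n).countable.image _), ?_⟩
  intro N hN hclo x
  obtain ⟨z, hz⟩ := hN
  have key : (closure (pts N) ∩ ⋂ i : {f : C(X, ℝ) // Sum.inr f ∈ N} × ℕ,
      {y : X | |i.1.1 y - i.1.1 x| ≤ 1 / ((i.2 : ℝ) + 1)}).Nonempty := by
    refine isClosed_closure.isCompact.inter_iInter_nonempty _ (fun i =>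
      isClosed_le (by fun_prop) continuous_const) (fun u => ?_)
    let e : Finset (X ⊕ C(X, ℝ)) := insert z (u.image fun i => Sum.inr i.1.1)
    let n : ℕ := u.sup Prod.snd
    have heN : (↑e : Set (X ⊕ C(X, ℝ))) ⊆ N := by
      intro a ha
      rw [Finset.mem_coe, Finset.mem_insert, Finset.mem_image] at ha
      rcases ha with rfl | ⟨i, -, rfl⟩
      · exact hz
      · exact i.1.2
    obtain ⟨y, hy, hyx⟩ := hPx e n x
    refine ⟨y, subset_closure (hclo e ⟨z, Finset.mem_insert_self _ _⟩ heN
      (mem_iUnion.2 ⟨n, mem_image_of_mem _ hy⟩)), ?_⟩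
    simp only [mem_iInter]
    intro i hi
    have h1 : Sum.inr i.1.1 ∈ e :=
      Finset.mem_insert_of_mem (Finset.mem_image_of_mem (fun i => Sum.inr i.1.1) hi)
    refine (hyx i.1.1 h1).le.trans ?_
    have h2 : i.2 ≤ n := Finset.le_sup (f := Prod.snd) hi
    have h3 : (i.2 : ℝ) ≤ n := by exact_mod_cast h2
    exact one_div_le_one_div_of_le (by positivity) (by linarith)
  obtain ⟨y, hy, hyi⟩ := key
  refine ⟨y, hy, fun f hf => ?_⟩
  by_contra hne
  obtain ⟨n, hn⟩ := exists_nat_one_div_lt (abs_pos.2 (sub_ne_zero.2 (Ne.symm hne)))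
  have h1 := mem_iInter.1 hyi (⟨f, hf⟩, n)
  simp only [mem_setOf_eq] at h1
  exact absurd h1 (not_le.2 hn)

theorem exists_retraction {N : Set (X ⊕ C(X, ℝ))} (h1 : RG N univ) (h2 : Ret N) :
    ∃ r : C(X, X), (∀ x, r x ∈ closure (pts N)) ∧ ∀ x, Eqv N x (r x) := by
  choose r hr hrx using h2
  have huniq : ∀ x y, y ∈ closure (pts N) → Eqv N x y → y = r x := by
    intro x y hy hxy
    refine eq_of_eqv_univ (h1 y hy (r x) (hr x) fun f hf => ?_)
    rw [← hxy f hf, hrx x f hf]
  refine ⟨⟨r, ?_⟩, hr, hrx⟩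
  rw [continuous_iff_ultrafilter]
  intro x g hg
  obtain ⟨y, -, hy⟩ := isCompact_univ.ultrafilter_le_nhds (g.map r) (by simp)
  have hy' : Filter.Tendsto r g (nhds y) := hy
  have hyc : y ∈ closure (pts N) :=
    isClosed_closure.mem_of_tendsto hy' (Filter.Eventually.of_forall hr)
  have hxy : Eqv N x y := by
    intro f hf
    have h3 : Filter.Tendsto (fun z => f (r z)) g (nhds (f y)) := (f.continuous.tendsto y).comp hy'
    have h4 : Filter.Tendsto (fun z => f z) g (nhds (f x)) :=
      (f.continuous.tendsto x).mono_left hg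
    have h5 : (fun z => f (r z)) = fun z => f z := funext fun z => (hrx z f hf).symm
    rw [h5] at h3
    exact tendsto_nhds_unique h4 h3
  rw [← huniq x y hyc hxy]
  exact hy'

end Pool.Agent.Helper19.QR
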