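import Pool.Agent.Helper19.QR.Fil
import Pool.Agent.Helper19.QR.Retr

/-!
# Block QR-SI: functions with countable supports

If all nonempty closed sets for `Φ` are `RG N univ` and `Ret N`, then there are functions
`g γ : C(X, ℝ)`, `γ ∈ Γ`, separating points, with countable supports (`X` is Corson compact).

Proof. `fil` for the property `P N`: there are `Γ : Type` and `g : Γ → C(X, ℝ)` with
`{γ | g γ x ≠ 0}` countable for all `x : X`, and `Eqv N x y ↔ ∀ γ, g γ x = g γ y` for all `x, y : X`.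

* `N` countable: `Γ` is the countable set of all `f` with `inr f ∈ N`.
* `N = ⋃ j, M j`, increasing, with `Γ_j`, `g^j` for `M j`. Let `M'_j = ⋃ i < j, M i`, a closed set. For `j` with
  `M'_j` nonempty let `r_j` be the retraction of `exists_retraction` for `M'_j`. Let
  `Γ = Σ j with M j nonempty, Γ_j` and `g (j, γ) = g^j_γ - g^j_γ ∘ r_j` if `M'_j` is nonempty,
  `g (j, γ) = g^j_γ` otherwise (this is the case for at most one `j` with `M j` nonempty).

  If `Eqv N x y` then `Eqv (M j) x y` and `Eqv M'_j x y`, so `r_j x = r_j y` (two `M'_j`-equivalent points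
  of `closure (pts M'_j)` are equal, by `RG M'_j univ` and `eq_of_eqv_univ`), so all
  `g (j, γ)` agree. Conversely let all `g (j, γ)` agree at `x` and `y`. By well-founded induction
  `Eqv (M j) x y`: as `Eqv (M i) x y` for `i < j`, `Eqv M'_j x y`, so `r_j x = r_j y` and
  `g^j_γ x = g^j_γ y` for all `γ`. So `Eqv N x y`.

  Countable support at `x`: for fixed `j` only countably many `γ`. If `M'_j` is nonempty and
  `Eqv (M j) x (r_j x)`, then `g (j, γ) x = 0` for all `γ`. So it suffices that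
  `J = {j | M'_j nonempty, ¬ Eqv (M j) x (r_j x)}` is countable. Suppose not. Let `J'` be the
  set of all `j ∈ J` such that `{i ∈ J | i < j}` is countable. `J'` is uncountable (otherwise the least
  element of `J \ J'` would belong to `J'`), and every countable subset of `J'` has a strict upper
  bound in `J'` (otherwise `J'` would be a countable union of countable sets). Let
  `M' = ⋃ j ∈ J', M j`, closed and nonempty, and `z ∈ closure (pts M')` with `Eqv M' x z` (`Ret`). By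
  tightness `z ∈ closure D`, `D ⊆ pts M'` countable, so `D ⊆ pts (M i)` for some `i ∈ J'`. Choose
  `j ∈ J'`, `j > i`. Then `z ∈ closure (pts M'_j)` and `Eqv M'_j x z`, so `r_j x = z`, and
  `Eqv (M j) x z`: a contradiction to `j ∈ J`.

At the end take `N = univ`.
-/

set_option autoImplicit false

open Set Cardinal

namespace Pool.Agent.Helper19.QR

/-- the property for the induction -/
private def PS65 {X : Type} [TopologicalSpace X] (N : Set (X ⊕ C(X, ℝ))) : Prop :=
  ∃ (Γ : Type) (g : Γ → C(X, ℝ)), (∀ x, {γ | g γ x ≠ 0}.Countable) ∧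
    ∀ x y, Eqv N x y ↔ ∀ γ, g γ x = g γ y

private lemma ps_countable65 {X : Type} [TopologicalSpace X] {N : Set (X ⊕ C(X, ℝ))} (hN : N.Countable) :
    PS65 N := by
  have hc : {f : C(X, ℝ) | (Sum.inr f : X ⊕ C(X, ℝ)) ∈ N}.Countable :=
    hN.preimage_of_injOn (Sum.inr_injective.injOn)
  have : Countable {f : C(X, ℝ) // (Sum.inr f : X ⊕ C(X, ℝ)) ∈ N} := hc.to_subtype
  refine ⟨{f : C(X, ℝ) // (Sum.inr f : X ⊕ C(X, ℝ)) ∈ N}, fun f => f.1, fun x => Set.to_countable _, ?_⟩
  intro x y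
  exact ⟨fun h γ => h γ.1 γ.2, fun h f hf => h ⟨f, hf⟩⟩

private lemma eqv_mono65 {X : Type} [TopologicalSpace X] {N N' : Set (X ⊕ C(X, ℝ))} (h : N ⊆ N') {x y : X}
    (hxy : Eqv N' x y) : Eqv N x y := fun f hf => hxy f (h hf)

private lemma eqv_symm65 {X : Type} [TopologicalSpace X] {N : Set (X ⊕ C(X, ℝ))} {x y : X}
    (hxy : Eqv N x y) : Eqv N y x := fun f hf => (hxy f hf).symm

private lemma eqv_trans65 {X : Type} [TopologicalSpace X] {N : Set (X ⊕ C(X, ℝ))} {x y z : X}
    (hxy : Eqv N x y) (hyz : Eqv N y z) : Eqv N x z := fun f hf => (hxy f hf).trans (hyz f hf)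

private lemma omega_one65 {ι : Type} [LinearOrder ι] [WellFoundedLT ι] {J : Set ι} (hJ : ¬ J.Countable) :
    ∃ J' ⊆ J, J'.Nonempty ∧ ∀ A ⊆ J', A.Countable → ∃ b ∈ J', ∀ a ∈ A, a < b := by
  refine ⟨{j | j ∈ J ∧ {i | i ∈ J ∧ i < j}.Countable}, fun j hj => hj.1, ?_, ?_⟩
  · by_contra hne
    rw [Set.not_nonempty_iff_eq_empty] at hne
    have h1 : J.Nonempty := by
      by_contra h
      rw [Set.not_nonempty_iff_eq_empty] at h
      exact hJ (h ▸ Set.countable_empty)
    obtain ⟨m, hm, hmin⟩ := WellFounded.has_min (wellFounded_lt (α := ι)) J h1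
    have h2 : m ∈ {j | j ∈ J ∧ {i | i ∈ J ∧ i < j}.Countable} := by
      refine ⟨hm, ?_⟩
      have : {i | i ∈ J ∧ i < m} = ∅ := by
        ext i
        simp only [Set.mem_ofPred_eq, Set.mem_empty_iff_false, iff_false, not_and]
        exact fun hi hlt => hmin i hi hlt
      rw [this]
      exact Set.countable_empty
    rw [hne] at h2
    exact h2
  · have hunc : ¬ {j | j ∈ J ∧ {i | i ∈ J ∧ i < j}.Countable}.Countable := by
      intro hc
      have h1 : (J \ {j | j ∈ J ∧ {i | i ∈ J ∧ i < j}.Countable}).Nonempty := by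
        by_contra h
        rw [Set.not_nonempty_iff_eq_empty, Set.sdiff_eq_empty] at h
        exact hJ (hc.mono h)
      obtain ⟨m, hm, hmin⟩ := WellFounded.has_min (wellFounded_lt (α := ι)) _ h1
      apply hm.2
      refine ⟨hm.1, hc.mono ?_⟩
      rintro i ⟨hi, him⟩
      by_contra hcon
      exact hmin i ⟨hi, hcon⟩ him
    intro A hA hAc
    by_contra hcon
    push Not at hcon
    apply hunc
    have h2 : {j | j ∈ J ∧ {i | i ∈ J ∧ i < j}.Countable} ⊆
        ⋃ a ∈ A, ({i | i ∈ J ∧ i < a} ∪ {a}) := by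
      intro j hj
      obtain ⟨a, ha, haj⟩ := hcon j hj
      rw [Set.mem_iUnion₂]
      refine ⟨a, ha, ?_⟩
      rcases lt_or_eq_of_le haj with h | h
      · exact Or.inl ⟨hj.1, h⟩
      · exact Or.inr h
    refine Set.Countable.mono h2 (hAc.biUnion fun a ha => ?_)
    exact (hA ha).2.union (Set.countable_singleton a)

private lemma ps_step65 {X : Type} [TopologicalSpace X] [CompactSpace X] [T2Space X] (ht : Tight X)
    (Φ : Finset (X ⊕ C(X, ℝ)) → Set (X ⊕ C(X, ℝ)))
    (hgood : ∀ N, N.Nonempty → Clo Φ N → RG N univ ∧ Ret N)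
    {ι : Type} [LinearOrder ι] [WellFoundedLT ι] (M : ι → Set (X ⊕ C(X, ℝ))) (hmono : Monotone M)
    (hclo : ∀ j, Clo Φ (M j)) (hP : ∀ j, PS65 (M j)) : PS65 (⋃ j, M j) := by
  classical
  choose Γ g hsupp heq using hP
  obtain ⟨M', hM'⟩ : ∃ M' : ι → Set (X ⊕ C(X, ℝ)), M' = fun j => ⋃ i ∈ Iio j, M i := ⟨_, rfl⟩
  have hM'clo : ∀ j, Clo Φ (M' j) := fun j => by
    rw [hM']
    exact clo_biUnion hmono hclo (Iio j)
  have hmem' : ∀ j u, u ∈ M' j ↔ ∃ i, i < j ∧ u ∈ M i := by
    intro j u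
    rw [hM']
    simp only [Set.mem_iUnion, Set.mem_Iio, exists_prop]
  have hM'sub : ∀ j, M' j ⊆ M j := by
    intro j u hu
    obtain ⟨i, hi, hui⟩ := (hmem' j u).mp hu
    exact hmono hi.le hui
  have hr : ∀ j, ∃ r : C(X, X), (M' j).Nonempty →
      (∀ x, r x ∈ closure (pts (M' j))) ∧ ∀ x, Eqv (M' j) x (r x) := by
    intro j
    by_cases hj : (M' j).Nonempty
    · obtain ⟨h1, h2⟩ := hgood _ hj (hM'clo j)
      obtain ⟨r, hr1, hr2⟩ := exists_retraction h1 h2
      exact ⟨r, fun _ => ⟨hr1, hr2⟩⟩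
    · exact ⟨ContinuousMap.id X, fun h => absurd h hj⟩
  choose r hr using hr
  -- two equivalent points of the closure are equal
  have huniq : ∀ j, (M' j).Nonempty → ∀ p ∈ closure (pts (M' j)), ∀ q ∈ closure (pts (M' j)),
      Eqv (M' j) p q → p = q := by
    intro j hj p hp q hq hpq
    exact eq_of_eqv_univ ((hgood _ hj (hM'clo j)).1 p hp q hq hpq)
  have hreq : ∀ j, (M' j).Nonempty → ∀ x y, Eqv (M' j) x y → r j x = r j y := by
    intro j hj x y hxy
    obtain ⟨h1, h2⟩ := hr j hj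
    exact huniq j hj _ (h1 x) _ (h1 y) (eqv_trans65 (eqv_symm65 (h2 x)) (eqv_trans65 hxy (h2 y)))
  obtain ⟨G, hG⟩ : ∃ G : (Σ j : {j // (M j).Nonempty}, Γ j.1) → C(X, ℝ), ∀ (j : {j // (M j).Nonempty}) (γ : Γ j.1),
      G ⟨j, γ⟩ = if (M' j.1).Nonempty then g j.1 γ - (g j.1 γ).comp (r j.1) else g j.1 γ :=
    ⟨fun t => if (M' t.1.1).Nonempty then g t.1.1 t.2 - (g t.1.1 t.2).comp (r t.1.1) else g t.1.1 t.2,
      fun j γ => rfl⟩
  have hGpos : ∀ (j : {j // (M j).Nonempty}) (γ : Γ j.1) (x : X), (M' j.1).Nonempty →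
      G ⟨j, γ⟩ x = g j.1 γ x - g j.1 γ (r j.1 x) := by
    intro j γ x hj
    rw [hG, if_pos hj]
    rfl
  have hGneg : ∀ (j : {j // (M j).Nonempty}) (γ : Γ j.1) (x : X), ¬ (M' j.1).Nonempty →
      G ⟨j, γ⟩ x = g j.1 γ x := by
    intro j γ x hj
    rw [hG, if_neg hj]
  refine ⟨_, G, ?_, ?_⟩
  · -- countable supports
    intro x
    have hJ : {j | (M' j).Nonempty ∧ ¬ Eqv (M j) x (r j x)}.Countable := by
      by_contra hcon
      obtain ⟨J', hJ', hne, hub⟩ := omega_one65 hcon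
      obtain ⟨M2, hM2⟩ : ∃ M2 : Set (X ⊕ C(X, ℝ)), M2 = ⋃ j ∈ J', M j := ⟨_, rfl⟩
      have hM2clo : Clo Φ M2 := by
        rw [hM2]
        exact clo_biUnion hmono hclo J'
      have hsub2 : ∀ j ∈ J', M j ⊆ M2 := by
        intro j hj u hu
        rw [hM2, Set.mem_iUnion₂]
        exact ⟨j, hj, hu⟩
      have hM2ne : M2.Nonempty := by
        obtain ⟨j, hj⟩ := hne
        obtain ⟨u, hu⟩ := (hJ' hj).1
        exact ⟨u, hsub2 j hj (hM'sub j hu)⟩
      obtain ⟨z, hz1, hz2⟩ := (hgood _ hM2ne hM2clo).2 x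
      obtain ⟨D, hD1, hD2, hD3⟩ := ht _ _ hz1
      have hDj : ∀ d ∈ D, ∃ j ∈ J', (Sum.inl d : X ⊕ C(X, ℝ)) ∈ M j := by
        intro d hd
        have h1 : (Sum.inl d : X ⊕ C(X, ℝ)) ∈ M2 := hD1 hd
        rw [hM2, Set.mem_iUnion₂] at h1
        obtain ⟨j, hj, hjd⟩ := h1
        exact ⟨j, hj, hjd⟩
      have hιne : Nonempty ι := ⟨hne.some⟩
      choose! jd hjd1 hjd2 using hDj
      obtain ⟨i, hi1, hi2⟩ := hub (jd '' D) (by rintro _ ⟨d, hd, rfl⟩; exact hjd1 d hd) (hD2.image _)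
      obtain ⟨j, hj1, hj2⟩ := hub {i} (by rintro _ rfl; exact hi1) (Set.countable_singleton i)
      have hij : i < j := hj2 i rfl
      have hDsub : D ⊆ pts (M' j) := by
        intro d hd
        exact (hmem' j _).mpr ⟨i, hij, hmono (hi2 (jd d) ⟨d, hd, rfl⟩).le (hjd2 d hd)⟩
      have hz3 : z ∈ closure (pts (M' j)) := closure_mono hDsub hD3
      obtain ⟨hjn, hjE⟩ := hJ' hj1
      obtain ⟨h4, h5⟩ := hr j hjn
      have hxz : Eqv (M j) x z := eqv_mono65 (hsub2 j hj1) hz2
      have h6 : r j x = z := huniq j hjn _ (h4 x) _ hz3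
        (eqv_trans65 (eqv_symm65 (h5 x)) (eqv_mono65 (hM'sub j) hxz))
      apply hjE
      rw [h6]
      exact hxz
    have hJ0 : {j | (M j).Nonempty ∧ ¬ (M' j).Nonempty}.Countable := by
      apply Set.Subsingleton.countable
      intro a ha b hb
      rcases lt_trichotomy a b with h | h | h
      · exfalso
        obtain ⟨u, hu⟩ := ha.1
        exact hb.2 ⟨u, (hmem' b u).mpr ⟨a, h, hu⟩⟩
      · exact h
      · exfalso
        obtain ⟨u, hu⟩ := hb.1
        exact ha.2 ⟨u, (hmem' a u).mpr ⟨b, h, hu⟩⟩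
    have hcov : {t : (Σ j : {j // (M j).Nonempty}, Γ j.1) | G t x ≠ 0} ⊆
        ⋃ j ∈ (Subtype.val ⁻¹' ({j | (M' j).Nonempty ∧ ¬ Eqv (M j) x (r j x)} ∪
          {j | (M j).Nonempty ∧ ¬ (M' j).Nonempty}) : Set {j // (M j).Nonempty}),
          (fun γ => (⟨j, γ⟩ : Σ j : {j // (M j).Nonempty}, Γ j.1)) ''
            ({γ | g j.1 γ x ≠ 0} ∪ {γ | g j.1 γ (r j.1 x) ≠ 0}) := by
      rintro ⟨j, γ⟩ ht
      simp only [Set.mem_ofPred_eq] at ht
      rw [Set.mem_iUnion₂]
      by_cases hj : (M' j.1).Nonempty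
      · rw [hGpos j γ x hj] at ht
        refine ⟨j, Or.inl ⟨hj, ?_⟩, γ, ?_, rfl⟩
        · intro hE
          exact ht (sub_eq_zero.mpr ((heq j.1 x (r j.1 x)).mp hE γ))
        · by_contra hcon
          simp only [Set.mem_union, Set.mem_ofPred_eq, not_or, not_not] at hcon
          rw [hcon.1, hcon.2, sub_zero] at ht
          exact ht rfl
      · rw [hGneg j γ x hj] at ht
        exact ⟨j, Or.inr ⟨j.2, hj⟩, γ, Or.inl ht, rfl⟩
    refine Set.Countable.mono hcov (Set.Countable.biUnion ?_ fun j _ => ?_)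
    · exact (hJ.union hJ0).preimage_of_injOn Subtype.val_injective.injOn
    · exact ((hsupp j.1 x).union (hsupp j.1 (r j.1 x))).image _
  · intro x y
    constructor
    · rintro hxy ⟨j, γ⟩
      have h1 : Eqv (M j.1) x y := eqv_mono65 (Set.subset_iUnion M j.1) hxy
      have h2 := (heq j.1 x y).mp h1 γ
      by_cases hj : (M' j.1).Nonempty
      · rw [hGpos j γ x hj, hGpos j γ y hj, h2, hreq j.1 hj x y (eqv_mono65 (hM'sub j.1) h1)]
      · rw [hGneg j γ x hj, hGneg j γ y hj, h2]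
    · intro hG2
      have key : ∀ j, Eqv (M j) x y := by
        intro j
        induction j using WellFoundedLT.induction with
        | ind j ih =>
          have h1 : Eqv (M' j) x y := by
            intro f hf
            obtain ⟨i, hi, hfi⟩ := (hmem' j _).mp hf
            exact ih i hi f hfi
          by_cases hne : (M j).Nonempty
          · rw [heq]
            intro γ
            have h2 := hG2 ⟨⟨j, hne⟩, γ⟩
            by_cases hj : (M' j).Nonempty
            · rw [hGpos ⟨j, hne⟩ γ x hj, hGpos ⟨j, hne⟩ γ y hj] at h2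
              have h3 : r j x = r j y := hreq j hj x y h1
              simp only [h3] at h2
              linarith
            · rw [hGneg ⟨j, hne⟩ γ x hj, hGneg ⟨j, hne⟩ γ y hj] at h2
              exact h2
          · intro f hf
            exact absurd ⟨_, hf⟩ hne
      intro f hf
      obtain ⟨j, hj⟩ := Set.mem_iUnion.mp hf
      exact key j f hj

theorem exists_sigma {X : Type} [TopologicalSpace X] [CompactSpace X] [T2Space X] (ht : Tight X)
    (Φ : Finset (X ⊕ C(X, ℝ)) → Set (X ⊕ C(X, ℝ))) (hΦ : CV Φ)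
    (hgood : ∀ N, N.Nonempty → Clo Φ N → RG N univ ∧ Ret N) :
    ∃ (Γ : Type) (g : Γ → C(X, ℝ)), (∀ x, {γ | g γ x ≠ 0}.Countable) ∧
      ∀ x y, (∀ γ, g γ x = g γ y) → x = y := by
  obtain ⟨Γ, g, h1, h2⟩ := fil hΦ PS65 (fun N _ hN => ps_countable65 hN)
    (fun ι _ _ M hm hc hP => ps_step65 ht Φ hgood M hm hc hP) univ (fun e _ _ => Set.subset_univ _)
  exact ⟨Γ, g, h1, fun x y hxy => eq_of_eqv_univ ((h2 x y).mpr hxy)⟩

end Pool.Agent.Helper19.QR
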