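import Pool.Agent.Helper19.QR.Clos

/-!
# Block QR-GL: gluing

`U` is the increasing union of the `M j`, `j ∈ ι` well-ordered, all unions of subfamilies are `RG` in `U`,
every `M j` is `Ret` and satisfies `PP`. Then `PP U`.

Proof. For `x ∈ U` let `j(x)` be the least `j` with `x ∈ M j`. Let `Φ_j` be the operation for `M j`. For
`j` and a point `y` with `inl y ∈ U` there is `y' ∈ closure (pts (M j))` with `Eqv (M j) y y'` (`Ret`),
and by tightness a countable `c(j, y) ⊆ M j` with `y' ∈ closure (pts (c(j, y)))`. Let `Φ e` be the union of the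
countable sets `Φ_{j(x)} e' ∩ M j(x)` for `x ∈ e ∩ U`, `e' ⊆ e`, and `c(j(x), y)` for `x ∈ e ∩ U`,
`inl y ∈ e ∩ U`.

Let `N ⊆ U` be closed under `Φ e ∩ U` (note `Φ e ⊆ U`), `p, q ∈ closure (pts N)`, `Eqv N p q`.

Step 1: `Eqv (M j) p q` for `j = j(x)`, `x ∈ N`. The set
`T = {z | ∃ z' ∈ closure (pts (N ∩ M j)), Eqv (M j) z z'}` is closed (projection along a
compact set) and contains `pts N`: for `inl y ∈ N` the set `c(j, y)` is contained in `N ∩ M j`. So there are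
`p', q' ∈ closure (pts (N ∩ M j))` with `Eqv (M j) p p'`, `Eqv (M j) q q'`. As `Eqv N p q`, also
`Eqv (N ∩ M j) p' q'`. `N ∩ M j` is closed under `Φ_j e ∩ M j`: for nonempty `e' ⊆ N ∩ M j`
use `e = e' ∪ {x}`. So `RG (N ∩ M j) (M j)`, `Eqv (M j) p' q'`, and `Eqv (M j) p q`.

Step 2: let `V` be the union of the `M j(x)`, `x ∈ N`. Then `N ⊆ V`, so `p, q ∈ closure (pts V)`, and
`Eqv V p q` by step 1; `RG V U` gives `Eqv U p q`.
-/

set_option autoImplicit false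

open Set Cardinal

namespace Pool.Agent.Helper19.QR

private theorem eqv_symm36 {X : Type} [TopologicalSpace X] {N : Set (X ⊕ C(X, ℝ))} {p q : X}
    (h : Eqv N p q) : Eqv N q p := fun f hf => (h f hf).symm

private theorem eqv_trans36 {X : Type} [TopologicalSpace X] {N : Set (X ⊕ C(X, ℝ))} {p q r : X}
    (h : Eqv N p q) (h' : Eqv N q r) : Eqv N p r := fun f hf => (h f hf).trans (h' f hf)

private theorem isClosed_proj36 {X : Type} [TopologicalSpace X] [CompactSpace X] [T2Space X]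
    (N : Set (X ⊕ C(X, ℝ))) (K : Set X) (hK : IsClosed K) :
    IsClosed {z : X | ∃ z' ∈ K, Eqv N z z'} := by
  have h1 : IsClosed {w : X × X | w.2 ∈ K ∧ Eqv N w.1 w.2} := by
    have h2 : {w : X × X | w.2 ∈ K ∧ Eqv N w.1 w.2} =
        (Prod.snd ⁻¹' K) ∩ ⋂ f ∈ {f : C(X, ℝ) | Sum.inr f ∈ N}, {w : X × X | f w.1 = f w.2} := by
      ext w
      simp only [mem_setOf_eq, mem_inter_iff, mem_preimage, mem_iInter, Eqv]
    rw [h2]
    refine (hK.preimage continuous_snd).inter (isClosed_biInter fun f _ => ?_)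
    exact isClosed_eq (f.continuous.comp continuous_fst) (f.continuous.comp continuous_snd)
  have h3 : {z : X | ∃ z' ∈ K, Eqv N z z'} =
      Prod.fst '' {w : X × X | w.2 ∈ K ∧ Eqv N w.1 w.2} := by
    ext z
    constructor
    · rintro ⟨z', hz', he⟩
      exact ⟨(z, z'), ⟨hz', he⟩, rfl⟩
    · rintro ⟨w, ⟨hw, he⟩, rfl⟩
      exact ⟨w.2, hw, he⟩
  rw [h3]
  exact (h1.isCompact.image continuous_fst).isClosed

private theorem exists_c36 {X : Type} [TopologicalSpace X] (ht : Tight X)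
    (N : Set (X ⊕ C(X, ℝ))) (hr : Ret N) (y : X) :
    ∃ c : Set (X ⊕ C(X, ℝ)), c ⊆ N ∧ c.Countable ∧ ∃ y' ∈ closure (pts c), Eqv N y y' := by
  obtain ⟨y', hy', he⟩ := hr y
  obtain ⟨D, hD, hDc, hy2⟩ := ht _ _ hy'
  refine ⟨Sum.inl '' D, ?_, hDc.image _, y', ?_, he⟩
  · rintro _ ⟨d, hd, rfl⟩
    exact hD hd
  · refine closure_mono (fun d hd => ?_) hy2
    exact ⟨d, hd, rfl⟩

private theorem pts_mono36 {X : Type} [TopologicalSpace X] {N N' : Set (X ⊕ C(X, ℝ))}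
    (h : N ⊆ N') : pts N ⊆ pts N' := fun _ hx => h hx

theorem glue {X : Type} [TopologicalSpace X] [CompactSpace X] [T2Space X] (ht : Tight X)
    (U : Set (X ⊕ C(X, ℝ))) {ι : Type} [LinearOrder ι] [WellFoundedLT ι]
    (M : ι → Set (X ⊕ C(X, ℝ))) (hm : Monotone M) (hU : ⋃ j, M j = U)
    (hRG : ∀ J : Set ι, RG (⋃ j ∈ J, M j) U) (hret : ∀ j, Ret (M j)) (hPP : ∀ j, PP (M j)) :
    PP U := by
  classical
  choose Φ hΦc hΦ using hPP
  choose c hcM hcc hcy using fun j => exists_c36 ht (M j) (hret j)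
  have hMU : ∀ j, M j ⊆ U := fun j x hx => by rw [← hU]; exact mem_iUnion.2 ⟨j, hx⟩
  have hJ : ∀ x : X ⊕ C(X, ℝ), x ∈ U → ∃ j, x ∈ M j := by
    intro x hx
    rw [← hU] at hx
    exact mem_iUnion.1 hx
  choose J hJM using hJ
  let Ψ : Finset (X ⊕ C(X, ℝ)) → Set (X ⊕ C(X, ℝ)) := fun e =>
    ⋃ x ∈ (↑e : Set (X ⊕ C(X, ℝ))), ⋃ hx : x ∈ U,
      (⋃ e' ∈ (↑e.powerset : Set (Finset (X ⊕ C(X, ℝ)))), Φ (J x hx) e' ∩ M (J x hx)) ∪
        ⋃ y ∈ {y : X | Sum.inl y ∈ e}, c (J x hx) y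
  have hΨ1 : ∀ (e : Finset (X ⊕ C(X, ℝ))) (x : X ⊕ C(X, ℝ)) (hx : x ∈ U), x ∈ e →
      ∀ e' : Finset (X ⊕ C(X, ℝ)), e' ⊆ e → Φ (J x hx) e' ∩ M (J x hx) ⊆ Ψ e := by
    intro e x hx hxe e' he' z hz
    refine mem_iUnion₂.2 ⟨x, hxe, mem_iUnion.2 ⟨hx, Or.inl ?_⟩⟩
    exact mem_iUnion₂.2 ⟨e', by simpa using he', hz⟩
  have hΨ2 : ∀ (e : Finset (X ⊕ C(X, ℝ))) (x : X ⊕ C(X, ℝ)) (hx : x ∈ U), x ∈ e →
      ∀ y : X, Sum.inl y ∈ e → c (J x hx) y ⊆ Ψ e := by
    intro e x hx hxe y hy z hz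
    refine mem_iUnion₂.2 ⟨x, hxe, mem_iUnion.2 ⟨hx, Or.inr ?_⟩⟩
    exact mem_iUnion₂.2 ⟨y, hy, hz⟩
  refine ⟨Ψ, ?_, ?_⟩
  · intro e
    refine Set.Countable.biUnion e.countable_toSet fun x _ => ?_
    refine Set.countable_iUnion fun hx => Set.Countable.union ?_ ?_
    · refine Set.Countable.biUnion (Finset.countable_toSet _) fun e' _ => ?_
      exact (hΦc _ e').mono inter_subset_left
    · refine Set.Countable.biUnion ?_ fun y _ => hcc _ _
      have h1 : {y : X | Sum.inl y ∈ e} = Sum.inl ⁻¹' (↑e : Set (X ⊕ C(X, ℝ))) := rfl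
      rw [h1]
      exact (e.finite_toSet.preimage Sum.inl_injective.injOn).countable
  · intro N hNU hN p hp q hq hpq
    have hN' : ∀ e : Finset (X ⊕ C(X, ℝ)), e.Nonempty → (↑e : Set (X ⊕ C(X, ℝ))) ⊆ N →
        Ψ e ∩ U ⊆ N := hN
    -- Step 1
    have step1 : ∀ (x : X ⊕ C(X, ℝ)) (hx : x ∈ N), Eqv (M (J x (hNU hx))) p q := by
      intro x hx
      set j := J x (hNU hx) with hj
      have hT : closure (pts N) ⊆ {z : X | ∃ z' ∈ closure (pts (N ∩ M j)), Eqv (M j) z z'} := by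
        refine closure_minimal ?_ (isClosed_proj36 _ _ isClosed_closure)
        intro y hy
        obtain ⟨y', hy', he⟩ := hcy j y
        refine ⟨y', closure_mono (pts_mono36 ?_) hy', he⟩
        intro z hz
        refine ⟨?_, hcM j y hz⟩
        have h1 : (↑({x, Sum.inl y} : Finset (X ⊕ C(X, ℝ))) : Set (X ⊕ C(X, ℝ))) ⊆ N := by
          intro w hw
          have hw' : w = x ∨ w = Sum.inl y := by simpa using hw
          rcases hw' with rfl | rfl
          · exact hx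
          · exact hy
        refine hN' {x, Sum.inl y} ⟨x, by simp⟩ h1 ⟨?_, hMU j (hcM j y hz)⟩
        exact hΨ2 {x, Sum.inl y} x (hNU hx) (by simp) y (by simp) hz
      obtain ⟨p', hp', hpp⟩ := hT hp
      obtain ⟨q', hq', hqq⟩ := hT hq
      have h2 : Eqv (N ∩ M j) p' q' := by
        intro f hf
        rw [← hpp f hf.2, ← hqq f hf.2]
        exact hpq f hf.1
      have h3 : Clo (fun e => Φ j e ∩ M j) (N ∩ M j) := by
        intro e he heN z hz
        refine ⟨?_, hz.2⟩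
        have h4 : (↑(insert x e : Finset (X ⊕ C(X, ℝ))) : Set (X ⊕ C(X, ℝ))) ⊆ N := by
          intro w hw
          rw [Finset.coe_insert] at hw
          rcases hw with rfl | hw
          · exact hx
          · exact (heN hw).1
        refine hN' (insert x e) ⟨x, Finset.mem_insert_self x e⟩ h4 ⟨?_, hMU j hz.2⟩
        exact hΨ1 (insert x e) x (hNU hx) (Finset.mem_insert_self x e) e
          (Finset.subset_insert x e) hz
      have h5 := hΦ j (N ∩ M j) inter_subset_right h3 p' hp' q' hq' h2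
      exact eqv_trans36 hpp (eqv_trans36 h5 (eqv_symm36 hqq))
    -- Step 2
    have hNV : N ⊆ ⋃ j ∈ {j : ι | ∃ (x : X ⊕ C(X, ℝ)) (hx : x ∈ N), J x (hNU hx) = j}, M j := by
      intro x hx
      exact mem_iUnion₂.2 ⟨J x (hNU hx), ⟨x, hx, rfl⟩, hJM x (hNU hx)⟩
    refine hRG {j : ι | ∃ (x : X ⊕ C(X, ℝ)) (hx : x ∈ N), J x (hNU hx) = j} p
      (closure_mono (pts_mono36 hNV) hp) q (closure_mono (pts_mono36 hNV) hq) ?_
    intro f hf
    obtain ⟨j, ⟨x, hx, hj⟩, hfj⟩ := mem_iUnion₂.1 hf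
    rw [← hj] at hfj
    exact step1 x hx f hfj

end Pool.Agent.Helper19.QR
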