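import Pool.Agent.Helper19.QR.KS

/-!
# Block QR-E1c: small closures in the space of cliques

let `#A ≤ 𝔠`, `A ⊆ KS S`. Every clique `x` is countable: otherwise it has a
subset `W` of cardinality `ℵ₁ ≤ 𝔠`, `Thin S W`, and a clique all of whose subsets of one
colour are finite is countable. So `W = {v | ∃ x ∈ A, x v = true}` has cardinality `≤ 𝔠`; let `f` be
given by `Thin S W`. The set `{x ∈ KS S | ∀ v, x v = true → v ∈ W}` is closed and contains `A`, so it
contains `closure A`. Map `x ∈ closure A` to `v ↦ if x v then 1/(f v + 1) else 0` in `V → ℝ`: continuous,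
injective, bounded by `1`, in `c₀`: for `δ > 0`, `δ ≤ 1/(f v + 1)` leaves finitely many colours, and
`{v | x v = true ∧ f v = n}` is a clique contained in `W`, of one colour, so finite.
-/

set_option autoImplicit false

open Set Cardinal

namespace Pool.Agent.Helper19.QR

open Pool.Agent.Helper93.EC (EmbedsC0)

private theorem countable_clique19 {V : Type} (S : Set (Finset V))
    (hloc : ∀ W : Set V, #W ≤ 𝔠 → Thin S W) {x : V → Bool} (hx : x ∈ KS S) :
    {v | x v = true}.Countable := by
  by_contra hc
  have h1 : ℵ₁ ≤ #{v | x v = true} := by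
    rw [← succ_aleph0]
    exact Order.succ_le_of_lt (not_le.1 fun h2 => hc (le_aleph0_iff_set_countable.1 h2))
  obtain ⟨W, hW, hW'⟩ := le_mk_iff_exists_subset.1 h1
  obtain ⟨f, hf⟩ := hloc W (by rw [hW']; exact aleph_one_le_continuum)
  have h3 : W.Countable := by
    have h2 : W ⊆ ⋃ n : ℕ, {v | v ∈ W ∧ f v = n} := fun v hv => mem_iUnion.2 ⟨f v, hv, rfl⟩
    refine (countable_iUnion fun n => Set.Finite.countable ?_).mono h2
    exact hf n _ (fun v hv => hv.1) (fun v hv => hv.2) fun F hF => hx F fun v hv => hW (hF hv).1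
  have h4 := le_aleph0_iff_set_countable.2 h3
  rw [hW', ← succ_aleph0] at h4
  exact absurd h4 (not_le.2 (Order.lt_succ _))

theorem embeds_local {V : Type} (S : Set (Finset V)) (hS : ∀ F ∈ S, ∀ G ⊆ F, G ∈ S)
    (h0 : ∅ ∈ S) (hloc : ∀ W : Set V, #W ≤ 𝔠 → Thin S W) (A : Set (KS S)) (hA : #A ≤ 𝔠) :
    EmbedsC0 (closure A) := by
  classical
  obtain ⟨W, hWd⟩ : ∃ W : Set V, ∀ v, v ∈ W ↔ ∃ x ∈ A, x.1 v = true :=
    ⟨{v | ∃ x ∈ A, x.1 v = true}, fun _ => Iff.rfl⟩
  have hW : #W ≤ 𝔠 := by
    have h1 : W = ⋃ x : A, {v | x.1.1 v = true} := by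
      ext v
      rw [hWd, mem_iUnion]
      constructor
      · rintro ⟨x, hx, hv⟩
        exact ⟨⟨x, hx⟩, hv⟩
      · rintro ⟨⟨x, hx⟩, hv⟩
        exact ⟨x, hx, hv⟩
    rw [h1]
    refine (mk_iUnion_le _).trans ?_
    refine mul_le_of_le aleph0_le_continuum hA (ciSup_le' fun x => ?_)
    exact (le_aleph0_iff_set_countable.2 (countable_clique19 S hloc x.1.2)).trans
      aleph0_le_continuum
  obtain ⟨f, hf⟩ := hloc W hW
  have hcl : ∀ x ∈ closure A, ∀ v, x.1 v = true → v ∈ W := by
    have hclosed : IsClosed {x : KS S | ∀ v, x.1 v = true → v ∈ W} := by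
      have h1 : {x : KS S | ∀ v, x.1 v = true → v ∈ W} = ⋂ v ∈ Wᶜ, {x : KS S | x.1 v = false} := by
        ext x
        simp only [mem_ofPred_eq, mem_iInter, mem_compl_iff]
        constructor
        · intro h v hv
          cases h3 : x.1 v
          · rfl
          · exact absurd (h v h3) hv
        · intro h v hv
          by_contra hc
          rw [h v hc] at hv
          exact absurd hv (by simp)
      rw [h1]
      exact isClosed_biInter fun v _ =>
        isClosed_eq ((continuous_apply v).comp continuous_subtype_val) continuous_const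
    intro x hx
    exact closure_minimal (fun y hy v hv => (hWd v).2 ⟨y, hy, hv⟩) hclosed hx
  have hpos : ∀ v, (0 : ℝ) < 1 / ((f v : ℝ) + 1) := fun v => by positivity
  refine ⟨V, fun x v => if x.1.1 v = true then 1 / ((f v : ℝ) + 1) else 0, ?_, ?_, ?_, 1, ?_⟩
  · refine continuous_pi fun v => ?_
    have h1 : Continuous fun x : closure A => x.1.1 v :=
      (continuous_apply v).comp (continuous_subtype_val.comp continuous_subtype_val)
    exact (continuous_of_discreteTopology
      (f := fun b : Bool => if b = true then 1 / ((f v : ℝ) + 1) else 0)).comp h1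
  · intro x y hxy
    refine Subtype.ext (Subtype.ext (funext fun v => ?_))
    have h1 := congrFun hxy v
    simp only at h1
    cases h3 : x.1.1 v <;> cases h4 : y.1.1 v
    · rfl
    · rw [h3, h4, if_neg (by simp), if_pos rfl] at h1
      exact absurd h1 (hpos v).ne
    · rw [h3, h4, if_pos rfl, if_neg (by simp)] at h1
      exact absurd h1 (hpos v).ne'
    · rfl
  · intro x
    rw [Metric.tendsto_nhds]
    intro δ hδ
    rw [Filter.eventually_cofinite]
    obtain ⟨n, hn⟩ := exists_nat_one_div_lt hδ
    have h1 : (⋃ k ∈ Finset.range n, {v | x.1.1 v = true ∧ f v = k}).Finite := by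
      refine (Finset.finite_toSet _).biUnion fun k _ => ?_
      refine hf k _ (fun v hv => hcl x.1 x.2 v hv.1) (fun v hv => hv.2) fun F hF => ?_
      exact x.1.2 F fun v hv => (hF hv).1
    refine h1.subset fun v hv => ?_
    simp only [mem_ofPred_eq, Real.dist_eq, sub_zero] at hv
    by_cases h2 : x.1.1 v = true
    · rw [if_pos h2, abs_of_pos (hpos v)] at hv
      simp only [mem_iUnion]
      refine ⟨f v, ?_, h2, rfl⟩
      rw [Finset.mem_range]
      by_contra h3
      apply hv
      refine lt_of_le_of_lt ?_ hn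
      have h4 : (n : ℝ) ≤ f v := by exact_mod_cast not_lt.1 h3
      exact one_div_le_one_div_of_le (by positivity) (by linarith)
    · rw [if_neg h2, abs_zero] at hv
      exact absurd hδ hv
  · intro x v
    beta_reduce
    split_ifs with h
    · rw [abs_of_pos (hpos v), div_le_one (by positivity)]
      have : (0 : ℝ) ≤ f v := Nat.cast_nonneg _
      linarith
    · simp

end Pool.Agent.Helper19.QR
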