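import Pool.Agent.Helper19.QR.SF

/-!
# Block QR-LL: injective choice of initial segments, local form

The core of the argument. `L α` (`α ∈ ι`, `ι` well-ordered) is increasing; for `α ∈ J` the sequence
`c α` has values in `L α`, the points `p α`, `q α` are in the closure of the points among its values, they
are `L α`-equivalent, and `g α` separates them; `inr (g α) ∈ L β` for `α < β` in `J`; `#J ≤ 𝔠`. Then
the sets `pre (c α)` of finite initial segments have an injective choice avoiding given finite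
sets.

`choice_core`: assume that this is true for all `J ∩ Iio β`, `β ∈ J`. If `J` has a largest element
`β`: given `s`, choose `b ∈ pre (c β)` outside `s β` (the set is infinite: different lengths), and an
injective choice on `J ∩ Iio β` avoiding `s α ∪ {b}`. (`J` empty: trivial.)

Let `J` have no largest element. For `β ∈ J` let `h_β` be an injective choice on `J ∩ Iio β` (take
`s = ∅`). Let `Z` be the set of all `c α n` and all `inr (g α)`, `α ∈ J`; `#Z ≤ 𝔠`, so `PP Z`; let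
`Φ_Z` be the operation. Every `z ∈ Z` belongs to some `L β`, `β ∈ J` (`J` has no largest element);
let `b(z)` be the least one. On `ι ⊕ List Ω` let `Φ e` consist of:

* for `inr l ∈ e`: `inr l'` for all prefixes `l'` of `l` and `inr [z]` for all `z ∈ l`;
* `inr [z']` for `z' ∈ Φ_Z e' ∩ Z`, where `e' = {z | inr [z] ∈ e}` or any subset of it;
* `inl (b(z))` for `inr [z] ∈ e`, `z ∈ Z`;
* `inl α` for all `α ∈ J ∩ Iio β` with `h_β α = l`, where `inl β, inr l ∈ e`, `β ∈ J` (at most one for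
  each pair).

Let `N` be closed and `α ∈ J`, `inl α ∉ N`; claim: `{l ∈ pre (c α) | inr l ∈ N}` is finite. Otherwise
it contains arbitrarily long segments, so `inr l ∈ N` for all `l ∈ pre (c α)` and `inr [c α n] ∈ N`
for all `n`. Let `N_Z = {z ∈ Z | inr [z] ∈ N}`; it is closed under `Φ_Z ∩ Z`, so `RG N_Z Z`. As
`p α, q α` are in the closure of `pts N_Z` and not `Z`-equivalent (`g α`), there is `inr f ∈ N_Z` with
`f (p α) ≠ f (q α)`; so `z = inr f ∉ L α`. Let `β = b(z)`: `inl β ∈ N`, and `β > α`, otherwise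
`z ∈ L β ⊆ L α`. Now `l = h_β α ∈ pre (c α)`, so `inr l ∈ N`, and `inl α ∈ N`: a contradiction.

So `sfree_of_clo` applies.

`choice`: for arbitrary `J`: otherwise there is a counterexample `J' = J ∩ Iio δ`, `δ` minimal, or
`J' = J` itself if no `J ∩ Iio δ` is a counterexample; `choice_core` gives a contradiction.
-/

set_option autoImplicit false

open Set Cardinal

namespace Pool.Agent.Helper19.QR

variable {X : Type} [TopologicalSpace X]

private theorem pre_count2 {Ω : Type} (c : ℕ → Ω) : (pre c).Countable := countable_range _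

private theorem pre_inf2 {Ω : Type} (c : ℕ → Ω) : (pre c).Infinite := by
  apply infinite_range_of_injective
  intro m n hmn
  have h1 := congrArg List.length hmn
  simp only [List.length_map, List.length_range] at h1
  omega

private theorem take2 {Ω : Type} (c : ℕ → Ω) {m n : ℕ} (h : n ≤ m) :
    ((List.range (m + 1)).map c).take (n + 1) = (List.range (n + 1)).map c := by
  rw [← List.map_take, List.take_range, min_eq_left (by omega)]

/-- The case of a largest element. -/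
private theorem top2 {Ω ι : Type} [LinearOrder ι] (c : ι → ℕ → Ω) (J : Set ι)
    (hfree : ∀ β ∈ J, SFree (fun α => pre (c α)) (J ∩ Iio β)) {β : ι} (hβ : β ∈ J)
    (hmax : ∀ α ∈ J, α ≤ β) : SFree (fun α => pre (c α)) J := by
  classical
  intro s
  obtain ⟨b, hb, hbs⟩ : ∃ b ∈ pre (c β), b ∉ s β := by
    by_contra hcon
    push Not at hcon
    exact pre_inf2 (c β) ((s β).finite_toSet.subset fun x hx => hcon x hx)
  obtain ⟨h', h1, h2⟩ := hfree β hβ (fun α => insert b (s α))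
  refine ⟨fun α => if α = β then b else h' α, ?_, ?_⟩
  · intro α hα
    by_cases he : α = β
    · subst he
      simp only [if_true]
      exact ⟨hb, hbs⟩
    · simp only [if_neg he]
      have h3 := h1 α ⟨hα, lt_of_le_of_ne (hmax α hα) he⟩
      exact ⟨h3.1, fun h4 => h3.2 (Finset.mem_insert_of_mem h4)⟩
  · intro α hα α' hα' heq
    by_cases he : α = β
    · by_cases he' : α' = β
      · rw [he, he']
      · exfalso
        simp only [if_pos he, if_neg he'] at heq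
        have h3 := h1 α' ⟨hα', lt_of_le_of_ne (hmax α' hα') he'⟩
        exact h3.2 (heq ▸ Finset.mem_insert_self _ _)
    · by_cases he' : α' = β
      · exfalso
        simp only [if_neg he, if_pos he'] at heq
        have h3 := h1 α ⟨hα, lt_of_le_of_ne (hmax α hα) he⟩
        exact h3.2 (heq ▸ Finset.mem_insert_self _ _)
      · simp only [if_neg he, if_neg he'] at heq
        exact h2 ⟨hα, lt_of_le_of_ne (hmax α hα) he⟩
          ⟨hα', lt_of_le_of_ne (hmax α' hα') he'⟩ heq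

section op

variable {Ω ι : Type} [LinearOrder ι]

/-- The finite set of the `z` with `inr [z] ∈ e`. -/
private noncomputable def ee2 (e : Finset (ι ⊕ List Ω)) : Finset Ω :=
  e.preimage (fun z => Sum.inr [z]) (by
    intro z _ z' _ h
    exact List.singleton_inj.1 (Sum.inr_injective h))

private theorem mem_ee2 {e : Finset (ι ⊕ List Ω)} {z : Ω} :
    z ∈ ee2 e ↔ (Sum.inr [z] : ι ⊕ List Ω) ∈ e := by
  rw [ee2, Finset.mem_preimage]

/-- The operation. -/
private def op2 (Z : Set Ω) (ΦZ : Finset Ω → Set Ω) (b : Ω → ι) (J : Set ι)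
    (h : ι → ι → List Ω) (e : Finset (ι ⊕ List Ω)) : Set (ι ⊕ List Ω) :=
  {x | (∃ l : List Ω, Sum.inr l ∈ e ∧ ∃ n : ℕ, x = Sum.inr (l.take n)) ∨
    (∃ l : List Ω, Sum.inr l ∈ e ∧ ∃ z ∈ l, x = Sum.inr [z]) ∨
    (∃ z' ∈ ΦZ (ee2 e) ∩ Z, x = Sum.inr [z']) ∨
    (∃ z ∈ ee2 e, x = Sum.inl (b z)) ∨
    (∃ β : ι, Sum.inl β ∈ e ∧ ∃ l : List Ω, Sum.inr l ∈ e ∧
      ∃ α ∈ J ∩ Iio β, β ∈ J ∧ h β α = l ∧ x = Sum.inl α)}

private theorem cv_op2 (Z : Set Ω) (ΦZ : Finset Ω → Set Ω) (hΦZ : CV ΦZ) (b : Ω → ι) (J : Set ι)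
    (h : ι → ι → List Ω) (hh : ∀ β ∈ J, InjOn (h β) (J ∩ Iio β)) : CV (op2 Z ΦZ b J h) := by
  intro e
  have hA : {l : List Ω | (Sum.inr l : ι ⊕ List Ω) ∈ e}.Countable :=
    ((e.finite_toSet.preimage (Sum.inr_injective.injOn)).countable)
  have hB : {β : ι | (Sum.inl β : ι ⊕ List Ω) ∈ e}.Countable :=
    ((e.finite_toSet.preimage (Sum.inl_injective.injOn)).countable)
  have h1 : (⋃ l ∈ {l : List Ω | (Sum.inr l : ι ⊕ List Ω) ∈ e},
      range fun n : ℕ => (Sum.inr (l.take n) : ι ⊕ List Ω)).Countable :=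
    hA.biUnion fun l _ => countable_range _
  have h2 : (⋃ l ∈ {l : List Ω | (Sum.inr l : ι ⊕ List Ω) ∈ e},
      (fun z => (Sum.inr [z] : ι ⊕ List Ω)) '' {z | z ∈ l}).Countable :=
    hA.biUnion fun l _ => ((List.finite_toSet l).countable.image _)
  have h3 : ((fun z => (Sum.inr [z] : ι ⊕ List Ω)) '' (ΦZ (ee2 e) ∩ Z)).Countable :=
    ((hΦZ _).mono inter_subset_left).image _
  have h4 : ((fun z => (Sum.inl (b z) : ι ⊕ List Ω)) '' (↑(ee2 e) : Set Ω)).Countable :=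
    (ee2 e).countable_toSet.image _
  have h5 : (⋃ β ∈ {β : ι | (Sum.inl β : ι ⊕ List Ω) ∈ e},
      ⋃ l ∈ {l : List Ω | (Sum.inr l : ι ⊕ List Ω) ∈ e},
      {x : ι ⊕ List Ω | ∃ α ∈ J ∩ Iio β, β ∈ J ∧ h β α = l ∧ x = Sum.inl α}).Countable := by
    refine hB.biUnion fun β _ => hA.biUnion fun l _ => Set.Subsingleton.countable ?_
    rintro x ⟨α, hα, hβ, hl, rfl⟩ y ⟨α', hα', -, hl', rfl⟩
    rw [hh β hβ hα hα' (hl.trans hl'.symm)]
  refine ((((h1.union h2).union h3).union h4).union h5).mono ?_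
  rintro x (⟨l, hl, n, rfl⟩ | ⟨l, hl, z, hz, rfl⟩ | ⟨z, hz, rfl⟩ | ⟨z, hz, rfl⟩ |
    ⟨β, hβ, l, hl, α, hα, hβJ, hh', rfl⟩)
  · refine Or.inl (Or.inl (Or.inl (Or.inl ?_)))
    exact mem_iUnion₂.2 ⟨l, hl, n, rfl⟩
  · refine Or.inl (Or.inl (Or.inl (Or.inr ?_)))
    exact mem_iUnion₂.2 ⟨l, hl, z, hz, rfl⟩
  · exact Or.inl (Or.inl (Or.inr ⟨z, hz, rfl⟩))
  · exact Or.inl (Or.inr ⟨z, hz, rfl⟩)
  · refine Or.inr ?_
    exact mem_iUnion₂.2 ⟨β, hβ, mem_iUnion₂.2 ⟨l, hl, α, hα, hβJ, hh', rfl⟩⟩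

end op

theorem choice_core (hpp : ∀ U : Set (X ⊕ C(X, ℝ)), #U ≤ 𝔠 → PP U)
    {ι : Type} [LinearOrder ι] [WellFoundedLT ι] (L : ι → Set (X ⊕ C(X, ℝ))) (hL : Monotone L)
    (c : ι → ℕ → X ⊕ C(X, ℝ)) (g : ι → C(X, ℝ)) (p q : ι → X) (J : Set ι) (hJ : #J ≤ 𝔠)
    (hc : ∀ α ∈ J, ∀ n, c α n ∈ L α)
    (hp : ∀ α ∈ J, p α ∈ closure (pts (range (c α))))
    (hq : ∀ α ∈ J, q α ∈ closure (pts (range (c α))))
    (hpq : ∀ α ∈ J, Eqv (L α) (p α) (q α))
    (hg : ∀ α ∈ J, g α (p α) ≠ g α (q α))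
    (hgL : ∀ α ∈ J, ∀ β ∈ J, α < β → Sum.inr (g α) ∈ L β)
    (hfree : ∀ β ∈ J, SFree (fun α => pre (c α)) (J ∩ Iio β)) :
    SFree (fun α => pre (c α)) J := by
  classical
  by_cases hmax : ∃ β ∈ J, ∀ α ∈ J, α ≤ β
  · obtain ⟨β, hβ, hm⟩ := hmax
    exact top2 c J hfree hβ hm
  push Not at hmax
  rcases isEmpty_or_nonempty ι with hι | hι
  · intro s
    exact ⟨fun _ => [], fun i => (hι.false i).elim, fun i => (hι.false i).elim⟩
  choose! h hh using fun β hβ => hfree β hβ (fun _ => ∅)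
  -- the set `Z`
  obtain ⟨Z, hZ⟩ : ∃ Z : Set (X ⊕ C(X, ℝ)), Z = range fun x : J × Option ℕ =>
      (x.2.elim (Sum.inr (g x.1.1)) (fun n => c x.1.1 n) : X ⊕ C(X, ℝ)) := ⟨_, rfl⟩
  have hZc : #Z ≤ 𝔠 := by
    rw [hZ]
    refine mk_range_le.trans ?_
    rw [mk_prod, lift_id, lift_id]
    calc #J * #(Option ℕ) ≤ 𝔠 * ℵ₀ := mul_le_mul' hJ (mk_le_aleph0)
      _ = 𝔠 := continuum_mul_aleph0
  have hcZ : ∀ α ∈ J, ∀ n, c α n ∈ Z := by
    intro α hα n
    rw [hZ]
    exact ⟨(⟨α, hα⟩, some n), rfl⟩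
  have hgZ : ∀ α ∈ J, Sum.inr (g α) ∈ Z := by
    intro α hα
    rw [hZ]
    exact ⟨(⟨α, hα⟩, none), rfl⟩
  have hZL : ∀ z ∈ Z, ∃ β ∈ J, z ∈ L β ∧ ∀ β' ∈ J, z ∈ L β' → β ≤ β' := by
    intro z hz
    have hne : {β | β ∈ J ∧ z ∈ L β}.Nonempty := by
      rw [hZ] at hz
      obtain ⟨⟨⟨α, hα⟩, o⟩, rfl⟩ := hz
      cases o with
      | none =>
        obtain ⟨β, hβ, hlt⟩ := hmax α hα
        exact ⟨β, hβ, hgL α hα β hβ hlt⟩
      | some n => exact ⟨α, hα, hc α hα n⟩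
    refine ⟨wellFounded_lt.min _ hne, (wellFounded_lt.min_mem _ hne).1,
      (wellFounded_lt.min_mem _ hne).2, fun β' h1 h2 => ?_⟩
    exact not_lt.1 (wellFounded_lt.not_lt_min _ (show β' ∈ {β | β ∈ J ∧ z ∈ L β} from ⟨h1, h2⟩))
  choose! b hb using hZL
  obtain ⟨ΦZ, hΦZ, hRG⟩ := hpp Z hZc
  refine sfree_of_clo (fun α => pre (c α)) J (fun i _ => pre_count2 _) (fun i _ => pre_inf2 _)
    (op2 Z ΦZ b J h) (cv_op2 Z ΦZ hΦZ b J h fun β hβ => (hh β hβ).2) ?_
  intro N hN α hα hαN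
  by_contra hinf
  -- all segments are in `N`
  have h1 : ∀ n, (Sum.inr ((List.range (n + 1)).map (c α)) : ι ⊕ List (X ⊕ C(X, ℝ))) ∈ N := by
    intro n
    obtain ⟨m, hm, hmN⟩ : ∃ m, n ≤ m ∧
        (Sum.inr ((List.range (m + 1)).map (c α)) : ι ⊕ List (X ⊕ C(X, ℝ))) ∈ N := by
      by_contra hcon
      push Not at hcon
      apply hinf
      refine ((finite_Iio n).image fun m => (List.range (m + 1)).map (c α)).subset ?_
      rintro l ⟨⟨m, rfl⟩, hl⟩
      refine ⟨m, ?_, rfl⟩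
      by_contra h2
      exact hcon m (not_lt.1 h2) hl
    refine hN {Sum.inr ((List.range (m + 1)).map (c α))} (Finset.singleton_nonempty _) ?_ ?_
    · rw [Finset.coe_singleton]
      exact singleton_subset_iff.2 hmN
    · refine Or.inl ⟨_, Finset.mem_singleton_self _, n + 1, ?_⟩
      rw [take2 (c α) hm]
  have h2 : ∀ n, (Sum.inr [c α n] : ι ⊕ List (X ⊕ C(X, ℝ))) ∈ N := by
    intro n
    refine hN {Sum.inr ((List.range (n + 1)).map (c α))} (Finset.singleton_nonempty _) ?_ ?_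
    · rw [Finset.coe_singleton]
      exact singleton_subset_iff.2 (h1 n)
    · refine Or.inr (Or.inl ⟨_, Finset.mem_singleton_self _, c α n, ?_, rfl⟩)
      exact List.mem_map.2 ⟨n, List.mem_range.2 (Nat.lt_succ_self n), rfl⟩
  -- the closed set of `Z`
  obtain ⟨NZ, hNZ⟩ : ∃ NZ : Set (X ⊕ C(X, ℝ)),
      NZ = {z | z ∈ Z ∧ (Sum.inr [z] : ι ⊕ List (X ⊕ C(X, ℝ))) ∈ N} := ⟨_, rfl⟩
  have hclo : Clo (fun e => ΦZ e ∩ Z) NZ := by
    intro e' he' hsub z' hz'
    have hz1 : z' ∈ ΦZ e' ∩ Z := hz'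
    rw [hNZ]
    refine ⟨hz1.2, ?_⟩
    have he : ee2 (e'.image fun z => (Sum.inr [z] : ι ⊕ List (X ⊕ C(X, ℝ)))) = e' := by
      ext z
      rw [mem_ee2, Finset.mem_image]
      constructor
      · rintro ⟨y, hy, hyz⟩
        rw [← List.singleton_inj.1 (Sum.inr_injective hyz)]
        exact hy
      · intro hz
        exact ⟨z, hz, rfl⟩
    refine hN (e'.image fun z => (Sum.inr [z] : ι ⊕ List (X ⊕ C(X, ℝ)))) (he'.image _) ?_ ?_
    · intro x hx
      rw [Finset.mem_coe, Finset.mem_image] at hx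
      obtain ⟨y, hy, rfl⟩ := hx
      have h3 := hsub hy
      rw [hNZ] at h3
      exact h3.2
    · refine Or.inr (Or.inr (Or.inl ⟨z', ?_, rfl⟩))
      rw [he]
      exact hz1
  have hrg : RG NZ Z := hRG NZ (by rw [hNZ]; exact fun z hz => hz.1) hclo
  have hsub : pts (range (c α)) ⊆ pts NZ := by
    intro x hx
    obtain ⟨n, hn⟩ := hx
    show Sum.inl x ∈ NZ
    rw [hNZ, ← hn]
    exact ⟨hcZ α hα n, h2 n⟩
  obtain ⟨f, hfN, hf⟩ : ∃ f : C(X, ℝ), Sum.inr f ∈ NZ ∧ f (p α) ≠ f (q α) := by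
    by_contra hcon
    push Not at hcon
    exact hg α hα (hrg (p α) (closure_mono hsub (hp α hα)) (q α) (closure_mono hsub (hq α hα))
      hcon (g α) (hgZ α hα))
  rw [hNZ] at hfN
  have hfL : (Sum.inr f : X ⊕ C(X, ℝ)) ∉ L α := fun h3 => hf (hpq α hα f h3)
  obtain ⟨hβJ, hβL, hβm⟩ := hb _ hfN.1
  have hβN : (Sum.inl (b (Sum.inr f)) : ι ⊕ List (X ⊕ C(X, ℝ))) ∈ N := by
    refine hN {Sum.inr [Sum.inr f]} (Finset.singleton_nonempty _) ?_ ?_
    · rw [Finset.coe_singleton]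
      exact singleton_subset_iff.2 hfN.2
    · exact Or.inr (Or.inr (Or.inr (Or.inl ⟨_, mem_ee2.2 (Finset.mem_singleton_self _), rfl⟩)))
  have hlt : α < b (Sum.inr f) := by
    by_contra h3
    exact hfL (hL (not_lt.1 h3) hβL)
  have hα' : α ∈ J ∩ Iio (b (Sum.inr f)) := ⟨hα, hlt⟩
  obtain ⟨n, hn⟩ := ((hh _ hβJ).1 α hα').1
  have hlN : (Sum.inr (h (b (Sum.inr f)) α) : ι ⊕ List (X ⊕ C(X, ℝ))) ∈ N := by
    rw [← hn]
    exact h1 n
  apply hαN
  refine hN {Sum.inl (b (Sum.inr f)), Sum.inr (h (b (Sum.inr f)) α)}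
    (Finset.insert_nonempty _ _) ?_ ?_
  · rw [Finset.coe_pair]
    exact insert_subset hβN (singleton_subset_iff.2 hlN)
  · exact Or.inr (Or.inr (Or.inr (Or.inr ⟨_, Finset.mem_insert_self _ _, _,
      Finset.mem_insert_of_mem (Finset.mem_singleton_self _), α, hα', hβJ, rfl, rfl⟩)))

theorem choice (hpp : ∀ U : Set (X ⊕ C(X, ℝ)), #U ≤ 𝔠 → PP U)
    {ι : Type} [LinearOrder ι] [WellFoundedLT ι] (L : ι → Set (X ⊕ C(X, ℝ))) (hL : Monotone L)
    (c : ι → ℕ → X ⊕ C(X, ℝ)) (g : ι → C(X, ℝ)) (p q : ι → X) (J : Set ι) (hJ : #J ≤ 𝔠)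
    (hc : ∀ α ∈ J, ∀ n, c α n ∈ L α)
    (hp : ∀ α ∈ J, p α ∈ closure (pts (range (c α))))
    (hq : ∀ α ∈ J, q α ∈ closure (pts (range (c α))))
    (hpq : ∀ α ∈ J, Eqv (L α) (p α) (q α))
    (hg : ∀ α ∈ J, g α (p α) ≠ g α (q α))
    (hgL : ∀ α ∈ J, ∀ β ∈ J, α < β → Sum.inr (g α) ∈ L β) :
    SFree (fun α => pre (c α)) J := by
  have key : ∀ δ : ι, SFree (fun α => pre (c α)) (J ∩ Iio δ) := by
    intro δ
    induction δ using WellFoundedLT.induction with
    | ind δ ih =>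
      refine choice_core hpp L hL c g p q (J ∩ Iio δ)
        ((mk_le_mk_of_subset inter_subset_left).trans hJ) (fun α hα => hc α hα.1)
        (fun α hα => hp α hα.1) (fun α hα => hq α hα.1) (fun α hα => hpq α hα.1)
        (fun α hα => hg α hα.1) (fun α hα β hβ => hgL α hα.1 β hβ.1) ?_
      intro β hβ
      have h1 : J ∩ Iio δ ∩ Iio β = J ∩ Iio β := by
        ext x
        constructor
        · rintro ⟨⟨h2, -⟩, h3⟩
          exact ⟨h2, h3⟩
        · rintro ⟨h2, h3⟩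
          exact ⟨⟨h2, lt_trans h3 hβ.2⟩, h3⟩
      rw [h1]
      exact ih β hβ.2
  exact choice_core hpp L hL c g p q J hJ hc hp hq hpq hg hgL fun β _ => key β

end Pool.Agent.Helper19.QR
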