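import Pool.Agent.Helper19.QR.Clos
import Pool.Agent.Helper93.EC.Fodor

/-!
# Block QR-CO: closing off along a regular cardinal

`κ` regular uncountable, `K α ⊆ W` (`α < κ`) increasing, of cardinality `< κ`, with union the whole type
`W`, continuous at limits. The `α` with `K α` closed under `Φ` are unbounded, and form a set closed under
limits.

Unbounded: given `α₀`, choose `α₀ < α₁ < ...` with `Φ e ⊆ K α_{n+1}` for all nonempty finite
`e ⊆ K α_n`: the union of these countable sets has cardinality `< κ` (`κ` is regular uncountable,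
there are fewer than `κ` finite subsets of `K α_n`), each of its elements is in some `K β`, and fewer
than `κ` many `β` are bounded. Let `α` be the least upper bound of the `α_n` (cofinality of
`κ` is uncountable). By `hcont` a finite subset of `K α` is contained in some `K α_n`.
(`Helper93/EC/Fodor.lean` has `exists_upper`, `exists_lub` and the like.)

Closed: `hcont` and monotonicity: a finite subset of `K α` is contained in `K γ` for some `γ < α`
with `K γ` closed.
-/

set_option autoImplicit false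

open Set Cardinal

namespace Pool.Agent.Helper19.QR

/-- A set of size less than the cofinality has a strict upper bound. -/
private theorem exists_strict_upper93 {α : Type} [LinearOrder α] {t : Set α} (ht : #t < Order.cof α) :
    ∃ b, ∀ x ∈ t, x < b := by
  have h : ¬ IsCofinal t := fun h => (Order.cof_le h).not_gt ht
  rw [not_isCofinal_iff] at h
  obtain ⟨b, hb⟩ := h
  exact ⟨b, fun x hx => by simpa using hb x hx⟩

private theorem mk_iUnion_phi93 {W : Type} {Φ : Finset W → Set W} (hΦ : CV Φ) {κ : Cardinal.{0}}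
    (h0 : ℵ₀ < κ) {B : Set W} (hB : #B < κ) :
    #(⋃ e : Finset B, Φ (e.map (Function.Embedding.subtype _))) < κ := by
  refine lt_of_le_of_lt (mk_iUnion_le _) ?_
  refine lt_of_le_of_lt (b := max #B ℵ₀) ?_ (max_lt hB h0)
  refine mul_le_of_le (le_max_right _ _) ?_ ?_
  · rcases finite_or_infinite B with h | h
    · exact (mk_le_aleph0).trans (le_max_right _ _)
    · rw [mk_finset_of_infinite]
      exact le_max_left _ _
  · refine ciSup_le' fun l => ?_
    exact (le_aleph0_iff_set_countable.2 (hΦ _)).trans (le_max_right _ _)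

private theorem next93 {κ : Cardinal.{0}} (hκ : κ.IsRegular) (h0 : ℵ₀ < κ) {W : Type}
    (K : κ.ord.ToType → Set W) (hm : Monotone K) (hcard : ∀ α, #(K α) < κ)
    (hcov : ∀ x, ∃ α, x ∈ K α) (Φ : Finset W → Set W) (hΦ : CV Φ) (α : κ.ord.ToType) :
    ∃ β, α < β ∧ ∀ e : Finset W, (↑e : Set W) ⊆ K α → Φ e ⊆ K β := by
  classical
  have hcof : Order.cof κ.ord.ToType = κ := by
    rw [Ordinal.cof_toType, hκ.cof_ord]
  choose b hb using hcov
  set Z : Set W := ⋃ e : Finset (K α), Φ (e.map (Function.Embedding.subtype _)) with hZ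
  have hZc : #Z < κ := mk_iUnion_phi93 hΦ h0 (hcard α)
  obtain ⟨β, hβ⟩ := exists_strict_upper93 (t := insert α (b '' Z)) (by
    rw [hcof]
    refine lt_of_le_of_lt (mk_insert_le) ?_
    refine add_lt_of_lt h0.le ?_ (one_lt_aleph0.trans h0)
    exact lt_of_le_of_lt mk_image_le hZc)
  refine ⟨β, hβ α (mem_insert _ _), ?_⟩
  intro e he x hx
  have hxZ : x ∈ Z := by
    rw [hZ, mem_iUnion]
    refine ⟨e.subtype (· ∈ K α), ?_⟩
    have : (e.subtype (· ∈ K α)).map (Function.Embedding.subtype _) = e := by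
      rw [Finset.subtype_map]
      exact Finset.filter_true_of_mem fun y hy => he hy
    rw [this]
    exact hx
  exact hm (hβ (b x) (mem_insert_of_mem _ ⟨x, hxZ, rfl⟩)).le (hb x)

theorem unbounded_clo {κ : Cardinal.{0}} (hκ : κ.IsRegular) (h0 : ℵ₀ < κ) {W : Type}
    (K : κ.ord.ToType → Set W) (hm : Monotone K) (hcard : ∀ α, #(K α) < κ)
    (hcov : ∀ x, ∃ α, x ∈ K α)
    (hcont : ∀ α, (∃ β, β < α) → (∀ β < α, ∃ γ < α, β < γ) → ∀ x ∈ K α, ∃ β < α, x ∈ K β)
    (Φ : Finset W → Set W) (hΦ : CV Φ) :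
    (∀ α₀, ∃ α, α₀ < α ∧ Clo Φ (K α)) ∧
    (∀ α, (∃ β, β < α) → (∀ β < α, ∃ γ < α, β < γ ∧ Clo Φ (K γ)) → Clo Φ (K α)) := by
  classical
  have hcof : Order.cof κ.ord.ToType = κ := by
    rw [Ordinal.cof_toType, hκ.cof_ord]
  refine ⟨?_, ?_⟩
  · intro α₀
    choose nx hnx1 hnx2 using next93 hκ h0 K hm hcard hcov Φ hΦ
    let a : ℕ → κ.ord.ToType := fun n => Nat.rec (nx α₀) (fun _ b => nx b) n
    have ha0 : a 0 = nx α₀ := rfl
    have has : ∀ n, a (n + 1) = nx (a n) := fun n => rfl
    have hlt : ∀ n, a n < a (n + 1) := fun n => by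
      rw [has]
      exact hnx1 _
    have hmono : Monotone a := monotone_nat_of_le_succ fun n => (hlt n).le
    obtain ⟨b, hb⟩ := Pool.Agent.Helper93.EC.exists_upper_seq (by rw [hcof]; exact h0) a
    obtain ⟨α, hα⟩ := Pool.Agent.Helper93.EC.exists_lub (t := range a) ⟨b, by
      rintro x ⟨n, rfl⟩
      exact hb n⟩
    have hup : ∀ n, a n ≤ α := fun n => hα.1 ⟨n, rfl⟩
    have hltα : ∀ n, a n < α := fun n => (hlt n).trans_le (hup (n + 1))
    have hex : ∀ β < α, ∃ n, β < a n := by
      intro β hβ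
      by_contra hcon
      push Not at hcon
      have : α ≤ β := hα.2 (by
        rintro x ⟨n, rfl⟩
        exact hcon n)
      exact absurd hβ this.not_gt
    refine ⟨α, ?_, ?_⟩
    · exact (hnx1 α₀).trans (by rw [← ha0]; exact hltα 0)
    · intro e hne he
      have hsub : (↑e : Set W) ⊆ ⋃ n, K (a n) := by
        intro x hx
        obtain ⟨β, hβ, hxβ⟩ := hcont α ⟨a 0, hltα 0⟩ (fun β hβ => by
          obtain ⟨n, hn⟩ := hex β hβ
          exact ⟨a n, hltα n, hn⟩) x (he hx)
        obtain ⟨n, hn⟩ := hex β hβ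
        rw [mem_iUnion]
        exact ⟨n, hm hn.le hxβ⟩
      have hKm : Monotone fun n => K (a n) := fun i j hij => hm (hmono hij)
      obtain ⟨n, hn⟩ := hKm.directed_le.exists_mem_subset_of_finset_subset_biUnion hsub
      refine (hnx2 (a n) e hn).trans ?_
      rw [← has]
      exact hm (hup (n + 1))
  · intro α hα hγ e hne he
    have hsub : (↑e : Set W) ⊆ ⋃ i ∈ {β : κ.ord.ToType | β < α}, K i := by
      intro x hx
      obtain ⟨β, hβ, hxβ⟩ := hcont α hα (fun β hβ => by
        obtain ⟨γ, h1, h2, _⟩ := hγ β hβ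
        exact ⟨γ, h1, h2⟩) x (he hx)
      simp only [mem_iUnion]
      exact ⟨β, hβ, hxβ⟩
    have hdir : DirectedOn (fun i j => K i ⊆ K j) {β : κ.ord.ToType | β < α} := by
      intro i hi j hj
      rcases le_total i j with hij | hij
      · exact ⟨j, hj, hm hij, subset_refl _⟩
      · exact ⟨i, hi, subset_refl _, hm hij⟩
    obtain ⟨β0, hβ0⟩ := hα
    obtain ⟨i, hi, hi'⟩ := hdir.exists_mem_subset_of_finset_subset_biUnion ⟨β0, hβ0⟩ hsub
    obtain ⟨γ, h1, h2, h3⟩ := hγ i hi
    exact (h3 e hne (hi'.trans (hm h2.le))).trans (hm h1.le)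

end Pool.Agent.Helper19.QR
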