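import Pool.Agent.Helper19.QR.KS

/-!
# Block QR-E1b: if the space of cliques embeds in c₀ the complex is thin

Let `φ : KS S → Γ → ℝ` be continuous, injective, with values in `c₀(Γ)`; replacing `φ A`
by `φ A - φ ∅` we may assume `φ ∅ = 0` (`∅` is in `KS S` as `∅ ∈ S`). For a vertex `t` the set
`{A ∈ KS S | t ∈ A}` is compact (maybe empty) and does not contain `∅`, so it is covered by the open sets
`{A | 1/(m+1) < |φ A γ|}`; hence there are a finite `F t ⊆ Γ` and `m t : ℕ` such that every `A ∈ KS S`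
with `t ∈ A` has `1/(m t + 1) < |φ A γ|` for some `γ ∈ F t`. Colour: `f t = Nat.pair (m t) (#(F t))`.
Let `B` be infinite, `m t = m` and `#(F t) = k` for all `t ∈ B`, all finite subsets of `B` in `S`. Choose a
finite set `R ⊆ Γ` of maximal cardinality (`≤ k`) such that `R ⊆ F t` for infinitely many `t ∈ B`, and
let `t_0, t_1, ...` be distinct elements of `B` with `R ⊆ F t_i`. Every `γ ∉ R` is in `F t_i` for only
finitely many `i` (maximality). The tails `A_N = {t_i | i ≥ N}` are in `KS S` and converge to `∅`, so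
`|φ A_N γ| < 1/(m+1)` for all `γ ∈ R`, for some `N`. For all `i ≥ N`: `t_i ∈ A_N`, so there is
`γ_i ∈ F t_i` with `1/(m+1) < |φ A_N γ_i|`, and `γ_i ∉ R`. There are finitely many `γ` with
`1/(m+1) < |φ A_N γ|`, so some `γ ∉ R` is in infinitely many `F t_i`: a contradiction.
-/

set_option autoImplicit false

open Set Cardinal

namespace Pool.Agent.Helper19.QR

open Pool.Agent.Helper93.EC (EmbedsC0)

theorem thin_of_embeds {V : Type} (S : Set (Finset V)) (hS : ∀ F ∈ S, ∀ G ⊆ F, G ∈ S)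
    (h0 : ∅ ∈ S) (hE : EmbedsC0 (KS S)) : Thin S univ := by
  classical
  obtain ⟨Γ, φ, hφc, hφi, hφ0, -⟩ := hE
  have : CompactSpace (KS S) := isCompact_iff_compactSpace.1 (isClosed_KS S).isCompact
  have hZm : (fun _ : V => false) ∈ KS S := by
    intro F hF
    have : F = ∅ := by
      rw [Finset.eq_empty_iff_forall_notMem]
      intro v hv
      exact absurd (hF v hv) (by simp)
    rw [this]
    exact h0
  let Z : KS S := ⟨fun _ => false, hZm⟩
  let ψ : KS S → Γ → ℝ := fun x γ => φ x γ - φ Z γ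
  have hψ0 : ∀ x, Filter.Tendsto (ψ x) Filter.cofinite (nhds 0) := by
    intro x
    have := (hφ0 x).sub (hφ0 Z)
    simpa using this
  have hψc : ∀ γ, Continuous fun x => ψ x γ := by
    intro γ
    have h1 : Continuous fun x => φ x γ := (continuous_apply γ).comp hφc
    exact h1.sub continuous_const
  have hψfin : ∀ (x : KS S) (c : ℝ), 0 < c → {γ | c < |ψ x γ|}.Finite := by
    intro x c hc
    have h1 := (hψ0 x).eventually (Metric.ball_mem_nhds (0 : ℝ) hc)
    rw [Filter.eventually_cofinite] at h1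
    refine h1.subset ?_
    intro γ hγ h2
    rw [dist_zero_right, Real.norm_eq_abs] at h2
    exact absurd (lt_trans hγ h2) (lt_irrefl _)
  -- the finite sets
  have key : ∀ t : V, ∃ (F : Finset Γ) (m : ℕ), ∀ x : KS S, x.1 t = true →
      ∃ γ ∈ F, 1 / ((m : ℝ) + 1) < |ψ x γ| := by
    intro t
    have hC : IsCompact {x : KS S | x.1 t = true} := by
      apply IsClosed.isCompact
      have h3 : Continuous fun x : KS S => x.1 t := (continuous_apply t).comp continuous_subtype_val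
      exact isClosed_eq h3 continuous_const
    obtain ⟨T, hT⟩ := hC.elim_finite_subcover
      (fun q : Γ × ℕ => {x : KS S | 1 / ((q.2 : ℝ) + 1) < |ψ x q.1|})
      (fun q => isOpen_lt continuous_const (hψc q.1).abs)
      (by
        intro x hx
        have hne : x ≠ Z := by
          rintro rfl
          exact absurd hx (by simp [Z])
        have h1 : φ x ≠ φ Z := fun h => hne (hφi h)
        obtain ⟨γ, hγ⟩ := Function.ne_iff.1 h1
        have h2 : 0 < |ψ x γ| := abs_pos.2 (sub_ne_zero.2 hγ)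
        obtain ⟨m, hm⟩ := exists_nat_one_div_lt h2
        exact mem_iUnion.2 ⟨(γ, m), hm⟩)
    refine ⟨T.image Prod.fst, T.sup Prod.snd, ?_⟩
    intro x hx
    obtain ⟨q, hq⟩ := mem_iUnion.1 (hT hx)
    obtain ⟨hqT, hq2⟩ := mem_iUnion.1 hq
    refine ⟨q.1, Finset.mem_image_of_mem _ hqT, lt_of_le_of_lt ?_ hq2⟩
    have h4 : q.2 ≤ T.sup Prod.snd := Finset.le_sup (f := Prod.snd) hqT
    have h5 : (q.2 : ℝ) ≤ ((T.sup Prod.snd : ℕ) : ℝ) := by exact_mod_cast h4
    apply one_div_le_one_div_of_le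
    · positivity
    · linarith
  choose F m hFm using key
  refine ⟨fun t => Nat.pair (m t) (F t).card, ?_⟩
  intro n A _ hAn hAS
  by_contra hAinf
  have hAinf' : A.Infinite := hAinf
  have hm0 : ∀ v ∈ A, m v = n.unpair.1 := by
    intro v hv
    have h1 := hAn v hv
    rw [← h1]
    simp
  have hk0 : ∀ v ∈ A, (F v).card = n.unpair.2 := by
    intro v hv
    have h1 := hAn v hv
    rw [← h1]
    simp
  let P : Finset Γ → Prop := fun R => {t | t ∈ A ∧ R ⊆ F t}.Infinite
  let s : Set ℕ := {j | ∃ R : Finset Γ, R.card = j ∧ P R}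
  have hsne : s.Nonempty := by
    refine ⟨0, ∅, rfl, ?_⟩
    show {t | t ∈ A ∧ ∅ ⊆ F t}.Infinite
    refine hAinf'.mono ?_
    intro t ht
    exact ⟨ht, Finset.empty_subset _⟩
  have hsb : BddAbove s := by
    refine ⟨n.unpair.2, ?_⟩
    rintro j ⟨R, rfl, hR⟩
    obtain ⟨t, htA, htR⟩ := Set.Infinite.nonempty hR
    rw [← hk0 t htA]
    exact Finset.card_le_card htR
  obtain ⟨R, hRc, hRP⟩ := Nat.sSup_mem hsne hsb
  have hmax : ∀ γ ∉ R, {t | (t ∈ A ∧ R ⊆ F t) ∧ γ ∈ F t}.Finite := by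
    intro γ hγ
    by_contra hinf
    have h1 : P (insert γ R) := by
      show {t | t ∈ A ∧ insert γ R ⊆ F t}.Infinite
      refine Set.Infinite.mono ?_ (show {t | (t ∈ A ∧ R ⊆ F t) ∧ γ ∈ F t}.Infinite from hinf)
      intro t ht
      exact ⟨ht.1.1, Finset.insert_subset ht.2 ht.1.2⟩
    have h2 : (insert γ R).card ∈ s := ⟨_, rfl, h1⟩
    have h3 := le_csSup hsb h2
    rw [← hRc, Finset.card_insert_of_notMem hγ] at h3
    omega
  -- an injective sequence
  have hinf2 : {t | t ∈ A ∧ R ⊆ F t}.Infinite := hRP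
  let e := Set.Infinite.natEmbedding _ hinf2
  let t : ℕ → V := fun i => (e i : V)
  have htinj : Function.Injective t := fun i j h => e.injective (Subtype.ext h)
  have htm : ∀ i, t i ∈ A ∧ R ⊆ F (t i) := fun i => (e i).2
  let y : ℕ → V → Bool := fun N v => decide (∃ i, N ≤ i ∧ t i = v)
  have hyK : ∀ N, y N ∈ KS S := by
    intro N G hG
    apply hAS
    intro v hv
    have h1 := hG v (by exact_mod_cast hv)
    simp only [y, decide_eq_true_eq] at h1
    obtain ⟨i, -, rfl⟩ := h1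
    exact (htm i).1
  let x : ℕ → KS S := fun N => ⟨y N, hyK N⟩
  have hxt : Filter.Tendsto x Filter.atTop (nhds Z) := by
    rw [tendsto_subtype_rng, tendsto_pi_nhds]
    intro v
    apply tendsto_const_nhds.congr'
    by_cases hv : ∃ i, t i = v
    · obtain ⟨i, rfl⟩ := hv
      filter_upwards [Filter.eventually_gt_atTop i] with N hN
      simp only [x, y, Z]
      symm
      rw [decide_eq_false_iff_not]
      rintro ⟨j, hj, hjt⟩
      have := htinj hjt
      omega
    · filter_upwards with N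
      simp only [x, y, Z]
      symm
      rw [decide_eq_false_iff_not]
      rintro ⟨j, hj, hjt⟩
      exact hv ⟨j, hjt⟩
  have hc : (0 : ℝ) < 1 / ((n.unpair.1 : ℝ) + 1) := by positivity
  have hev : ∀ᶠ N in Filter.atTop, ∀ γ ∈ R, |ψ (x N) γ| < 1 / ((n.unpair.1 : ℝ) + 1) := by
    rw [Filter.eventually_all_finset]
    intro γ hγ
    have h1 : Filter.Tendsto (fun N => ψ (x N) γ) Filter.atTop (nhds (ψ Z γ)) :=
      ((hψc γ).tendsto Z).comp hxt
    have h2 : ψ Z γ = 0 := sub_self _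
    rw [h2] at h1
    have h3 := h1.eventually (Metric.ball_mem_nhds (0 : ℝ) hc)
    filter_upwards [h3] with N hN
    rwa [dist_zero_right, Real.norm_eq_abs] at hN
  obtain ⟨N, hN⟩ := hev.exists
  have hG : {γ | 1 / ((n.unpair.1 : ℝ) + 1) < |ψ (x N) γ|}.Finite := hψfin _ _ hc
  have hU : (⋃ γ ∈ {γ | 1 / ((n.unpair.1 : ℝ) + 1) < |ψ (x N) γ|},
      {t | (t ∈ A ∧ R ⊆ F t) ∧ γ ∈ F t ∧ γ ∉ R}).Finite := by
    refine hG.biUnion ?_
    intro γ _
    by_cases hγ : γ ∈ R
    · refine Set.finite_empty.subset ?_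
      intro v hv
      exact hv.2.2 hγ
    · refine (hmax γ hγ).subset ?_
      intro v hv
      exact ⟨hv.1, hv.2.1⟩
  have hsub : t '' {i | N ≤ i} ⊆ ⋃ γ ∈ {γ | 1 / ((n.unpair.1 : ℝ) + 1) < |ψ (x N) γ|},
      {t | (t ∈ A ∧ R ⊆ F t) ∧ γ ∈ F t ∧ γ ∉ R} := by
    rintro _ ⟨i, hi, rfl⟩
    have h1 : (x N).1 (t i) = true := by
      simp only [x, y, decide_eq_true_eq]
      exact ⟨i, hi, rfl⟩
    obtain ⟨γ, hγF, hγ⟩ := hFm (t i) (x N) h1
    rw [hm0 _ (htm i).1] at hγ
    have hγR : γ ∉ R := fun h => absurd (lt_trans hγ (hN γ h)) (lt_irrefl _)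
    exact mem_iUnion₂.2 ⟨γ, hγ, htm i, hγF, hγR⟩
  have hfin := hU.subset hsub
  have hinf3 : (t '' {i | N ≤ i}).Infinite :=
    (Set.infinite_image_iff htinj.injOn).2 (Set.Ici_infinite N)
  exact hinf3 hfin

end Pool.Agent.Helper19.QR
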