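import Pool.Agent.Helper19.QR.CliqThin
import Pool.Agent.Helper19.QR.CliqLoc

/-!
# The question implies clique reflection
-/

set_option autoImplicit false

open Set Cardinal

namespace Pool.Agent.Helper19.QR

open Pool.Agent.Helper93.EC (EmbedsC0)

theorem cr_of_q1 (h : Q1) : CR := by
  intro V S hS hloc
  by_cases h0 : ∅ ∈ S
  · have hc : CompactSpace (KS S) := isCompact_iff_compactSpace.1 (isClosed_KS S).isCompact
    exact thin_of_embeds S hS h0 (h (KS S) fun A hA => embeds_local S hS h0 hloc A hA)
  · refine ⟨fun _ => 0, fun n A _ _ hA => ?_⟩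
    exact absurd (hA ∅ (by simp)) h0

end Pool.Agent.Helper19.QR
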