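import Pool.Agent.Helper19.QR.Core

/-!
# Block QR-CL: closed sets

Elementary properties of `Clo` and `cl` (all `e` in `Clo` are nonempty, so that the empty set is
closed). The cardinality bound: `cl Φ A` is contained in the union of `A = A_0, A_1, ...`, where
`A_{n+1}` is `A_n` together with all `Φ e`, `e` a nonempty finite subset of `A_n`; for infinite
`A_n` there are at most `#A_n` finite subsets. (`exists_countable_closed` in
`Helper93/EC/Measure.lean` is the same construction for countable sets.)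
-/

set_option autoImplicit false

open Set Cardinal

namespace Pool.Agent.Helper19.QR

variable {Ω : Type} {Φ : Finset Ω → Set Ω}

theorem subset_cl (A : Set Ω) : A ⊆ cl Φ A := by
  intro x hx N hN
  exact hN.1 hx

theorem clo_cl (A : Set Ω) : Clo Φ (cl Φ A) := by
  intro e he heA x hx N hN
  refine hN.2 e he (fun y hy => ?_) hx
  exact heA hy N hN

theorem cl_min {A N : Set Ω} (h : A ⊆ N) (hN : Clo Φ N) : cl Φ A ⊆ N := by
  intro x hx
  exact hx N ⟨h, hN⟩

theorem cl_mono {A B : Set Ω} (h : A ⊆ B) : cl Φ A ⊆ cl Φ B := by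
  exact cl_min (h.trans (subset_cl B)) (clo_cl B)

theorem cl_empty : cl Φ ∅ = ∅ := by
  refine subset_antisymm ?_ (empty_subset _)
  refine cl_min (subset_refl _) ?_
  intro e he hs
  obtain ⟨x, hx⟩ := he
  exact absurd (hs hx) (by simp)

/-- Directed unions of closed sets are closed. -/
theorem clo_iUnion {ι : Type} {M : ι → Set Ω} (hd : Directed (· ⊆ ·) M)
    (hM : ∀ i, Clo Φ (M i)) : Clo Φ (⋃ i, M i) := by
  intro e he hs
  obtain ⟨x, hx⟩ := he
  have hx' := hs hx
  rw [mem_iUnion] at hx'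
  obtain ⟨i0, hi0⟩ := hx'
  have : Nonempty ι := ⟨i0⟩
  obtain ⟨i, hi⟩ := hd.exists_mem_subset_of_finset_subset_biUnion hs
  exact (hM i e ⟨x, hx⟩ hi).trans (subset_iUnion M i)

/-- Unions of a subfamily of a monotone family, indexed by a linear order, are closed. -/
theorem clo_biUnion {ι : Type} [LinearOrder ι] {M : ι → Set Ω} (hm : Monotone M)
    (hM : ∀ i, Clo Φ (M i)) (J : Set ι) : Clo Φ (⋃ i ∈ J, M i) := by
  intro e he hs
  obtain ⟨x, hx⟩ := he
  have hx' := hs hx
  simp only [mem_iUnion] at hx'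
  obtain ⟨i0, hi0, _⟩ := hx'
  have hdir : DirectedOn (fun i j => M i ⊆ M j) J := by
    intro i hi j hj
    rcases le_total i j with hij | hij
    · exact ⟨j, hj, hm hij, subset_refl _⟩
    · exact ⟨i, hi, subset_refl _, hm hij⟩
  obtain ⟨i, hi, hi'⟩ := hdir.exists_mem_subset_of_finset_subset_biUnion ⟨i0, hi0⟩ hs
  intro y hy
  have := hM i e ⟨x, hx⟩ hi' hy
  simp only [mem_iUnion]
  exact ⟨i, hi, this⟩

theorem clo_inter {N N' : Set Ω} (h : Clo Φ N) (h' : Clo Φ N') : Clo Φ (N ∩ N') := by
  intro e he hs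
  exact subset_inter (h e he (hs.trans inter_subset_left)) (h' e he (hs.trans inter_subset_right))

theorem clo_mono {Ψ : Finset Ω → Set Ω} (h : ∀ e, Φ e ⊆ Ψ e) {N : Set Ω} (hN : Clo Ψ N) :
    Clo Φ N := by
  intro e he hs
  exact (h e).trans (hN e he hs)

open Classical in
/-- one step of the closure -/
private def step26 (Φ : Finset Ω → Set Ω) (B : Set Ω) : Set Ω :=
  B ∪ ⋃ l : List B, Φ (l.map Subtype.val).toFinset

private theorem mk_step26 (hΦ : CV Φ) {B : Set Ω} {κ : Cardinal.{0}} (hκ : ℵ₀ ≤ κ)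
    (hB : #B ≤ κ) : #(step26 Φ B) ≤ κ := by
  classical
  refine (mk_union_le _ _).trans ?_
  refine add_le_of_le hκ hB ?_
  refine (mk_iUnion_le _).trans ?_
  refine mul_le_of_le hκ ?_ ?_
  · exact (mk_list_le_max _).trans (max_le hκ hB)
  · refine ciSup_le' fun l => ?_
    exact (le_aleph0_iff_set_countable.2 (hΦ _)).trans hκ

theorem mk_cl_le (hΦ : CV Φ) (A : Set Ω) : #(cl Φ A) ≤ max #A ℵ₀ := by
  classical
  set κ : Cardinal.{0} := max #A ℵ₀ with hκ
  have hκ0 : ℵ₀ ≤ κ := le_max_right _ _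
  let B : ℕ → Set Ω := fun n => Nat.rec A (fun _ C => step26 Φ C) n
  have hB0 : B 0 = A := rfl
  have hBs : ∀ n, B (n + 1) = step26 Φ (B n) := fun n => rfl
  have hcard : ∀ n : ℕ, #(↥(B n)) ≤ κ := by
    intro n
    induction n with
    | zero => exact le_max_left _ _
    | succ n ih =>
      rw [hBs]
      exact mk_step26 hΦ hκ0 ih
  have hmono : Monotone B := monotone_nat_of_le_succ fun n => by
    rw [hBs]
    exact subset_union_left
  have hclo : Clo Φ (⋃ n, B n) := by
    intro e he hs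
    obtain ⟨n, hn⟩ := hmono.directed_le.exists_mem_subset_of_finset_subset_biUnion hs
    refine subset_trans ?_ (subset_iUnion B (n + 1))
    rw [hBs]
    refine subset_trans ?_ subset_union_right
    intro y hy
    rw [mem_iUnion]
    refine ⟨e.toList.attach.map (fun a => ⟨a.1, hn (by
      have := a.2
      rwa [Finset.mem_toList] at this)⟩), ?_⟩
    convert hy using 2
    ext z
    simp
  have hsub : cl Φ A ⊆ ⋃ n, B n := cl_min (subset_iUnion B 0) hclo
  refine (mk_le_mk_of_subset hsub).trans ?_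
  refine (mk_iUnion_le _).trans ?_
  refine mul_le_of_le hκ0 ?_ ?_
  · rw [mk_nat]
    exact hκ0
  · exact ciSup_le' hcard

theorem countable_cl (hΦ : CV Φ) {A : Set Ω} (hA : A.Countable) : (cl Φ A).Countable := by
  rw [← le_aleph0_iff_set_countable]
  refine (mk_cl_le hΦ A).trans ?_
  exact max_le (le_aleph0_iff_set_countable.2 hA) le_rfl

end Pool.Agent.Helper19.QR
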