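import Pool.Agent.Helper93.EC.Measure

/-!
# Clique reflection and compact spaces with Eberlein small closures: definitions

* `Clo Φ N`: the set `N` is closed under the operation `Φ` (finite sets to sets); the empty set is
  always closed. `CV Φ`: the values of `Φ` are countable. `cl Φ A`: the least closed set
  containing `A`.
* `Thin S W`: the set `W` of vertices is a countable union of sets without infinite cliques of the
  simplicial complex `S`; `CR`: clique reflection at the continuum.
* `pts`, `Eqv`, `RG`, `PP`, `Ret`: notions for sets `N` of points and continuous functions of a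
  compact space `X` (`N : Set (X ⊕ C(X, ℝ))`).
-/

set_option autoImplicit false

open Set Cardinal

namespace Pool.Agent.Helper19.QR

open Pool.Agent.Helper93.EC (EmbedsC0)

/-- `N` is closed under `Φ` (the empty set is always closed). -/
def Clo {Ω : Type} (Φ : Finset Ω → Set Ω) (N : Set Ω) : Prop :=
  ∀ e : Finset Ω, e.Nonempty → (↑e : Set Ω) ⊆ N → Φ e ⊆ N

/-- All values of `Φ` are countable. -/
def CV {Ω : Type} (Φ : Finset Ω → Set Ω) : Prop := ∀ e, (Φ e).Countable

/-- The least closed set containing `A`. -/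
def cl {Ω : Type} (Φ : Finset Ω → Set Ω) (A : Set Ω) : Set Ω := ⋂₀ {N | A ⊆ N ∧ Clo Φ N}

/-- `W` is a countable union of sets without infinite cliques of the complex `S`. -/
def Thin {V : Type} (S : Set (Finset V)) (W : Set V) : Prop :=
  ∃ f : V → ℕ, ∀ (n : ℕ) (A : Set V), A ⊆ W → (∀ v ∈ A, f v = n) →
    (∀ F : Finset V, (↑F : Set V) ⊆ A → F ∈ S) → A.Finite

/-- Clique reflection at the continuum: if every set of at most continuum many vertices of a
simplicial complex is a countable union of sets without infinite cliques, then so is the set of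
all vertices. -/
def CR : Prop := ∀ (V : Type) (S : Set (Finset V)), (∀ F ∈ S, ∀ G ⊆ F, G ∈ S) →
  (∀ W : Set V, #W ≤ 𝔠 → Thin S W) → Thin S univ

/-- The question of the problem file. -/
def Q1 : Prop := ∀ (X : Type) [TopologicalSpace X] [CompactSpace X] [T2Space X],
  (∀ A : Set X, #A ≤ 𝔠 → EmbedsC0 (closure A)) → EmbedsC0 X

/-- Injective choice avoiding arbitrary given finite sets. -/
def SFree {I B : Type} (a : I → Set B) (J : Set I) : Prop :=
  ∀ s : I → Finset B, ∃ h : I → B, (∀ i ∈ J, h i ∈ a i ∧ h i ∉ s i) ∧ InjOn h J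

/-- The nonempty finite initial segments of a sequence. -/
def pre {Ω : Type} (c : ℕ → Ω) : Set (List Ω) := range fun n : ℕ => (List.range (n + 1)).map c

section Space

variable {X : Type} [TopologicalSpace X]

/-- The points in a set of points and functions. -/
def pts (N : Set (X ⊕ C(X, ℝ))) : Set X := {x | Sum.inl x ∈ N}

/-- `p` and `q` are not separated by the functions in `N`. -/
def Eqv (N : Set (X ⊕ C(X, ℝ))) (p q : X) : Prop := ∀ f : C(X, ℝ), Sum.inr f ∈ N → f p = f q

/-- The functions in `N` separate the points of the closure of the points of `N` as well as the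
functions in `U` do. -/
def RG (N U : Set (X ⊕ C(X, ℝ))) : Prop :=
  ∀ p ∈ closure (pts N), ∀ q ∈ closure (pts N), Eqv N p q → Eqv U p q

/-- There is an operation all of whose closed subsets of `U` are good in `U`. -/
def PP (U : Set (X ⊕ C(X, ℝ))) : Prop :=
  ∃ Φ : Finset (X ⊕ C(X, ℝ)) → Set (X ⊕ C(X, ℝ)), CV Φ ∧
    ∀ N ⊆ U, Clo (fun e => Φ e ∩ U) N → RG N U

/-- Every point of `X` is equivalent to a point in the closure of the points of `N`. -/
def Ret (N : Set (X ⊕ C(X, ℝ))) : Prop := ∀ x : X, ∃ y ∈ closure (pts N), Eqv N x y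

/-- Countable tightness. -/
def Tight (X : Type) [TopologicalSpace X] : Prop :=
  ∀ (B : Set X) (x : X), x ∈ closure B → ∃ D ⊆ B, D.Countable ∧ x ∈ closure D

end Space

/-! ### The tree of countable chains -/

section Tree

variable {Ω : Type}

/-- Countable continuous well-ordered chains of members of `S` with a largest element; `w M` is an
element outside `M` which belongs to the later members of the chain. -/
structure IsNode (S : Set (Set Ω)) (w : Set Ω → Ω) (C : Set (Set Ω)) : Prop where
  sub : C ⊆ S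
  count : C.Countable
  chain : ∀ M ∈ C, ∀ M' ∈ C, M = M' ∨ insert (w M) M ⊆ M' ∨ insert (w M') M' ⊆ M
  wf : ∀ D ⊆ C, D.Nonempty → ∃ M ∈ D, ∀ M' ∈ D, M ⊆ M'
  cont : ∀ M ∈ C, (∀ M' ∈ C, ¬ M' ⊂ M) ∨ (∃ M' ∈ C, M' ⊂ M ∧ ∀ M'' ∈ C, M'' ⊂ M → M'' ⊆ M') ∨
    (∀ x ∈ M, ∃ M' ∈ C, M' ⊂ M ∧ x ∈ M')
  top : ∃ T ∈ C, ∀ M ∈ C, M ⊆ T

/-- `D` is an initial segment of `C`. -/
def Init (D C : Set (Set Ω)) : Prop := D ⊆ C ∧ ∀ M ∈ C, ∀ M' ∈ D, M ⊆ M' → M ∈ D

end Tree

end Pool.Agent.Helper19.QR
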