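import Pool.Agent.Helper19.QR.Core
import Pool.Agent.Helper93.EC.Main

/-!
# Block QR-ET: an embedding from decompositions

`g γ : X → ℝ` continuous, separating points; for every `m` a function `f m : Γ → ℕ` such that
`{γ | f m γ = n ∧ 1/(m+1) ≤ |g γ x|}` is finite for all `n`, `x`. Then `X` embeds in `c₀(Γ × ℕ)`.

Proof. Let `G γ x = g γ x / (1 + |g γ x|)`, so `|G γ x| ≤ 1`, `|G γ x| ≤ |g γ x|`, and `G γ x` determines
`g γ x`. Let `t m s = s - max (-1/(m+1)) (min s (1/(m+1)))`; continuous in `s`, zero if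
`|s| ≤ 1/(m+1)`, `|t m s| ≤ |s|`, and `t m s → s` as `m → ∞` (`|t m s - s| ≤ 1/(m+1)`). Let
`F x (γ, m) = (1/2)^(m + f m γ) * t m (G γ x)`. `F` is continuous, bounded by `1`, injective
(equal values for all `m` give `G γ x = G γ y`). For `δ > 0` choose `k` with `(1/2)^k < δ`; if
`δ ≤ |F x (γ, m)|` then `m + f m γ < k`, and `1/(m+1) < |G γ x| ≤ |g γ x|`: finitely many
`(γ, m)`. Use `tendsto_cofinite_zero_iff` (`Helper93/EC/Main.lean`; it may be imported).
-/

set_option autoImplicit false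

open Set Cardinal Filter

namespace Pool.Agent.Helper19.QR

open Pool.Agent.Helper93.EC (EmbedsC0)

/-- a bounded copy of the real line -/
private noncomputable def phi27 (s : ℝ) : ℝ := s / (1 + |s|)

private theorem phi27_pos (s : ℝ) : 0 < 1 + |s| := by positivity

private theorem phi27_le_one (s : ℝ) : |phi27 s| ≤ 1 := by
  unfold phi27
  rw [abs_div, abs_of_pos (phi27_pos s), div_le_one (phi27_pos s)]
  linarith

private theorem phi27_le (s : ℝ) : |phi27 s| ≤ |s| := by
  unfold phi27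
  rw [abs_div, abs_of_pos (phi27_pos s)]
  exact div_le_self (abs_nonneg s) (by linarith [abs_nonneg s])

private theorem phi27_inj {s r : ℝ} (h : phi27 s = phi27 r) : s = r := by
  have hs := phi27_pos s
  have hr := phi27_pos r
  have h1 : |phi27 s| = |phi27 r| := by rw [h]
  unfold phi27 at h h1
  rw [abs_div, abs_div, abs_of_pos hs, abs_of_pos hr, div_eq_div_iff hs.ne' hr.ne'] at h1
  have h2 : |s| = |r| := by nlinarith
  rw [h2, div_left_inj' hr.ne'] at h
  exact h

private theorem phi27_cont : Continuous phi27 := by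
  unfold phi27
  exact continuous_id.div (continuous_const.add continuous_abs) (fun s => (phi27_pos s).ne')

/-- truncation near zero -/
private noncomputable def trunc27 (m : ℕ) (s : ℝ) : ℝ :=
  s - max (-(1 / ((m : ℝ) + 1))) (min s (1 / ((m : ℝ) + 1)))

private theorem trunc27_cont (m : ℕ) : Continuous (trunc27 m) := by
  unfold trunc27
  exact continuous_id.sub (continuous_const.max (continuous_id.min continuous_const))

private theorem trunc27_zero {m : ℕ} {s : ℝ} (h : |s| ≤ 1 / ((m : ℝ) + 1)) : trunc27 m s = 0 := by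
  obtain ⟨h1, h2⟩ := abs_le.1 h
  unfold trunc27
  rw [min_eq_left h2, max_eq_right h1, sub_self]

private theorem trunc27_le (m : ℕ) (s : ℝ) : |trunc27 m s| ≤ |s| := by
  have hp : (0 : ℝ) < 1 / ((m : ℝ) + 1) := by positivity
  unfold trunc27
  generalize 1 / ((m : ℝ) + 1) = ε at hp
  rcases le_total s ε with h1 | h1
  · rw [min_eq_left h1]
    rcases le_total (-ε) s with h2 | h2
    · rw [max_eq_right h2, sub_self, abs_zero]
      exact abs_nonneg s
    · rw [max_eq_left h2, abs_of_nonpos (by linarith), abs_of_nonpos (by linarith)]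
      linarith
  · rw [min_eq_right h1, max_eq_right (by linarith), abs_of_nonneg (by linarith),
      abs_of_nonneg (by linarith)]
    linarith

private theorem trunc27_near (m : ℕ) (s : ℝ) : |trunc27 m s - s| ≤ 1 / ((m : ℝ) + 1) := by
  have hp : (0 : ℝ) < 1 / ((m : ℝ) + 1) := by positivity
  unfold trunc27
  generalize 1 / ((m : ℝ) + 1) = ε at hp
  have h1 : s - max (-ε) (min s ε) - s = -max (-ε) (min s ε) := by ring
  rw [h1, abs_neg, abs_le]
  exact ⟨le_max_left _ _, max_le (by linarith) (min_le_right _ _)⟩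

theorem embeds_of_decomp {X : Type} [TopologicalSpace X] {Γ : Type} (g : Γ → X → ℝ)
    (hg : ∀ γ, Continuous (g γ)) (hsep : ∀ x y, (∀ γ, g γ x = g γ y) → x = y)
    (f : ℕ → Γ → ℕ)
    (hf : ∀ (m n : ℕ) (x : X), {γ | f m γ = n ∧ 1 / ((m : ℝ) + 1) ≤ |g γ x|}.Finite) :
    EmbedsC0 X := by
  have hF : ∀ (x : X) (p : Γ × ℕ),
      |(1 / 2 : ℝ) ^ (p.2 + f p.2 p.1) * trunc27 p.2 (phi27 (g p.1 x))| ≤
        (1 / 2 : ℝ) ^ (p.2 + f p.2 p.1) := by
    intro x p
    rw [abs_mul, abs_of_nonneg (by positivity : (0 : ℝ) ≤ (1 / 2 : ℝ) ^ (p.2 + f p.2 p.1))]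
    exact mul_le_of_le_one_right (by positivity) ((trunc27_le _ _).trans (phi27_le_one _))
  refine ⟨Γ × ℕ, fun x p => (1 / 2 : ℝ) ^ (p.2 + f p.2 p.1) * trunc27 p.2 (phi27 (g p.1 x)),
    ?_, ?_, ?_, 1, ?_⟩
  · refine continuous_pi fun p => ?_
    exact continuous_const.mul ((trunc27_cont p.2).comp (phi27_cont.comp (hg p.1)))
  · intro x y hxy
    refine hsep x y fun γ => phi27_inj ?_
    have h1 : ∀ m : ℕ, trunc27 m (phi27 (g γ x)) = trunc27 m (phi27 (g γ y)) := by
      intro m
      have h2 := congrFun hxy (γ, m)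
      exact mul_left_cancel₀ (by positivity : (1 / 2 : ℝ) ^ (m + f m γ) ≠ 0) h2
    by_contra hne
    have h3 : 0 < |phi27 (g γ x) - phi27 (g γ y)| / 2 := by
      have := abs_pos.2 (sub_ne_zero.2 hne)
      linarith
    obtain ⟨m, hm⟩ := exists_nat_one_div_lt h3
    have h4 := trunc27_near m (phi27 (g γ x))
    have h5 := trunc27_near m (phi27 (g γ y))
    rw [h1 m] at h4
    have h6 : |phi27 (g γ x) - phi27 (g γ y)| ≤
        |trunc27 m (phi27 (g γ y)) - phi27 (g γ x)| +
          |trunc27 m (phi27 (g γ y)) - phi27 (g γ y)| := by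
      have h7 : phi27 (g γ x) - phi27 (g γ y) =
          (trunc27 m (phi27 (g γ y)) - phi27 (g γ y)) -
            (trunc27 m (phi27 (g γ y)) - phi27 (g γ x)) := by ring
      rw [h7]
      refine (abs_sub _ _).trans ?_
      rw [add_comm]
    linarith
  · intro x
    rw [Helper93.EC.tendsto_cofinite_zero_iff]
    intro δ hδ
    obtain ⟨k, hk⟩ := exists_pow_lt_of_lt_one hδ (by norm_num : (1 / 2 : ℝ) < 1)
    have hfin : (⋃ m ∈ Finset.range k, ⋃ n ∈ Finset.range k,
        {γ | f m γ = n ∧ 1 / ((m : ℝ) + 1) ≤ |g γ x|} ×ˢ ({m} : Set ℕ)).Finite := by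
      refine Set.Finite.biUnion (Finset.finite_toSet _) fun m _ => ?_
      refine Set.Finite.biUnion (Finset.finite_toSet _) fun n _ => ?_
      exact (hf m n x).prod (Set.finite_singleton m)
    refine hfin.subset ?_
    rintro ⟨γ, m⟩ hp
    have hp' : δ ≤ |(1 / 2 : ℝ) ^ (m + f m γ) * trunc27 m (phi27 (g γ x))| := hp
    have h1 : (1 / 2 : ℝ) ^ k < (1 / 2 : ℝ) ^ (m + f m γ) :=
      hk.trans_le (hp'.trans (hF x (γ, m)))
    have h2 : m + f m γ < k := by
      by_contra hcon
      exact absurd h1 (not_lt.2 (pow_le_pow_of_le_one (by norm_num) (by norm_num) (not_lt.1 hcon)))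
    have h3 : 1 / ((m : ℝ) + 1) ≤ |g γ x| := by
      by_contra hcon
      have h4 : trunc27 m (phi27 (g γ x)) = 0 :=
        trunc27_zero ((phi27_le _).trans (not_le.1 hcon).le)
      rw [h4, mul_zero, abs_zero] at hp'
      linarith
    simp only [Set.mem_iUnion, Finset.mem_range, Set.mem_prod, Set.mem_singleton_iff]
    exact ⟨m, by omega, f m γ, by omega, ⟨rfl, h3⟩, rfl⟩
  · intro x p
    exact (hF x p).trans (pow_le_one₀ (by norm_num) (by norm_num))

end Pool.Agent.Helper19.QR
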