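import Pool.Agent.Helper19.QR.Farmaki
import Pool.Agent.Helper19.QR.Thin2

/-!
# Block QR-CO2: clique reflection and Corson compact spaces

`X` compact with functions `g γ : C(X, ℝ)`, separating points, with countable supports, whose closures of
sets of size `≤ 𝔠` embed in `c₀`. Under clique reflection `X` embeds in `c₀`.

Proof. For each `m : ℕ` let `S` be the complex of all finite `F ⊆ Γ` such that there is `x : X` with
`1/(m+1) ≤ |g γ x|` for all `γ ∈ F`. Local hypothesis: let `#W ≤ 𝔠`. For every `F ∈ S`, `F ⊆ W`, choose such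
a point `x_F`; let `A` be the set of these points, `#A ≤ 𝔠` (a set of size `≤ 𝔠` has at most `𝔠` finite
subsets). `Y = closure A` embeds in `c₀`; by `farmaki` there is `f : Γ → ℕ` such that
`{γ | f γ = n ∧ 1/(m+1) ≤ |g γ y|}` is finite for all `y ∈ Y`. This `f` shows `Thin S W`: if `B ⊆ W`,
`f = n` on `B` and all finite subsets of `B` are in `S`, then by compactness of `Y` (directed family of the
nonempty closed sets `{y ∈ Y | 1/(m+1) ≤ |g γ y| for γ ∈ F}`, `F ⊆ B` finite, containing `x_F`) there is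
`y ∈ Y` with `1/(m+1) ≤ |g γ y|` for all `γ ∈ B`; so `B` is finite.

By `CR` there is `f m` with the same property for `W = univ`; for `x : X` all finite subsets of
`{γ | f m γ = n ∧ 1/(m+1) ≤ |g γ x|}` are in `S`, so this set is finite. `embeds_of_decomp`.
-/

set_option autoImplicit false

open Set Cardinal

namespace Pool.Agent.Helper19.QR

open Pool.Agent.Helper93.EC (EmbedsC0)

/-- The local hypothesis of clique reflection. -/
private theorem thin_loc_helper30 {X : Type} [TopologicalSpace X] [CompactSpace X] [T2Space X]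
    (hX : ∀ A : Set X, #A ≤ 𝔠 → EmbedsC0 (closure A)) {Γ : Type} (g : Γ → C(X, ℝ))
    (hc : ∀ x, {γ | g γ x ≠ 0}.Countable) (m : ℕ) (W : Set Γ) (hW : #W ≤ 𝔠) :
    Thin {F : Finset Γ | ∃ x : X, ∀ γ ∈ F, 1 / ((m : ℝ) + 1) ≤ |g γ x|} W := by
  classical
  set S : Set (Finset Γ) := {F : Finset Γ | ∃ x : X, ∀ γ ∈ F, 1 / ((m : ℝ) + 1) ≤ |g γ x|}
    with hS
  have hε : (0 : ℝ) < 1 / ((m : ℝ) + 1) := by positivity
  choose pt hpt using fun F : {F : Finset Γ // F ∈ S} => F.2
  set A : Set X := range (fun l : {l : List W // (l.map Subtype.val).toFinset ∈ S} =>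
    pt ⟨_, l.2⟩) with hA
  have hcard : #A ≤ 𝔠 := by
    refine le_trans mk_range_le (le_trans (mk_subtype_le _) ?_)
    refine le_trans (mk_list_le_max _) (max_le aleph0_le_continuum hW)
  have hcpt : CompactSpace (closure A) := isCompact_iff_compactSpace.mp isClosed_closure.isCompact
  obtain ⟨f, hf⟩ := farmaki (hX A hcard) (fun γ (y : closure A) => g γ y)
    (fun γ => (g γ).continuous.comp continuous_subtype_val) (fun y => hc y) hε
  refine ⟨f, fun n B hBW hBn hB => ?_⟩
  have hne : (⋂ γ : B, {y : closure A | 1 / ((m : ℝ) + 1) ≤ |g γ y|}).Nonempty := by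
    refine CompactSpace.iInter_nonempty (fun γ => ?_) (fun s => ?_)
    · exact isClosed_le continuous_const
        (((g γ).continuous.comp continuous_subtype_val).abs)
    · have hl : ∃ l : List W, (l.map Subtype.val).toFinset = s.image Subtype.val := by
        refine ⟨s.toList.map (fun γ => ⟨γ.1, hBW γ.2⟩), ?_⟩
        ext γ
        simp
      obtain ⟨l, hl⟩ := hl
      have hmem : (l.map Subtype.val).toFinset ∈ S := by
        refine hB _ ?_
        rw [hl]
        intro γ hγ
        simp only [Finset.coe_image, Set.mem_image] at hγ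
        obtain ⟨γ', -, rfl⟩ := hγ
        exact γ'.2
      refine ⟨⟨pt ⟨_, hmem⟩, subset_closure ⟨⟨l, hmem⟩, rfl⟩⟩, ?_⟩
      simp only [Set.mem_iInter, Set.mem_ofPred_eq]
      intro γ hγ
      refine hpt ⟨_, hmem⟩ γ.1 ?_
      simp only [hl]
      exact Finset.mem_image_of_mem _ hγ
  obtain ⟨y, hy⟩ := hne
  refine (hf y n).subset fun γ hγ => ⟨hBn γ hγ, ?_⟩
  exact Set.mem_iInter.mp hy ⟨γ, hγ⟩

theorem embeds_of_sigma (h : CR) {X : Type} [TopologicalSpace X] [CompactSpace X] [T2Space X]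
    (hX : ∀ A : Set X, #A ≤ 𝔠 → EmbedsC0 (closure A)) {Γ : Type} (g : Γ → C(X, ℝ))
    (hc : ∀ x, {γ | g γ x ≠ 0}.Countable) (hsep : ∀ x y, (∀ γ, g γ x = g γ y) → x = y) :
    EmbedsC0 X := by
  have key : ∀ m : ℕ, Thin {F : Finset Γ | ∃ x : X, ∀ γ ∈ F, 1 / ((m : ℝ) + 1) ≤ |g γ x|}
      univ := by
    intro m
    refine h Γ _ ?_ (fun W hW => thin_loc_helper30 hX g hc m W hW)
    rintro F ⟨x, hx⟩ G hG
    exact ⟨x, fun γ hγ => hx γ (hG hγ)⟩
  choose f hf using key
  refine embeds_of_decomp (fun γ x => g γ x) (fun γ => (g γ).continuous) hsep f ?_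
  intro m n x
  refine hf m n _ (Set.subset_univ _) (fun γ hγ => hγ.1) ?_
  intro F hF
  exact ⟨x, fun γ hγ => (hF hγ).2⟩

end Pool.Agent.Helper19.QR
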