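import Pool.Agent.Helper19.QR.Few

/-!
# Block QR-RE: enlarging a set to a relatively good one

`U` closed under `Φ₀`, `B ⊆ U`, `#B ≤ κ`, `ℵ₁ ≤ κ`: there is `B'` with `B ⊆ B' ⊆ U`, closed under `Φ₀`,
`RG B' U` and `#B' ≤ κ`.

Proof. For every `A ⊆ U` let `F(A) ⊆ U` be the set given by `few_functions` for `pts A` and `U`,
`#F(A) ≤ max #A ℵ₀`. Let `ι = (ℵ₁).ord.ToType` (or another well-ordered type, uncountable, with countable initial
segments) and define by well-founded recursion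
`B_i = cl Φ₀ (B ∪ ⋃ j < i, (B_j ∪ F(B_j)))`, `i ∈ ι`. By induction `#B_i ≤ κ`, `B_i ⊆ U`; `B_j ⊆ B_i` and
`F(B_j) ⊆ B_i` for `j < i`. Let `B' = ⋃ B_i`; `#B' ≤ κ`, closed (directed union). Let
`p, q ∈ closure (pts B')`, `Eqv B' p q`. By tightness there is a countable `D ⊆ pts B'` with
`p, q ∈ closure D`; `D ⊆ pts B_i` for some `i` (a countable subset of `ι` is bounded). As `F(B_i) ⊆ B'`,
`Eqv (F(B_i)) p q`, so `Eqv U p q`.
-/

set_option autoImplicit false

open Set Cardinal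

namespace Pool.Agent.Helper19.QR

variable {X : Type} [TopologicalSpace X]

theorem enlarge (h : CR) (hpp : ∀ U : Set (X ⊕ C(X, ℝ)), #U ≤ 𝔠 → PP U) (ht : Tight X)
    (Φ₀ : Finset (X ⊕ C(X, ℝ)) → Set (X ⊕ C(X, ℝ))) (hΦ₀ : CV Φ₀)
    (U : Set (X ⊕ C(X, ℝ))) (hU : Clo Φ₀ U) (B : Set (X ⊕ C(X, ℝ))) (hB : B ⊆ U)
    (κ : Cardinal.{0}) (hκ : ℵ₁ ≤ κ) (hBκ : #B ≤ κ) :
    ∃ B' : Set (X ⊕ C(X, ℝ)), B ⊆ B' ∧ B' ⊆ U ∧ Clo Φ₀ B' ∧ RG B' U ∧ #B' ≤ κ := by
  classical
  have hκ0 : ℵ₀ ≤ κ := le_trans (aleph0_le_aleph 1) hκ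
  -- the functions
  have hF : ∀ A : Set (X ⊕ C(X, ℝ)), ∃ F ⊆ U, #F ≤ max #(pts A) ℵ₀ ∧
      ∀ p ∈ closure (pts A), ∀ q ∈ closure (pts A), Eqv F p q → Eqv U p q := fun A =>
    few_functions h hpp ht (pts A) U
  choose F hFU hFc hFs using hF
  have hpts : ∀ A : Set (X ⊕ C(X, ℝ)), #(pts A) ≤ #A := by
    intro A
    refine mk_le_of_injective (f := fun x : pts A => (⟨Sum.inl x.1, x.2⟩ : A)) ?_
    intro x y hxy
    have := congrArg Subtype.val hxy
    exact Subtype.ext (Sum.inl.inj this)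
  -- the recursion
  let ι : Type := (ℵ₁ : Cardinal.{0}).ord.ToType
  have hιc : #ι = ℵ₁ := by
    simp [ι]
  have hIio : ∀ i : ι, #(Iio i) < ℵ₁ := fun i => by
    simpa [ι] using mk_Iio_lt i (by simp [ι])
  let G : (i : ι) → ((j : ι) → j < i → Set (X ⊕ C(X, ℝ))) → Set (X ⊕ C(X, ℝ)) := fun i rec =>
    cl Φ₀ (B ∪ ⋃ (j : ι) (hj : j < i), (rec j hj ∪ F (rec j hj)))
  let Bs : ι → Set (X ⊕ C(X, ℝ)) := WellFounded.fix (wellFounded_lt (α := ι)) G
  have hBs : ∀ i, Bs i = cl Φ₀ (B ∪ ⋃ (j : ι) (_ : j < i), (Bs j ∪ F (Bs j))) := fun i => by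
    show WellFounded.fix (wellFounded_lt (α := ι)) G i = _
    rw [WellFounded.fix_eq]
  have hBsub : ∀ i, B ⊆ Bs i := fun i => by
    rw [hBs i]; exact subset_union_left.trans (subset_cl _)
  have hlt : ∀ i j, j < i → Bs j ∪ F (Bs j) ⊆ Bs i := fun i j hj => by
    rw [hBs i]
    refine Subset.trans ?_ (subset_cl _)
    refine Subset.trans ?_ subset_union_right
    exact subset_iUnion₂_of_subset j hj (Subset.refl _)
  have hU' : ∀ i, Bs i ⊆ U := by
    intro i
    induction i using WellFoundedLT.induction with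
    | ind i ih =>
      rw [hBs i]
      refine cl_min ?_ hU
      refine union_subset hB ?_
      refine iUnion₂_subset fun j hj => union_subset (ih j hj) (hFU _)
  have hcard : ∀ i, #(Bs i) ≤ κ := by
    intro i
    induction i using WellFoundedLT.induction with
    | ind i ih =>
      rw [hBs i]
      refine (mk_cl_le hΦ₀ _).trans (max_le ?_ hκ0)
      refine (mk_union_le _ _).trans ?_
      refine (add_le_add hBκ (?_ : _ ≤ κ)).trans (add_eq_self hκ0).le
      have e : (⋃ (j : ι) (_ : j < i), (Bs j ∪ F (Bs j))) =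
          ⋃ j : Iio i, (Bs j.1 ∪ F (Bs j.1)) := by
        ext x; simp
      rw [e]
      refine (mk_iUnion_le _).trans ?_
      have h1 : #(Iio i) ≤ κ := (hIio i).le.trans hκ
      have h2 : (⨆ j : Iio i, #(Bs j.1 ∪ F (Bs j.1) : Set (X ⊕ C(X, ℝ)))) ≤ κ := by
        refine ciSup_le' fun j => ?_
        refine (mk_union_le _ _).trans ?_
        refine (add_le_add (ih j.1 j.2) ((hFc _).trans (max_le ((hpts _).trans (ih j.1 j.2)) hκ0))).trans
          (add_eq_self hκ0).le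
      exact (mul_le_mul' h1 h2).trans (mul_eq_self hκ0).le
  have hmono : Monotone Bs := by
    intro j i hji
    rcases hji.eq_or_lt with rfl | hlt'
    · exact le_rfl
    · exact subset_union_left.trans (hlt i j hlt')
  have hne : Nonempty ι := by
    rw [← mk_ne_zero_iff, hιc]
    exact (aleph_pos 1).ne'
  obtain ⟨i₀⟩ := hne
  -- countable subsets are bounded
  have hbd : ∀ S : Set ι, S.Countable → ∃ i : ι, ∀ j ∈ S, j < i := by
    intro S hS
    by_contra hcon
    push Not at hcon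
    have hcov : (univ : Set ι) ⊆ ⋃ j ∈ S, Iic j := by
      intro i _
      obtain ⟨j, hj, hij⟩ := hcon i
      exact mem_biUnion hj hij
    have hc : (univ : Set ι).Countable := by
      refine Countable.mono hcov ?_
      refine hS.biUnion fun j _ => ?_
      have : Iic j = insert j (Iio j) := by
        ext x; simp [le_iff_eq_or_lt]
      rw [this]
      refine Countable.insert _ ?_
      rw [← le_aleph0_iff_set_countable, ← Order.lt_succ_iff, succ_aleph0]
      exact hIio j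
    have : #ι ≤ ℵ₀ := by
      rw [← mk_univ]
      exact le_aleph0_iff_set_countable.2 hc
    rw [hιc] at this
    exact absurd this (not_le.2 aleph0_lt_aleph_one)
  refine ⟨⋃ i, Bs i, ?_, ?_, ?_, ?_, ?_⟩
  · exact (hBsub i₀).trans (subset_iUnion _ _)
  · exact iUnion_subset hU'
  · refine clo_iUnion hmono.directed_le fun i => ?_
    rw [hBs i]; exact clo_cl _
  · intro p hp q hq hpq
    obtain ⟨D₁, hD₁, hD₁c, hpD⟩ := ht _ _ hp
    obtain ⟨D₂, hD₂, hD₂c, hqD⟩ := ht _ _ hq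
    have hD : ∀ x ∈ D₁ ∪ D₂, ∃ i, (Sum.inl x : X ⊕ C(X, ℝ)) ∈ Bs i := by
      intro x hx
      have : x ∈ pts (⋃ i, Bs i) := by
        rcases hx with hx | hx
        · exact hD₁ hx
        · exact hD₂ hx
      exact mem_iUnion.1 this
    haveI : Nonempty ι := ⟨i₀⟩
    choose! ix hix using hD
    obtain ⟨i, hi⟩ := hbd (ix '' (D₁ ∪ D₂)) ((hD₁c.union hD₂c).image ix)
    have hsub : D₁ ∪ D₂ ⊆ pts (Bs i) := by
      intro x hx
      exact hmono (hi _ (mem_image_of_mem ix hx)).le (hix x hx)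
    obtain ⟨i', hi'⟩ := hbd {i} (countable_singleton i)
    have hii' : i < i' := hi' i rfl
    have hFsub : F (Bs i) ⊆ ⋃ i, Bs i :=
      (subset_union_right.trans (hlt i' i hii')).trans (subset_iUnion _ _)
    refine hFs (Bs i) p (closure_mono (subset_union_left.trans hsub) hpD) q
      (closure_mono (subset_union_right.trans hsub) hqD) ?_
    intro f hf
    exact hpq f (hFsub hf)
  · refine (mk_iUnion_le _).trans ?_
    have h1 : #ι ≤ κ := hιc.le.trans hκ
    exact (mul_le_mul' h1 (ciSup_le' hcard)).trans (mul_eq_self hκ0).le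

end Pool.Agent.Helper19.QR
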