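import Pool.Agent.Helper19.QR.Clos

/-!
# Block QR-FR: restriction to closed sets of coordinates; a uniform gap

`exists_restrict`: `Y` compact, `k i : Y → ℝ` continuous (`i ∈ I`), every point has countable
support. For a finite `e ⊆ I`, `r : e → ℚ` and `n : ℕ` choose, if it exists, a point `y(e, r, n)`
with `|k i y - r i| < 1/(n+1)` for `i ∈ e`, and let `Φ e` be the union over `r`, `n` of the
supports (countable). Let `N` be nonempty, closed, `y : Y`. For a finite `F ⊆ I` and `n` the closed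
set of all `y'` with `|k i y' - k i y| ≤ 1/(n+1)` for `i ∈ F ∩ N` and `|k i y'| ≤ 1/(n+1)` for
`i ∈ F \ N` is nonempty: take `y(e, r, 2n+1)` with `e = F ∩ N` together with one element of `N`, and
`r i` rational near `k i y`; its support is contained in `N`. By compactness there is a point in
all these sets.

`uniform_gap`: the open sets `{(y, z) | ∃ d, 1/(m+1) < |φ y d - φ z d|}`, `m : ℕ`, increase and
cover the compact set `{(y, z) | ε ≤ |g y - g z|}`, as `φ` is injective.
-/

set_option autoImplicit false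

open Set Cardinal

namespace Pool.Agent.Helper19.QR

/-- the points whose coordinates in `e` are near `r` -/
private def near99 {Y : Type} {I : Type} (k : I → Y → ℝ) (e : Finset I) (r : e → ℚ) (n : ℕ) : Set Y :=
  {y | ∀ i : e, |k i y - r i| < 1 / ((n : ℝ) + 1)}

/-- the support of the chosen point -/
private def supp99 {Y : Type} {I : Type} (k : I → Y → ℝ) (e : Finset I) (r : e → ℚ) (n : ℕ) : Set I :=
  {i | ∃ h : (near99 k e r n).Nonempty, k i h.choose ≠ 0}

private theorem countable99 {Y : Type} {I : Type} (k : I → Y → ℝ) (hc : ∀ y, {i | k i y ≠ 0}.Countable)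
    (e : Finset I) (r : e → ℚ) (n : ℕ) : (supp99 k e r n).Countable := by
  by_cases h : (near99 k e r n).Nonempty
  · refine (hc h.choose).mono ?_
    rintro i ⟨_, hi⟩
    exact hi
  · refine Set.Countable.mono (s₂ := ∅) ?_ countable_empty
    rintro i ⟨h', _⟩
    exact absurd h' h

theorem exists_restrict {Y : Type} [TopologicalSpace Y] [CompactSpace Y] {I : Type}
    (k : I → Y → ℝ) (hk : ∀ i, Continuous (k i)) (hc : ∀ y, {i | k i y ≠ 0}.Countable) :
    ∃ Φ : Finset I → Set I, CV Φ ∧ ∀ N : Set I, N.Nonempty → Clo Φ N → ∀ y, ∃ y',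
      ∀ i, (i ∈ N → k i y' = k i y) ∧ (i ∉ N → k i y' = 0) := by
  classical
  refine ⟨fun e => ⋃ (r : e → ℚ) (n : ℕ), supp99 k e r n, fun e => ?_, fun N hN hcl y => ?_⟩
  · exact countable_iUnion fun r => countable_iUnion fun n => countable99 k hc e r n
  obtain ⟨a, ha⟩ := hN
  let C : Finset I × ℕ → Set Y := fun q =>
    {y' | (∀ i ∈ q.1, i ∈ N → |k i y' - k i y| ≤ 1 / ((q.2 : ℝ) + 1)) ∧ ∀ i, i ∉ N → k i y' = 0}
  have hcC : ∀ q, IsClosed (C q) := by
    intro q
    have : C q = (⋂ i ∈ q.1, ⋂ _ : i ∈ N, {y' | |k i y' - k i y| ≤ 1 / ((q.2 : ℝ) + 1)}) ∩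
        ⋂ i, ⋂ _ : i ∉ N, {y' | k i y' = 0} := by
      ext y'
      simp [C]
    rw [this]
    refine IsClosed.inter ?_ ?_
    · exact isClosed_iInter fun i => isClosed_iInter fun _ => isClosed_iInter fun _ =>
        isClosed_le (((hk i).sub continuous_const).abs) continuous_const
    · exact isClosed_iInter fun i => isClosed_iInter fun _ => isClosed_eq (hk i) continuous_const
  have hdC : Directed (· ⊇ ·) C := by
    intro q q'
    refine ⟨(q.1 ∪ q'.1, max q.2 q'.2), ?_, ?_⟩
    · rintro y' ⟨h1, h2⟩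
      refine ⟨fun i hi hiN => (h1 i (Finset.mem_union_left _ hi) hiN).trans ?_, h2⟩
      have : (q.2 : ℝ) ≤ ((max q.2 q'.2 : ℕ) : ℝ) := by exact_mod_cast le_max_left _ _
      exact one_div_le_one_div_of_le (by positivity) (by simp)
    · rintro y' ⟨h1, h2⟩
      refine ⟨fun i hi hiN => (h1 i (Finset.mem_union_right _ hi) hiN).trans ?_, h2⟩
      have : (q'.2 : ℝ) ≤ ((max q.2 q'.2 : ℕ) : ℝ) := by exact_mod_cast le_max_right _ _
      exact one_div_le_one_div_of_le (by positivity) (by simp)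
  have hnC : ∀ q, (C q).Nonempty := by
    rintro ⟨F, n⟩
    let e : Finset I := insert a (F.filter (· ∈ N))
    have heN : (e : Set I) ⊆ N := by
      intro i hi
      simp only [e, Finset.coe_insert, Set.mem_insert_iff, Finset.mem_coe, Finset.mem_filter] at hi
      rcases hi with rfl | hi
      · exact ha
      · exact hi.2
    have hpos : (0 : ℝ) < 1 / (((2 * n + 1 : ℕ) : ℝ) + 1) := by positivity
    have hr : ∀ i : e, ∃ s : ℚ, |k i y - s| < 1 / (((2 * n + 1 : ℕ) : ℝ) + 1) := by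
      intro i
      obtain ⟨s, hs1, hs2⟩ := exists_rat_btwn (lt_add_of_pos_right (k i y) hpos)
      refine ⟨s, ?_⟩
      rw [abs_lt]
      constructor <;> linarith
    choose r hr using hr
    have hne : (near99 k e r (2 * n + 1)).Nonempty := ⟨y, hr⟩
    have h1 := hne.choose_spec
    have h2 : supp99 k e r (2 * n + 1) ⊆ N := by
      refine Subset.trans ?_ (hcl e ⟨a, by simp [e]⟩ heN)
      exact fun i hi => mem_iUnion.2 ⟨r, mem_iUnion.2 ⟨_, hi⟩⟩
    refine ⟨hne.choose, fun i hi hiN => ?_, fun i hi => ?_⟩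
    · have hie : i ∈ e := by simp [e, hi, hiN]
      have h3 := h1 ⟨i, hie⟩
      have h4 := hr ⟨i, hie⟩
      have h5 : (1 : ℝ) / (((2 * n + 1 : ℕ) : ℝ) + 1) = 1 / ((n : ℝ) + 1) / 2 := by
        push_cast
        field_simp
        ring
      rw [h5] at h3 h4
      rw [abs_lt] at h3 h4
      change |k i hne.choose - k i y| ≤ 1 / ((n : ℝ) + 1)
      rw [abs_le]
      constructor <;> linarith [h3.1, h3.2, h4.1, h4.2]
    · by_contra h
      exact hi (h2 ⟨hne, h⟩)
  obtain ⟨y', hy'⟩ := IsCompact.nonempty_iInter_of_directed_nonempty_isCompact_isClosed C hdC hnC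
    (fun q => (hcC q).isCompact) hcC
  rw [mem_iInter] at hy'
  refine ⟨y', fun i => ⟨fun hi => ?_, fun hi => (hy' (∅, 0)).2 i hi⟩⟩
  have h0 : |k i y' - k i y| ≤ 0 := by
    refine le_of_forall_pos_lt_add fun ε hε => ?_
    obtain ⟨n, hn⟩ := exists_nat_one_div_lt hε
    have := (hy' ({i}, n)).1 i (Finset.mem_singleton_self i) hi
    linarith
  exact sub_eq_zero.1 (abs_nonpos_iff.1 h0)

theorem uniform_gap {Y : Type} [TopologicalSpace Y] [CompactSpace Y] {Δ : Type}
    (φ : Y → Δ → ℝ) (hφ : Continuous φ) (hinj : Function.Injective φ)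
    (g : Y → ℝ) (hg : Continuous g) {ε : ℝ} (hε : 0 < ε) :
    ∃ m : ℕ, ∀ y z, ε ≤ |g y - g z| → ∃ d, 1 / ((m : ℝ) + 1) < |φ y d - φ z d| := by
  have hK : IsCompact {p : Y × Y | ε ≤ |g p.1 - g p.2|} := by
    refine IsClosed.isCompact (isClosed_le continuous_const ?_)
    exact ((hg.comp continuous_fst).sub (hg.comp continuous_snd)).abs
  have hopen : ∀ m : ℕ, IsOpen {p : Y × Y | ∃ d, 1 / ((m : ℝ) + 1) < |φ p.1 d - φ p.2 d|} := by
    intro m
    rw [setOf_exists]
    refine isOpen_iUnion fun d => isOpen_lt continuous_const ?_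
    exact ((((continuous_apply d).comp hφ).comp continuous_fst).sub
      (((continuous_apply d).comp hφ).comp continuous_snd)).abs
  have hcov : {p : Y × Y | ε ≤ |g p.1 - g p.2|} ⊆
      ⋃ m : ℕ, {p : Y × Y | ∃ d, 1 / ((m : ℝ) + 1) < |φ p.1 d - φ p.2 d|} := by
    rintro ⟨y, z⟩ h
    have hne : φ y ≠ φ z := by
      intro h1
      have h2 := hinj h1
      subst h2
      simp only [mem_setOf_eq, sub_self, abs_zero] at h
      exact absurd h (not_le.2 hε)
    obtain ⟨d, hd⟩ := Function.ne_iff.1 hne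
    obtain ⟨m, hm⟩ := exists_nat_one_div_lt (abs_pos.2 (sub_ne_zero.2 hd))
    exact mem_iUnion.2 ⟨m, d, hm⟩
  have hdir : Directed (· ⊆ ·) fun m : ℕ => {p : Y × Y | ∃ d, 1 / ((m : ℝ) + 1) < |φ p.1 d - φ p.2 d|} := by
    refine Monotone.directed_le fun m m' hmm p hp => ?_
    obtain ⟨d, hd⟩ := hp
    refine ⟨d, lt_of_le_of_lt ?_ hd⟩
    exact one_div_le_one_div_of_le (by positivity) (by
      have : (m : ℝ) ≤ (m' : ℝ) := by exact_mod_cast hmm
      linarith)
  obtain ⟨m, hm⟩ := hK.elim_directed_cover _ hopen hcov hdir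
  exact ⟨m, fun y z h => hm (show (y, z) ∈ {p : Y × Y | ε ≤ |g p.1 - g p.2|} from h)⟩

end Pool.Agent.Helper19.QR
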