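import Pool.Agent.Helper19.QR.Fil
import Pool.Agent.Helper19.QR.Restrict

/-!
# Block QR-FA: decomposition of functions with countable supports on an Eberlein compact space

`Y` embeds in some `c₀(Δ)`; `g γ : Y → ℝ` continuous with countable supports, `ε > 0`. Then there is
`f : Γ → ℕ` such that `{γ | f γ = n ∧ ε ≤ |g γ y|}` is finite for all `y`, `n` (Farmaki).

Proof. Let `φ : Y → Δ → ℝ` be the embedding, `φ y` has countable support (`countable_support` in
`Helper93/EC/Measure.lean`) and `{d | δ ≤ |φ y d|}` is finite for `δ > 0`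
(`tendsto_cofinite_zero_iff` in `Helper93/EC/Main.lean`). Apply `exists_restrict` to `I = Γ ⊕ Δ` with
the functions `g γ` and `φ · d`: this gives `Φ`. For each `γ` let `m γ` be given by `uniform_gap` for `g γ`. By
`fil` for the property `P N`: there is `f : Γ → ℕ` with
`{γ | inl γ ∈ N ∧ f γ = n ∧ ε ≤ |g γ y|}` finite for all `y`, `n`.

* `N` countable: `f` injective on `{γ | inl γ ∈ N}`.
* `N = ⋃ j, M j`, increasing, with `f_j` for `M j`: for `inl γ ∈ N` let `j(γ)` be the least `j` with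
  `inl γ ∈ M j`, and `f γ = Nat.pair (f_{j(γ)} γ) (m γ)`. Let `y`, `n = Nat.pair a m` be given and
  `γ` with `inl γ ∈ N`, `f γ = n`, `ε ≤ |g γ y|`, `j = j(γ)`. Let `M' = ⋃ i < j, M i`, closed,
  `inl γ ∉ M'`. For fixed `j` there are finitely many `γ` (by `f_j`). If `M'` is
  empty, `j` is the least index with `M j` nonempty. Otherwise let `y₁`, `y₂` be given by
  `exists_restrict` for `y` and `M j`, `M'`: `g γ y₁ = g γ y`, `g γ y₂ = 0`, so there is `d` with
  `1/(m+1) < |φ y₁ d - φ y₂ d|`; so `inr d ∈ M j`, `inr d ∉ M'` and `1/(m+1) < |φ y d|`.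
  So `j` is the least index with `inr d ∈ M j` for one of the finitely many `d` with
  `1/(m+1) < |φ y d|`: finitely many `j`.
-/

set_option autoImplicit false

open Set Cardinal

namespace Pool.Agent.Helper19.QR

open Pool.Agent.Helper93.EC (EmbedsC0 countable_support)

private theorem fin48 {J : Type} {v : J → ℝ} (h : Filter.Tendsto v Filter.cofinite (nhds 0))
    {δ : ℝ} (hδ : 0 < δ) : {j | δ < |v j|}.Finite := by
  rw [Metric.tendsto_nhds] at h
  have h1 := h δ hδ
  rw [Filter.eventually_cofinite] at h1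
  refine h1.subset ?_
  intro j hj
  have hj' : δ < |v j| := hj
  simp only [mem_setOf_eq, not_lt, Real.dist_eq, sub_zero]
  exact hj'.le

theorem farmaki {Y : Type} [TopologicalSpace Y] [CompactSpace Y] (hY : EmbedsC0 Y) {Γ : Type}
    (g : Γ → Y → ℝ) (hg : ∀ γ, Continuous (g γ)) (hc : ∀ y, {γ | g γ y ≠ 0}.Countable)
    {ε : ℝ} (hε : 0 < ε) :
    ∃ f : Γ → ℕ, ∀ y n, {γ | f γ = n ∧ ε ≤ |g γ y|}.Finite := by
  classical
  obtain ⟨Δ, φ, hφc, hφi, hφ0, -⟩ := hY
  let k : Γ ⊕ Δ → Y → ℝ := Sum.elim g (fun d y => φ y d)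
  have hk : ∀ i, Continuous (k i) := by
    rintro (γ | d)
    · exact hg γ
    · exact (continuous_apply d).comp hφc
  have hkc : ∀ y, {i | k i y ≠ 0}.Countable := by
    intro y
    have h1 : {i | k i y ≠ 0} ⊆ Sum.inl '' {γ | g γ y ≠ 0} ∪ Sum.inr '' {d | φ y d ≠ 0} := by
      rintro (γ | d) hi
      · exact Or.inl ⟨γ, hi, rfl⟩
      · exact Or.inr ⟨d, hi, rfl⟩
    exact (((hc y).image _).union ((countable_support (hφ0 y)).image _)).mono h1
  obtain ⟨Φ, hΦ, hres⟩ := exists_restrict k hk hkc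
  choose m hm using fun γ => uniform_gap φ hφc hφi (g γ) (hg γ) hε
  let P : Set (Γ ⊕ Δ) → Prop := fun N =>
    ∃ f : Γ → ℕ, ∀ y n, {γ | Sum.inl γ ∈ N ∧ f γ = n ∧ ε ≤ |g γ y|}.Finite
  have key : ∀ N, Clo Φ N → P N := by
    refine fil hΦ P ?_ ?_
    · intro N _ hN
      have hN' : {γ : Γ | (Sum.inl γ : Γ ⊕ Δ) ∈ N}.Countable :=
        hN.preimage Sum.inl_injective
      obtain ⟨f, hf⟩ := Set.countable_iff_exists_injOn.1 hN'
      refine ⟨f, fun y n => Set.Subsingleton.finite ?_⟩
      intro a ha b hb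
      exact hf ha.1 hb.1 (ha.2.1.trans hb.2.1.symm)
    · intro ι _ _ M hM hMc hMP
      choose F hF using hMP
      have hex : ∀ γ : Γ, (Sum.inl γ : Γ ⊕ Δ) ∈ ⋃ j, M j →
          ∃ j, (Sum.inl γ : Γ ⊕ Δ) ∈ M j ∧ ∀ i < j, (Sum.inl γ : Γ ⊕ Δ) ∉ M i := by
        intro γ hγ
        rw [mem_iUnion] at hγ
        let S : Set ι := {j | (Sum.inl γ : Γ ⊕ Δ) ∈ M j}
        have hS : S.Nonempty := hγ
        refine ⟨WellFounded.min wellFounded_lt S hS, WellFounded.min_mem _ S hS, ?_⟩
        intro i hi hmem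
        exact WellFounded.not_lt_min wellFounded_lt S hmem hi
      rcases isEmpty_or_nonempty ι with hι | hι
      · refine ⟨fun _ => 0, fun y n => ?_⟩
        refine Set.Finite.subset Set.finite_empty ?_
        rintro γ ⟨h1, -⟩
        rw [mem_iUnion] at h1
        exact (hι.false h1.choose).elim
      choose! jj hjj using hex
      refine ⟨fun γ => Nat.pair (F (jj γ) γ) (m γ), fun y n => ?_⟩
      set a := (Nat.unpair n).1 with ha
      set b := (Nat.unpair n).2 with hb
      let D : Set Δ := {d | 1 / ((b : ℝ) + 1) < |φ y d|}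
      have hD : D.Finite := fin48 (hφ0 y) (by positivity)
      let J1 : Set ι := ⋃ d ∈ D, {j | Sum.inr d ∈ M j ∧ ∀ i < j, (Sum.inr d : Γ ⊕ Δ) ∉ M i}
      let J2 : Set ι := {j | (M j).Nonempty ∧ ∀ i < j, M i = ∅}
      have hJ1 : J1.Finite := by
        refine hD.biUnion fun d _ => Set.Subsingleton.finite ?_
        intro j hj j' hj'
        rcases lt_trichotomy j j' with h | h | h
        · exact absurd hj.1 (hj'.2 j h)
        · exact h
        · exact absurd hj'.1 (hj.2 j' h)
      have hJ2 : J2.Finite := by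
        refine Set.Subsingleton.finite ?_
        intro j hj j' hj'
        rcases lt_trichotomy j j' with h | h | h
        · exact absurd (hj'.2 j h) hj.1.ne_empty
        · exact h
        · exact absurd (hj.2 j' h) hj'.1.ne_empty
      have hfin : (⋃ j ∈ J1 ∪ J2,
          {γ | Sum.inl γ ∈ M j ∧ F j γ = a ∧ ε ≤ |g γ y|}).Finite :=
        (hJ1.union hJ2).biUnion fun j _ => hF j y a
      refine hfin.subset ?_
      rintro γ ⟨hγ1, hγ2, hγ3⟩
      obtain ⟨hj1, hj2⟩ := hjj γ hγ1
      have hγ2' : F (jj γ) γ = a ∧ m γ = b := by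
        have h0 : Nat.unpair (Nat.pair (F (jj γ) γ) (m γ)) = Nat.unpair n := by
          rw [← hγ2]
        rw [Nat.unpair_pair] at h0
        rw [ha, hb, ← h0]
        exact ⟨rfl, rfl⟩
      have hmem : jj γ ∈ J1 ∪ J2 := by
        by_cases hne : ∀ i < jj γ, M i = ∅
        · exact Or.inr ⟨⟨_, hj1⟩, hne⟩
        · left
          push Not at hne
          obtain ⟨i0, hi0, hi0'⟩ := hne
          let M' : Set (Γ ⊕ Δ) := ⋃ i ∈ Iio (jj γ), M i
          have hM'c : Clo Φ M' := clo_biUnion hM hMc _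
          have hM'ne : M'.Nonempty := by
            obtain ⟨x, hx⟩ := hi0'
            exact ⟨x, mem_biUnion (show i0 ∈ Iio (jj γ) from hi0) hx⟩
          have hM'sub : M' ⊆ M (jj γ) := iUnion₂_subset fun i hi => hM (le_of_lt hi)
          have hγM' : (Sum.inl γ : Γ ⊕ Δ) ∉ M' := by
            intro h
            obtain ⟨i, hi, hi'⟩ := mem_iUnion₂.1 h
            exact hj2 i hi hi'
          obtain ⟨y1, hy1⟩ := hres (M (jj γ)) ⟨_, hj1⟩ (hMc _) y
          obtain ⟨y2, hy2⟩ := hres M' hM'ne hM'c y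
          have e1 : g γ y1 = g γ y := (hy1 (Sum.inl γ)).1 hj1
          have e2 : g γ y2 = 0 := (hy2 (Sum.inl γ)).2 hγM'
          obtain ⟨d, hd⟩ := hm γ y1 y2 (by rw [e1, e2, sub_zero]; exact hγ3)
          have hdM : (Sum.inr d : Γ ⊕ Δ) ∈ M (jj γ) := by
            by_contra hcon
            have h1 : φ y1 d = 0 := (hy1 (Sum.inr d)).2 hcon
            have h2 : φ y2 d = 0 := (hy2 (Sum.inr d)).2 fun h => hcon (hM'sub h)
            rw [h1, h2, sub_zero, abs_zero] at hd
            have : (0 : ℝ) < 1 / ((m γ : ℝ) + 1) := by positivity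
            linarith
          have hdM' : (Sum.inr d : Γ ⊕ Δ) ∉ M' := by
            intro hcon
            have h1 : φ y1 d = φ y d := (hy1 (Sum.inr d)).1 hdM
            have h2 : φ y2 d = φ y d := (hy2 (Sum.inr d)).1 hcon
            rw [h1, h2, sub_self, abs_zero] at hd
            have : (0 : ℝ) < 1 / ((m γ : ℝ) + 1) := by positivity
            linarith
          have hdD : d ∈ D := by
            have h1 : φ y1 d = φ y d := (hy1 (Sum.inr d)).1 hdM
            have h2 : φ y2 d = 0 := (hy2 (Sum.inr d)).2 hdM'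
            rw [h1, h2, sub_zero, hγ2'.2] at hd
            exact hd
          refine mem_iUnion₂.2 ⟨d, hdD, hdM, ?_⟩
          intro i hi hcon
          exact hdM' (mem_biUnion (show i ∈ Iio (jj γ) from hi) hcon)
      exact mem_biUnion hmem ⟨hj1, hγ2'.1, hγ3⟩
  obtain ⟨f, hf⟩ := key univ (fun e _ _ => subset_univ _)
  refine ⟨f, fun y n => ?_⟩
  have := hf y n
  simpa using this

end Pool.Agent.Helper19.QR
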