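import Pool.Agent.Helper19.QR.Clos

/-!
# Block QR-FIL: the induction principle for closed sets

By strong induction on the cardinality `κ` of the closed set `N`. If `N` is countable use `h0`.
Otherwise enumerate `N = {x_β : β < κ}`, i.e. choose a bijection of `κ.ord.ToType` with `N`, and let
`M_α = cl Φ {x_β : β ≤ α}`, closed, contained in `N`, of cardinality `< κ` (`mk_cl_le`; the
initial segments `{β : β ≤ α}` of `κ.ord.ToType` have cardinality `< κ`, and `ℵ₀ < κ`). The union
is `N`. Apply `h1`.
-/

set_option autoImplicit false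

open Set Cardinal

namespace Pool.Agent.Helper19.QR

theorem fil {Ω : Type} {Φ : Finset Ω → Set Ω} (hΦ : CV Φ) (P : Set Ω → Prop)
    (h0 : ∀ N, Clo Φ N → N.Countable → P N)
    (h1 : ∀ (ι : Type) [LinearOrder ι] [WellFoundedLT ι] (M : ι → Set Ω), Monotone M →
      (∀ j, Clo Φ (M j)) → (∀ j, P (M j)) → P (⋃ j, M j)) :
    ∀ N, Clo Φ N → P N := by
  have key : ∀ κ : Cardinal.{0}, ∀ N : Set Ω, #N = κ → Clo Φ N → P N := by
    intro κ
    induction κ using WellFoundedLT.induction with
    | ind κ ih =>
      intro N hN hclo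
      by_cases hc : N.Countable
      · exact h0 N hclo hc
      have hκ : ℵ₀ < κ := by
        rw [← hN]
        rw [← le_aleph0_iff_set_countable] at hc
        exact not_le.1 hc
      obtain ⟨e⟩ : Nonempty (κ.ord.ToType ≃ N) := by
        rw [← Cardinal.eq, mk_ord_toType, hN]
      let A : κ.ord.ToType → Set Ω := fun i => (fun β => (e β : Ω)) '' Iic i
      have hA : ∀ i, #(A i) < κ := by
        intro i
        refine lt_of_le_of_lt mk_image_le ?_
        have h2 : Iic i = insert i (Iio i) := by
          ext x
          simp only [mem_Iic, mem_insert_iff, mem_Iio]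
          exact le_iff_eq_or_lt
        rw [h2]
        refine lt_of_le_of_lt (mk_insert_le) ?_
        exact add_lt_of_lt hκ.le (mk_Iio_toType_ord_lt i) (one_lt_aleph0.trans hκ)
      have hMN : ∀ i, cl Φ (A i) ⊆ N := by
        intro i
        refine cl_min ?_ hclo
        rintro x ⟨β, -, rfl⟩
        exact (e β).2
      have hU : (⋃ i, cl Φ (A i)) = N := by
        refine subset_antisymm (iUnion_subset hMN) ?_
        intro x hx
        rw [mem_iUnion]
        refine ⟨e.symm ⟨x, hx⟩, subset_cl _ ?_⟩
        exact ⟨e.symm ⟨x, hx⟩, mem_Iic.2 le_rfl, by simp⟩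
      rw [← hU]
      refine h1 κ.ord.ToType (fun i => cl Φ (A i)) ?_ (fun j => clo_cl _) ?_
      · intro i j hij
        refine cl_mono ?_
        exact image_mono (Iic_subset_Iic.2 hij)
      · intro j
        refine ih #(cl Φ (A j)) ?_ _ rfl (clo_cl _)
        refine lt_of_le_of_lt (mk_cl_le hΦ _) ?_
        exact max_lt (hA j) hκ
  intro N hN
  exact key _ N rfl hN

end Pool.Agent.Helper19.QR
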