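import Pool.Agent.Helper19.QR.Core

/-!
# The space of cliques
-/

set_option autoImplicit false

open Set Cardinal

namespace Pool.Agent.Helper19.QR

/-- The space of cliques. -/
def KS {V : Type} (S : Set (Finset V)) : Set (V → Bool) :=
  {x | ∀ F : Finset V, (∀ v ∈ F, x v = true) → F ∈ S}

theorem isClosed_KS {V : Type} (S : Set (Finset V)) : IsClosed (KS S) := by
  have : KS S = ⋂ F ∈ {F : Finset V | F ∉ S}, {x : V → Bool | ¬ ∀ v ∈ F, x v = true} := by
    ext x
    simp only [KS, mem_ofPred_eq, mem_iInter]
    constructor
    · intro h F hF hall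
      exact hF (h F hall)
    · intro h F hall
      by_contra hF
      exact h F hF hall
  rw [this]
  refine isClosed_biInter fun F _ => ?_
  rw [← isOpen_compl_iff]
  have h2 : {x : V → Bool | ¬ ∀ v ∈ F, x v = true}ᶜ = ⋂ v ∈ F, {x : V → Bool | x v = true} := by
    ext x
    simp
  rw [h2]
  refine isOpen_biInter_finset fun v _ => ?_
  have h3 : Continuous fun x : V → Bool => x v := continuous_apply v
  have h4 : {x : V → Bool | x v = true} = (fun x : V → Bool => x v) ⁻¹' {true} := by
    ext x
    simp
  rw [h4]
  exact (isOpen_discrete _).preimage h3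

end Pool.Agent.Helper19.QR
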