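import Pool.Agent.Helper19.QR.Enlarge
import Pool.Agent.Helper19.QR.Glue

/-!
# Block QR-PC: the induction step, countable cofinality

`pp_countable`: `U` is the increasing union of `V n`, `n : ℕ`, of smaller cardinality. By recursion
`B 0 ⊇ V 0 ∪ {x₀}` (some `x₀ ∈ U`), `B (n+1) ⊇ V (n+1) ∪ B n`, given by `enlarge` with
`κ = max (#V (n+1) + #B n) ℵ₁ < #U`: closed, nonempty, `RG (B n) U`. Unions of subfamilies of the
`B n`: empty, some `B n`, or `U`. `PP (B n)` by the hypothesis. `glue`.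
-/

set_option autoImplicit false

open Set Cardinal

namespace Pool.Agent.Helper19.QR

variable {X : Type} [TopologicalSpace X] [CompactSpace X] [T2Space X]

theorem pp_countable (h : CR) (hpp : ∀ U : Set (X ⊕ C(X, ℝ)), #U ≤ 𝔠 → PP U) (ht : Tight X)
    (Φ₀ : Finset (X ⊕ C(X, ℝ)) → Set (X ⊕ C(X, ℝ))) (hΦ₀ : CV Φ₀)
    (hret : ∀ N, N.Nonempty → Clo Φ₀ N → Ret N)
    (U : Set (X ⊕ C(X, ℝ))) (hU : Clo Φ₀ U) (h𝔠 : 𝔠 < #U)
    (V : ℕ → Set (X ⊕ C(X, ℝ))) (hm : Monotone V) (hV : ⋃ n, V n = U) (hcard : ∀ n, #(V n) < #U)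
    (ih : ∀ U' : Set (X ⊕ C(X, ℝ)), Clo Φ₀ U' → #U' < #U → PP U') : PP U := by
  classical
  have hU0 : ℵ₀ ≤ #U := aleph0_le_continuum.trans h𝔠.le
  have hUne : U.Nonempty := by
    rw [nonempty_iff_ne_empty]
    rintro rfl
    rw [mk_eq_zero] at h𝔠
    exact absurd h𝔠 (not_lt.2 zero_le)
  obtain ⟨x₀, hx₀⟩ := hUne
  have hVU : ∀ j, V j ⊆ U := fun j => hV ▸ subset_iUnion V j
  have hℵ : ℵ₁ < #U := lt_of_le_of_lt aleph_one_le_continuum h𝔠
  -- one step
  have hstep : ∀ (n : ℕ) (A : {A : Set (X ⊕ C(X, ℝ)) // A ⊆ U ∧ #A < #U}),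
      ∃ B : {A : Set (X ⊕ C(X, ℝ)) // A ⊆ U ∧ #A < #U}, A.1 ∪ V n ⊆ B.1 ∧ Clo Φ₀ B.1 ∧
        RG B.1 U := by
    rintro n ⟨A, hAU, hAc⟩
    obtain ⟨B', h1, h2, h3, h4, h5⟩ := enlarge h hpp ht Φ₀ hΦ₀ U hU (A ∪ V n)
      (union_subset hAU (hVU n)) (max #(A ∪ V n : Set (X ⊕ C(X, ℝ))) ℵ₁) (le_max_right _ _)
      (le_max_left _ _)
    refine ⟨⟨B', h2, lt_of_le_of_lt h5 (max_lt ?_ hℵ)⟩, h1, h3, h4⟩
    refine lt_of_le_of_lt (mk_union_le _ _) ?_
    exact Cardinal.add_lt_of_lt hU0 hAc (hcard n)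
  choose E hE1 hE2 hE3 using hstep
  have hx₀c : #({x₀} : Set (X ⊕ C(X, ℝ))) < #U := by
    rw [mk_singleton]
    exact lt_of_lt_of_le one_lt_aleph0 hU0
  let B : ℕ → {A : Set (X ⊕ C(X, ℝ)) // A ⊆ U ∧ #A < #U} := fun n =>
    Nat.rec (E 0 ⟨{x₀}, singleton_subset_iff.2 hx₀, hx₀c⟩) (fun n A => E (n + 1) A) n
  have hB0 : B 0 = E 0 ⟨{x₀}, singleton_subset_iff.2 hx₀, hx₀c⟩ := rfl
  have hBs : ∀ n, B (n + 1) = E (n + 1) (B n) := fun n => rfl
  have hBclo : ∀ n, Clo Φ₀ (B n).1 := by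
    intro n
    cases n with
    | zero => rw [hB0]; exact hE2 _ _
    | succ n => rw [hBs]; exact hE2 _ _
  have hBRG : ∀ n, RG (B n).1 U := by
    intro n
    cases n with
    | zero => rw [hB0]; exact hE3 _ _
    | succ n => rw [hBs]; exact hE3 _ _
  have hVB : ∀ n, V n ⊆ (B n).1 := by
    intro n
    cases n with
    | zero => rw [hB0]; exact subset_union_right.trans (hE1 _ _)
    | succ n => rw [hBs]; exact subset_union_right.trans (hE1 _ _)
  have hBmono : Monotone fun n => (B n).1 := monotone_nat_of_le_succ fun n => by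
    rw [hBs]
    exact subset_union_left.trans (hE1 _ _)
  have hx₀B : ∀ n, x₀ ∈ (B n).1 := by
    intro n
    have h0 : x₀ ∈ (B 0).1 := by
      rw [hB0]
      exact hE1 _ _ (Or.inl (mem_singleton x₀))
    exact hBmono (Nat.zero_le n) h0
  have hBunion : ⋃ n, (B n).1 = U := by
    refine Subset.antisymm (iUnion_subset fun n => (B n).2.1) ?_
    exact hV.symm.subset.trans (iUnion_mono hVB)
  refine glue ht U (fun n => (B n).1) hBmono hBunion ?_ ?_ ?_
  · intro J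
    rcases J.eq_empty_or_nonempty with rfl | hJ
    · intro p hp
      have : pts (⋃ j ∈ (∅ : Set ℕ), (B j).1) = ∅ := by
        ext x
        simp [pts]
      rw [this, closure_empty] at hp
      exact absurd hp (notMem_empty p)
    · by_cases hbd : BddAbove J
      · have hmem : sSup J ∈ J := Nat.sSup_mem hJ hbd
        have e : (⋃ j ∈ J, (B j).1) = (B (sSup J)).1 := by
          refine Subset.antisymm (iUnion₂_subset fun j hj => hBmono (le_csSup hbd hj)) ?_
          exact subset_iUnion₂_of_subset (sSup J) hmem (Subset.refl _)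
        rw [e]
        exact hBRG _
      · have e : (⋃ j ∈ J, (B j).1) = U := by
          refine Subset.antisymm (iUnion₂_subset fun j _ => (B j).2.1) ?_
          refine hBunion.symm.subset.trans (iUnion_subset fun n => ?_)
          obtain ⟨j, hj, hnj⟩ := not_bddAbove_iff.1 hbd n
          exact subset_iUnion₂_of_subset j hj (hBmono hnj.le)
        rw [e]
        exact fun p _ q _ hpq => hpq
  · intro n
    exact hret (B n).1 ⟨x₀, hx₀B n⟩ (hBclo n)
  · intro n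
    exact ih (B n).1 (hBclo n) (B n).2.2

end Pool.Agent.Helper19.QR
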