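import Pool.Agent.Helper19.QR.PReg
import Pool.Agent.Helper19.QR.PCount
import Pool.Agent.Helper19.QR.PUncount

/-!
# Block QR-MI: the induction on cardinality

`PP U` for all `U` closed under `Φ₀`, by strong induction on `#U`. If `#U ≤ 𝔠`: `hpp`. If `#U` is
regular: `pp_regular`. Otherwise the cofinality `μ` of `κ = #U` (of `κ.ord`) is smaller than `κ`: let
`u : κ.ord.ToType → U` be a bijection, `ι ⊆ κ.ord.ToType` a cofinal set of cardinality `μ` (a well-ordered
type), `V j = {u β | β ≤ j}`, of cardinality `< κ`. If `μ > ℵ₀` countable subsets of `ι` are bounded: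
`pp_uncountable`. If `μ = ℵ₀` let `s : ℕ → ι` be surjective, `V' n = ⋃ k ≤ n, V (s k)`, of cardinality
`< κ`: `pp_countable`.
-/

set_option autoImplicit false

open Set Cardinal

namespace Pool.Agent.Helper19.QR

variable {X : Type} [TopologicalSpace X] [CompactSpace X] [T2Space X]

theorem pp_all (h : CR) (hpp : ∀ U : Set (X ⊕ C(X, ℝ)), #U ≤ 𝔠 → PP U) (ht : Tight X)
    (Φ₀ : Finset (X ⊕ C(X, ℝ)) → Set (X ⊕ C(X, ℝ))) (hΦ₀ : CV Φ₀)
    (hret : ∀ N, N.Nonempty → Clo Φ₀ N → Ret N)
    (U : Set (X ⊕ C(X, ℝ))) (hU : Clo Φ₀ U) : PP U := by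
  have main : ∀ κ : Cardinal.{0}, ∀ U : Set (X ⊕ C(X, ℝ)), Clo Φ₀ U → #U = κ → PP U := by
    intro κ
    induction κ using WellFoundedLT.induction with
    | ind κ ihκ =>
    intro U hU hκ
    have ih : ∀ U' : Set (X ⊕ C(X, ℝ)), Clo Φ₀ U' → #U' < #U → PP U' := by
      intro U' hU' hlt
      exact ihκ (#U') (hκ ▸ hlt) U' hU' rfl
    by_cases hc : #U ≤ 𝔠
    · exact hpp U hc
    push Not at hc
    have hal : ℵ₀ < #U := lt_trans aleph0_lt_continuum hc
    by_cases hreg : (#U).IsRegular
    · exact pp_regular h hpp ht Φ₀ hΦ₀ hret U hU hreg hal ih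
    -- the singular case
    have hcofT : Order.cof (#U).ord.ToType < #U := by
      rw [Ordinal.cof_toType]
      by_contra hge
      push Not at hge
      exact hreg ⟨hal.le, hge⟩
    obtain ⟨S, hS, hScard⟩ := Order.exists_cof_eq (α := (#U).ord.ToType)
    have hTcard : #((#U).ord.ToType) = #U := mk_ord_toType _
    obtain ⟨e⟩ : Nonempty ((#U).ord.ToType ≃ U) := Cardinal.eq.1 hTcard
    let V : S → Set (X ⊕ C(X, ℝ)) := fun j => (fun β => ((e β : U) : X ⊕ C(X, ℝ))) '' Iic j.1
    have hVm : Monotone V := by
      intro i j hij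
      apply image_mono
      exact Iic_subset_Iic.2 hij
    have hVU : ⋃ j, V j = U := by
      apply Set.Subset.antisymm
      · apply iUnion_subset
        rintro j x ⟨β, -, rfl⟩
        exact (e β).2
      · intro x hx
        obtain ⟨j, hj, hle⟩ := hS (e.symm ⟨x, hx⟩)
        refine mem_iUnion.2 ⟨⟨j, hj⟩, e.symm ⟨x, hx⟩, hle, ?_⟩
        simp
    have hVc : ∀ j, #(V j) < #U := by
      intro j
      have h1 : #(V j) ≤ #(Iic j.1) := mk_image_le
      have h2 : #(Iic j.1) < #U := by
        have h3 : (Iic j.1 : Set (#U).ord.ToType) = insert j.1 (Iio j.1) := by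
          ext x; simp [le_iff_lt_or_eq, or_comm]
        rw [h3]
        refine lt_of_le_of_lt mk_insert_le ?_
        exact add_lt_of_lt hal.le (mk_Iio_ord_toType j.1) (one_lt_aleph0.trans hal)
      exact h1.trans_lt h2
    by_cases hcount : Order.cof (#U).ord.ToType ≤ ℵ₀
    · have hSc : Countable S := by
        rw [← mk_le_aleph0_iff, hScard]; exact hcount
      have hne : Nonempty S := by
        have hU0 : (#U) ≠ 0 := (aleph0_pos.trans hal).ne'
        have : Nonempty U := mk_ne_zero_iff.1 hU0
        obtain ⟨x⟩ := this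
        obtain ⟨j, hj, -⟩ := hS (e.symm x)
        exact ⟨⟨j, hj⟩⟩
      obtain ⟨f, hf⟩ := exists_surjective_nat S
      refine pp_countable h hpp ht Φ₀ hΦ₀ hret U hU hc (fun n => V (partialSups f n)) ?_ ?_ ?_ ih
      · intro m n hmn
        exact hVm ((partialSups f).monotone hmn)
      · apply Set.Subset.antisymm
        · apply iUnion_subset
          intro n
          exact (subset_iUnion V _).trans hVU.subset
        · refine hVU.symm.subset.trans ?_
          apply iUnion_subset
          intro j
          obtain ⟨n, rfl⟩ := hf j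
          exact (hVm (le_partialSups f n)).trans (subset_iUnion (fun n => V (partialSups f n)) n)
      · intro n
        exact hVc _
    · push Not at hcount
      have hcof : ∀ s : ℕ → S, ∃ j, ∀ n, s n ≤ j := by
        intro s
        have hnc : ¬ IsCofinal (range (fun n => (s n : (#U).ord.ToType))) := by
          intro hco
          have h1 := Order.cof_le hco
          have h2 : #(range (fun n => (s n : (#U).ord.ToType))) ≤ ℵ₀ := by
            rw [mk_le_aleph0_iff]
            exact (countable_range _).to_subtype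
          exact absurd (h1.trans h2) (not_le.2 hcount)
        rw [IsCofinal] at hnc
        push Not at hnc
        obtain ⟨t, ht'⟩ := hnc
        obtain ⟨j, hj, hle⟩ := hS t
        refine ⟨⟨j, hj⟩, fun n => ?_⟩
        have h3 := ht' (s n) (mem_range_self n)
        exact (h3.le.trans hle : (s n : (#U).ord.ToType) ≤ j)
      have hSlt : #S < #U := by rw [hScard]; exact hcofT
      exact pp_uncountable h hpp ht Φ₀ hΦ₀ hret U hU hc hSlt hcof V hVm hVU hVc ih
  exact main (#U) U hU rfl

end Pool.Agent.Helper19.QR
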