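import Pool.Agent.Helper19.QR.TightB
import Pool.Agent.Helper19.QR.Small
import Pool.Agent.Helper19.QR.PAll
import Pool.Agent.Helper19.QR.Sigma
import Pool.Agent.Helper19.QR.Corson
import Pool.Agent.Helper19.QR.Cliques
import Pool.Agent.Helper19.QR.Trees

/-!
# The question is equivalent to clique reflection
-/

set_option autoImplicit false

open Set Cardinal

namespace Pool.Agent.Helper19.QR

open Pool.Agent.Helper93.EC (EmbedsC0)

theorem pts_univ_inter {X : Type} [TopologicalSpace X] (Φ : Finset (X ⊕ C(X, ℝ)) → Set (X ⊕ C(X, ℝ)))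
    {N : Set (X ⊕ C(X, ℝ))} (h : Clo Φ N) : Clo (fun e => Φ e ∩ univ) N := by
  intro e he heN
  exact inter_subset_left.trans (h e he heN)

theorem q1_of_cr (h : CR) : Q1 := by
  intro X _ _ _ hX
  have hpp : ∀ U : Set (X ⊕ C(X, ℝ)), #U ≤ 𝔠 → PP U := by
    intro U hU
    apply pp_of_embeds
    apply hX
    refine le_trans ?_ hU
    exact mk_preimage_of_injective _ _ Sum.inl_injective
  have ht := tight_of_small hX
  obtain ⟨Φ₀, hΦ₀, hret⟩ := exists_ret (X := X)
  obtain ⟨Φ, hΦ, hRG⟩ := pp_all h hpp ht Φ₀ hΦ₀ hret univ (fun e _ _ => subset_univ _)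
  obtain ⟨Γ, g, hc, hsep⟩ := exists_sigma ht (fun e => Φ e ∪ Φ₀ e)
    (fun e => (hΦ e).union (hΦ₀ e)) (by
      intro N hN hclo
      refine ⟨hRG N (subset_univ _) (pts_univ_inter Φ ?_), hret N hN ?_⟩
      · intro e he heN
        exact subset_union_left.trans (hclo e he heN)
      · intro e he heN
        exact subset_union_right.trans (hclo e he heN))
  exact embeds_of_sigma h hX g hc hsep

/-- The question is equivalent to clique reflection, and implies Rado's conjecture at the
continuum. -/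
theorem main : (Q1 ↔ CR) ∧ (Q1 → RC) :=
  ⟨⟨cr_of_q1, q1_of_cr⟩, fun h => rc_of_cr (cr_of_q1 h)⟩

end Pool.Agent.Helper19.QR
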