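import Pool.Agent.Helper19.QR.Reg
import Pool.Agent.Helper19.QR.Glue
import Pool.Agent.Helper93.EC.Fodor

/-!
# Block QR-PR: the induction step, regular cardinality

`U` closed under `Φ₀`, of regular uncountable cardinality `κ`, and `PP U'` for all closed `U' ⊆ U` of
smaller cardinality. Then `PP U`.

Proof. Let `u : κ.ord.ToType → U` be a bijection, `M α = cl Φ₀ {u β | β ≤ α} ⊆ U`, `#(M α) < κ`,
`L α = ⋃ β < α, M β`, closed under `Φ₀`, `#(L α) < κ` (regular). Let `E = {α | ¬ RG (L α) U}`. For `α ∈ E`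
there are `p, q ∈ closure (pts (L α))`, `Eqv (L α) p q`, and `inr g ∈ U` with `g p ≠ g q`; by tightness
there is a countable nonempty `D ⊆ pts (L α)` with `p, q ∈ closure D`; let `c α` enumerate `inl '' D`.
`bad_misses_club` gives an unbounded set `C`, closed under limits, such that `RG (L γ) U` for
`γ ∈ C`.

For `α : κ.ord.ToType` let `s α` be the least element of `C` above `α` and `M' α = L (s α)`: increasing, closed,
nonempty (`u α ∈ M α ⊆ L (s α)`), so `Ret`; `PP (M' α)` by the hypothesis; the union is `U`. Unions of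
subfamilies: for `J` empty `RG ∅ U` is trivial. Otherwise let `S = {s α | α ∈ J}`. If `S`
has a largest element `γ` the union is `L γ`, `γ ∈ C`. If `S` is unbounded the union is `U`, and
`RG U U` is trivial. Otherwise let `δ` be its least upper bound; `δ ∉ S`, every `β < δ` is below
some `γ ∈ S`, `γ < δ`, so `δ ∈ C`, and the union is `L δ`. Now apply `glue`.
-/

set_option autoImplicit false

open Set Cardinal

namespace Pool.Agent.Helper19.QR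

variable {X : Type} [TopologicalSpace X] [CompactSpace X] [T2Space X]

/-- the union of fewer than `κ` sets of cardinality less than `κ` -/
private theorem mk_below_lt {Ω : Type} {κ : Cardinal.{0}} (hκ : κ.IsRegular)
    (M : κ.ord.ToType → Set Ω) (hM : ∀ α, #(M α) < κ) (α : κ.ord.ToType) :
    #(⋃ β ∈ Iio α, M β : Set Ω) < κ := by
  rw [card_biUnion_lt_iff_forall_of_isRegular hκ (mk_Iio_toType_ord_lt α)]
  intro β _
  exact hM β

private theorem rg_self {X : Type} [TopologicalSpace X] (U : Set (X ⊕ C(X, ℝ))) : RG U U :=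
  fun _ _ _ _ hpq => hpq

private theorem rg_empty {X : Type} [TopologicalSpace X] (U : Set (X ⊕ C(X, ℝ))) :
    RG (∅ : Set (X ⊕ C(X, ℝ))) U := by
  intro p hp
  have h0 : pts (∅ : Set (X ⊕ C(X, ℝ))) = ∅ := by
    ext x
    simp [pts]
  rw [h0, closure_empty] at hp
  exact hp.elim

private theorem bad_data {X : Type} [TopologicalSpace X] (ht : Tight X)
    (L U : Set (X ⊕ C(X, ℝ))) (hL : ¬ RG L U) :
    ∃ (p q : X) (g : C(X, ℝ)) (c : ℕ → X ⊕ C(X, ℝ)), (∀ n, c n ∈ L) ∧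
      p ∈ closure (pts (range c)) ∧ q ∈ closure (pts (range c)) ∧ Eqv L p q ∧
      Sum.inr g ∈ U ∧ g p ≠ g q := by
  simp only [RG] at hL
  push Not at hL
  obtain ⟨p, hp, q, hq, hpq, hnU⟩ := hL
  unfold Eqv at hnU
  push Not at hnU
  obtain ⟨g, hgU, hg⟩ := hnU
  obtain ⟨D1, hD1, hD1c, hp1⟩ := ht _ _ hp
  obtain ⟨D2, hD2, hD2c, hq2⟩ := ht _ _ hq
  have hne : (Sum.inl '' (D1 ∪ D2) : Set (X ⊕ C(X, ℝ))).Nonempty := by
    have h1 : D1.Nonempty := by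
      rw [← closure_nonempty_iff]
      exact ⟨p, hp1⟩
    exact (h1.mono subset_union_left).image _
  obtain ⟨c, hc⟩ := ((hD1c.union hD2c).image (Sum.inl : X → X ⊕ C(X, ℝ))).exists_eq_range hne
  have hpts : pts (range c) = D1 ∪ D2 := by
    rw [← hc]
    ext x
    simp [pts]
  refine ⟨p, q, g, c, ?_, ?_, ?_, hpq, hgU, hg⟩
  · intro n
    have hn : c n ∈ (Sum.inl '' (D1 ∪ D2) : Set (X ⊕ C(X, ℝ))) := by
      rw [hc]
      exact mem_range_self n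
    obtain ⟨x, hx, hxn⟩ := hn
    rw [← hxn]
    rcases hx with hx | hx
    · exact hD1 hx
    · exact hD2 hx
  · rw [hpts]
    exact closure_mono subset_union_left hp1
  · rw [hpts]
    exact closure_mono subset_union_right hq2

/-- unions of subfamilies of the stages in the set `C` -/
private theorem rg_union {Y : Type} [TopologicalSpace Y] {κ : Cardinal.{0}}
    (U : Set (Y ⊕ C(Y, ℝ)))
    (M : κ.ord.ToType → Set (Y ⊕ C(Y, ℝ))) (hMU : ∀ α, M α ⊆ U) (hcov : ∀ x ∈ U, ∃ α, x ∈ M α)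
    (C : Set κ.ord.ToType) (hC : ∀ γ ∈ C, RG (⋃ β ∈ Iio γ, M β) U)
    (hlim : ∀ α, (∃ β, β < α) → (∀ β < α, ∃ γ ∈ C, β < γ ∧ γ < α) → α ∈ C)
    (S : Set κ.ord.ToType) (hS : S ⊆ C) : RG (⋃ γ ∈ S, ⋃ β ∈ Iio γ, M β) U := by
  rcases S.eq_empty_or_nonempty with h0 | ⟨γ0, hγ0⟩
  · rw [h0]
    simp only [mem_empty_iff_false, iUnion_of_empty, iUnion_empty]
    exact rg_empty U
  by_cases hmax : ∃ γ ∈ S, ∀ γ' ∈ S, γ' ≤ γ
  · obtain ⟨γ, hγ, hγm⟩ := hmax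
    have he : (⋃ γ ∈ S, ⋃ β ∈ Iio γ, M β) = ⋃ β ∈ Iio γ, M β := by
      apply subset_antisymm
      · intro x hx
        simp only [mem_iUnion, mem_Iio] at hx ⊢
        obtain ⟨γ', hγ', β, hβ, hx⟩ := hx
        exact ⟨β, hβ.trans_le (hγm γ' hγ'), hx⟩
      · intro x hx
        simp only [mem_iUnion, mem_Iio] at hx ⊢
        obtain ⟨β, hβ, hx⟩ := hx
        exact ⟨γ, hγ, β, hβ, hx⟩
    rw [he]
    exact hC γ (hS hγ)
  push Not at hmax
  by_cases hub : ∀ b, ∃ γ ∈ S, b < γ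
  · have he : (⋃ γ ∈ S, ⋃ β ∈ Iio γ, M β) = U := by
      apply subset_antisymm
      · intro x hx
        simp only [mem_iUnion, mem_Iio] at hx
        obtain ⟨γ', hγ', β, hβ, hx⟩ := hx
        exact hMU β hx
      · intro x hx
        obtain ⟨α, hα⟩ := hcov x hx
        obtain ⟨γ, hγ, hαγ⟩ := hub α
        simp only [mem_iUnion, mem_Iio]
        exact ⟨γ, hγ, α, hαγ, hα⟩
    rw [he]
    exact rg_self U
  push Not at hub
  obtain ⟨b, hb⟩ := hub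
  obtain ⟨δ, hδ⟩ := Pool.Agent.Helper93.EC.exists_lub (t := S) ⟨b, hb⟩
  have hlt : ∀ γ ∈ S, γ < δ := by
    intro γ hγ
    obtain ⟨γ', hγ', hlt⟩ := hmax γ hγ
    exact hlt.trans_le (hδ.1 hγ')
  have hex : ∀ β < δ, ∃ γ ∈ S, β < γ := by
    intro β hβ
    exact (lt_isLUB_iff hδ).1 hβ
  have hδC : δ ∈ C := by
    refine hlim δ ⟨γ0, hlt γ0 hγ0⟩ ?_
    intro β hβ
    obtain ⟨γ, hγ, hβγ⟩ := hex β hβ
    exact ⟨γ, hS hγ, hβγ, hlt γ hγ⟩
  have he : (⋃ γ ∈ S, ⋃ β ∈ Iio γ, M β) = ⋃ β ∈ Iio δ, M β := by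
    apply subset_antisymm
    · intro x hx
      simp only [mem_iUnion, mem_Iio] at hx ⊢
      obtain ⟨γ', hγ', β, hβ, hx⟩ := hx
      exact ⟨β, hβ.trans (hlt γ' hγ'), hx⟩
    · intro x hx
      simp only [mem_iUnion, mem_Iio] at hx ⊢
      obtain ⟨β, hβ, hx⟩ := hx
      obtain ⟨γ, hγ, hβγ⟩ := hex β hβ
      exact ⟨γ, hγ, β, hβγ, hx⟩
  rw [he]
  exact hC δ hδC

private theorem pp_regular_aux (h : CR) (hpp : ∀ U : Set (X ⊕ C(X, ℝ)), #U ≤ 𝔠 → PP U)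
    (ht : Tight X)
    (Φ₀ : Finset (X ⊕ C(X, ℝ)) → Set (X ⊕ C(X, ℝ))) (hΦ₀ : CV Φ₀)
    (hret : ∀ N, N.Nonempty → Clo Φ₀ N → Ret N)
    (U : Set (X ⊕ C(X, ℝ))) (hU : Clo Φ₀ U) {κ : Cardinal.{0}} (hκU : #U = κ)
    (hreg : κ.IsRegular) (hunc : ℵ₀ < κ)
    (ih : ∀ U' : Set (X ⊕ C(X, ℝ)), Clo Φ₀ U' → #U' < κ → PP U') : PP U := by
  classical
  by_cases hX : Nonempty X
  swap
  · exact ⟨fun _ => ∅, fun _ => countable_empty, fun N _ _ p _ => (hX ⟨p⟩).elim⟩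
  obtain ⟨u⟩ : Nonempty (κ.ord.ToType ≃ U) := Cardinal.eq.1 (by rw [mk_ord_toType, hκU])
  haveI := Cardinal.noMaxOrder hreg.aleph0_le
  obtain ⟨M, hMdef⟩ : ∃ M : κ.ord.ToType → Set (X ⊕ C(X, ℝ)),
      ∀ α, M α = cl Φ₀ ((fun β => (u β : X ⊕ C(X, ℝ))) '' Iic α) := ⟨_, fun _ => rfl⟩
  have hMmono : Monotone M := fun α α' hα => by
    rw [hMdef, hMdef]
    exact cl_mono (image_mono (Iic_subset_Iic.2 hα))
  have hMU : ∀ α, M α ⊆ U := fun α => by
    rw [hMdef]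
    refine cl_min ?_ hU
    rintro x ⟨β, _, rfl⟩
    exact (u β).2
  have hMclo : ∀ α, Clo Φ₀ (M α) := fun α => by
    rw [hMdef]
    exact clo_cl _
  have hMcard : ∀ α, #(M α) < κ := by
    intro α
    rw [hMdef]
    refine (mk_cl_le hΦ₀ _).trans_lt (max_lt ?_ hunc)
    refine mk_image_le.trans_lt ?_
    obtain ⟨α', hα'⟩ := exists_gt α
    exact (mk_le_mk_of_subset (fun x hx => lt_of_le_of_lt hx hα')).trans_lt
      (mk_Iio_toType_ord_lt α')
  have hMmem : ∀ α, (u α : X ⊕ C(X, ℝ)) ∈ M α := fun α => by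
    rw [hMdef]
    exact subset_cl _ ⟨α, le_refl α, rfl⟩
  have hcov : ∀ x ∈ U, ∃ α, x ∈ M α := by
    intro x hx
    refine ⟨u.symm ⟨x, hx⟩, ?_⟩
    have h1 := hMmem (u.symm ⟨x, hx⟩)
    rwa [Equiv.apply_symm_apply] at h1
  obtain ⟨L, hLdef⟩ : ∃ L : κ.ord.ToType → Set (X ⊕ C(X, ℝ)),
      ∀ α, L α = ⋃ β ∈ Iio α, M β := ⟨_, fun _ => rfl⟩
  have hLmono : Monotone L := fun α α' hα => by
    rw [hLdef, hLdef]
    exact biUnion_subset_biUnion_left (Iio_subset_Iio hα)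
  have hLclo : ∀ α, Clo Φ₀ (L α) := fun α => by
    rw [hLdef]
    exact clo_biUnion hMmono hMclo (Iio α)
  have hLcard : ∀ α, #(L α) < κ := fun α => by
    rw [hLdef]
    exact mk_below_lt hreg M hMcard α
  have hML : ∀ α β, α < β → M α ⊆ L β := by
    intro α β hαβ x hx
    rw [hLdef]
    simp only [mem_iUnion, mem_Iio]
    exact ⟨α, hαβ, hx⟩
  obtain ⟨E, hE⟩ : ∃ E : Set κ.ord.ToType, ∀ α, α ∈ E ↔ ¬ RG (L α) U :=
    ⟨{α | ¬ RG (L α) U}, fun _ => Iff.rfl⟩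
  have key : ∀ α ∈ E, ∃ (p q : X) (g : C(X, ℝ)) (c : ℕ → X ⊕ C(X, ℝ)), (∀ n, c n ∈ L α) ∧
      p ∈ closure (pts (range c)) ∧ q ∈ closure (pts (range c)) ∧ Eqv (L α) p q ∧
      Sum.inr g ∈ U ∧ g p ≠ g q := fun α hα => bad_data ht _ _ ((hE α).1 hα)
  haveI : Nonempty (ℕ → X ⊕ C(X, ℝ)) := ⟨fun _ => Sum.inr 0⟩
  choose! p q g c hcL hp hq hpq hgU hg using key
  obtain ⟨C, hCun, hClim, hCE⟩ := bad_misses_club h hpp hreg hunc M hMmono hMcard E c g p q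
    (fun α hα n => by
      have h1 := hcL α hα n
      rw [hLdef] at h1
      simp only [mem_iUnion, mem_Iio] at h1
      obtain ⟨β, hβ, hx⟩ := h1
      exact ⟨β, hβ, hx⟩)
    hp hq
    (fun α hα β hβ f hf => hpq α hα f (hML β α hβ hf))
    hg
    (fun α hα => hcov _ (hgU α hα))
  have hCRG : ∀ γ ∈ C, RG (L γ) U := by
    intro γ hγ
    by_contra hcon
    exact (disjoint_left.1 hCE) hγ ((hE γ).2 hcon)
  have hs : ∀ α, ∃ γ ∈ C, α < γ ∧ ∀ γ' ∈ C, α < γ' → γ ≤ γ' := by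
    intro α
    obtain ⟨γ, hγ, hαγ⟩ := hCun α
    obtain ⟨x, hx, hmin⟩ := wellFounded_lt.has_min {γ | γ ∈ C ∧ α < γ} ⟨γ, hγ, hαγ⟩
    exact ⟨x, hx.1, hx.2, fun γ' h1 h2 => not_lt.1 (hmin γ' ⟨h1, h2⟩)⟩
  choose s hsC hslt hsmin using hs
  have hsmono : Monotone s := fun α α' hα => hsmin α (s α') (hsC α') (hα.trans_lt (hslt α'))
  refine glue ht U (fun α => L (s α)) (fun α α' hα => hLmono (hsmono hα)) ?_ ?_ ?_ ?_
  · apply subset_antisymm
    · refine iUnion_subset fun α => ?_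
      simp only [hLdef]
      exact iUnion₂_subset fun β _ => hMU β
    · intro x hx
      obtain ⟨α, hα⟩ := hcov x hx
      rw [mem_iUnion]
      exact ⟨α, hML α (s α) (hslt α) hα⟩
  · intro J
    have h1 := rg_union U M hMU hcov C (fun γ hγ => by
      have h2 := hCRG γ hγ
      rwa [hLdef] at h2) hClim (s '' J) (by
        rintro γ ⟨j, _, rfl⟩
        exact hsC j)
    rw [biUnion_image] at h1
    simp only [hLdef]
    exact h1
  · intro j
    exact hret _ ⟨_, hML j (s j) (hslt j) (hMmem j)⟩ (hLclo _)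
  · intro j
    exact ih _ (hLclo _) (hLcard _)

theorem pp_regular (h : CR) (hpp : ∀ U : Set (X ⊕ C(X, ℝ)), #U ≤ 𝔠 → PP U) (ht : Tight X)
    (Φ₀ : Finset (X ⊕ C(X, ℝ)) → Set (X ⊕ C(X, ℝ))) (hΦ₀ : CV Φ₀)
    (hret : ∀ N, N.Nonempty → Clo Φ₀ N → Ret N)
    (U : Set (X ⊕ C(X, ℝ))) (hU : Clo Φ₀ U) (hreg : (#U).IsRegular) (hunc : ℵ₀ < #U)
    (ih : ∀ U' : Set (X ⊕ C(X, ℝ)), Clo Φ₀ U' → #U' < #U → PP U') : PP U := by
  exact pp_regular_aux h hpp ht Φ₀ hΦ₀ hret U hU rfl hreg hunc ih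

end Pool.Agent.Helper19.QR
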