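import Pool.Agent.Helper19.QR.Clos

/-!
# Block QR-PJ: projection of an operation to a subset

Take `Ψ e = f ⁻¹' (cl Φ (f '' e))` (countable: `f` is injective, `countable_cl`). If `N` is closed under
`Ψ` and nonempty, then `cl Φ (f '' N)` is the union of the closed sets `cl Φ (f '' e)`, `e` a nonempty finite
subset of `N` (a directed union of closed sets is closed), so its preimage is the union of the
`Ψ e ⊆ N`. For empty `N` use `cl_empty`.
-/

set_option autoImplicit false

open Set Cardinal

namespace Pool.Agent.Helper19.QR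

variable {Ω : Type} {Φ : Finset Ω → Set Ω}

/-- The traces on `Ω'` of the closed sets contain all sets closed under a suitable operation. -/
theorem proj {Ω' : Type} (f : Ω' → Ω) (hf : Function.Injective f) (hΦ : CV Φ) :
    ∃ Ψ : Finset Ω' → Set Ω', CV Ψ ∧ ∀ N, Clo Ψ N → f ⁻¹' (cl Φ (f '' N)) = N := by
  classical
  refine ⟨fun e => f ⁻¹' (cl Φ (f '' (↑e : Set Ω'))), ?_, ?_⟩
  · intro e
    exact (countable_cl hΦ (e.finite_toSet.image f).countable).preimage hf
  · intro N hN
    refine Set.Subset.antisymm ?_ ?_
    · intro x hx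
      let M : {e : Finset Ω' // (↑e : Set Ω') ⊆ N} → Set Ω := fun e => cl Φ (f '' (↑e.1 : Set Ω'))
      have hd : Directed (· ⊆ ·) M := by
        intro e e'
        refine ⟨⟨e.1 ∪ e'.1, ?_⟩, ?_, ?_⟩
        · rw [Finset.coe_union]
          exact Set.union_subset e.2 e'.2
        · refine cl_mono (Set.image_mono ?_)
          exact Finset.coe_subset.2 Finset.subset_union_left
        · refine cl_mono (Set.image_mono ?_)
          exact Finset.coe_subset.2 Finset.subset_union_right
      have hc : Clo Φ (⋃ e, M e) := clo_iUnion hd fun e => clo_cl _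
      have hsub : f '' N ⊆ ⋃ e, M e := by
        rintro _ ⟨y, hy, rfl⟩
        refine Set.mem_iUnion.2 ⟨⟨{y}, ?_⟩, ?_⟩
        · rw [Finset.coe_singleton]
          exact Set.singleton_subset_iff.2 hy
        · exact subset_cl _ ⟨y, Finset.mem_coe.2 (Finset.mem_singleton_self y), rfl⟩
      obtain ⟨e, he⟩ := Set.mem_iUnion.1 (cl_min hsub hc hx)
      rcases e.1.eq_empty_or_nonempty with h0 | h0
      · have h1 : f x ∈ cl Φ (f '' (↑e.1 : Set Ω')) := he
        rw [h0, Finset.coe_empty, Set.image_empty, cl_empty] at h1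
        exact absurd h1 (Set.notMem_empty _)
      · exact hN e.1 h0 e.2 he
    · intro x hx
      exact subset_cl _ ⟨x, hx, rfl⟩

end Pool.Agent.Helper19.QR
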