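import Pool.Agent.Helper19.QR.TC
import Pool.Agent.Helper19.QR.Trees
import Pool.Agent.Helper15.QD.Reg

/-!
# Block QR-RS: bad stages of an increasing family miss a club

`κ` regular uncountable, `M α` (`α < κ`) increasing of cardinality `< κ`, `L α = {x | ∃ β < α, x ∈ M β}`. For
`α ∈ E`: the sequence `c α` has values in `L α`, `p α`, `q α` are in the closure of the points among its
values, they are `L α`-equivalent and separated by `g α`, which belongs to some `M β`. Then some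
unbounded set closed under limits is disjoint from `E`.

Proof. Choose `η α` with `inr (g α) ∈ M (η α)` for `α ∈ E`. Let
`E' = {α ∈ E | ∀ β < α, β ∈ E → η β < α}`. For `β < α` in `E'` we have `inr (g β) ∈ L α`. So `choice`
applies to all `J ⊆ E'` with `#J ≤ 𝔠`.

Let `R` be the set of all `t : κ.ord.ToType ⊕ List Ω`, `Ω = X ⊕ C(X, ℝ)`, such that `t = inl α`, or
`t = inr l` with all entries of `l` in `⋃ M β`. Apply `tc` to the type `R`, the set `E'`,
`nm α = inl α` and `a α = {inr l | l ∈ pre (c α)}`: this gives `Φ`. Let `Φ' e` be `Φ e` together with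
`inl (η β)` for `inl β ∈ e`, `β ∈ E`. Let `K α` be the set of all `inl β`, `β < α`, and all `inr l` with all
entries of `l` in `L α`. `#(K α) < κ` as `κ` is regular uncountable. `unbounded_clo` for `K`, `Φ'`
gives the set `C = {α | Clo Φ' (K α)}`, unbounded and closed under limits.

Let `α ∈ C ∩ E`. For `β < α` in `E`: `inl β ∈ K α`, so `inl (η β) ∈ K α`, `η β < α`. So
`α ∈ E'`. As `inl α ∉ K α`, some element of `a α` is not in `K α`; but all `c α n` are in `L α`: a
contradiction. (Proof in `Helper15/QD/Reg.lean`.)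
-/

set_option autoImplicit false

open Set Cardinal

namespace Pool.Agent.Helper19.QR

variable {X : Type} [TopologicalSpace X]

theorem bad_misses_club (h : CR) (hpp : ∀ U : Set (X ⊕ C(X, ℝ)), #U ≤ 𝔠 → PP U)
    {κ : Cardinal.{0}} (hκ : κ.IsRegular) (h0 : ℵ₀ < κ)
    (M : κ.ord.ToType → Set (X ⊕ C(X, ℝ))) (hM : Monotone M) (hcard : ∀ α, #(M α) < κ)
    (E : Set κ.ord.ToType) (c : κ.ord.ToType → ℕ → X ⊕ C(X, ℝ)) (g : κ.ord.ToType → C(X, ℝ))
    (p q : κ.ord.ToType → X)
    (hc : ∀ α ∈ E, ∀ n, ∃ β < α, c α n ∈ M β)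
    (hp : ∀ α ∈ E, p α ∈ closure (pts (range (c α))))
    (hq : ∀ α ∈ E, q α ∈ closure (pts (range (c α))))
    (hpq : ∀ α ∈ E, ∀ β < α, Eqv (M β) (p α) (q α))
    (hg : ∀ α ∈ E, g α (p α) ≠ g α (q α))
    (hgM : ∀ α ∈ E, ∃ β, Sum.inr (g α) ∈ M β) :
    ∃ C : Set κ.ord.ToType, (∀ α, ∃ β ∈ C, α < β) ∧
      (∀ α, (∃ β, β < α) → (∀ β < α, ∃ γ ∈ C, β < γ ∧ γ < α) → α ∈ C) ∧ Disjoint C E := by
  exact Helper15.QD.bad_misses_club (Helper15.CQ.dr_of_rc (rc_of_cr h)) hpp hκ h0 M hM hcard E c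
    g p q hc hp hq hpq hg hgM

end Pool.Agent.Helper19.QR
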