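import Pool.Agent.Helper19.QR.Fil

/-!
# Block QR-SF: injective choice from closed sets

Let the `a i` (`i ∈ J`) be countable and infinite, and suppose that for every closed `N` and
`i ∈ J` outside `N` the set `a i` meets `N` in a finite set. Then there is an injective choice
`h i ∈ a i`, avoiding any given finite sets `s i`.

Proof. Replace `Φ` by `Φ' e = Φ e ∪ {inr b : b ∈ a i, inl i ∈ e, i ∈ J}` (closed sets for `Φ'` are
closed for `Φ` and contain `a i` with `i`). By `fil` for `Φ'` it suffices to show for closed `N`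
the property `P N`: `SFree a {i ∈ J | inl i ∈ N}`.

* `N` countable: enumerate `{i ∈ J | inl i ∈ N}` and choose `h i` successively, in the infinite
  set `a i` outside the finite set `s i` and the finitely many former values (for instance: let
  `e` be an injection of this set into `ℕ`, and choose by strong recursion on `e i`).
* Increasing union `N = ⋃ j, M j`, given `s`: for `i ∈ J` with `inl i ∈ N` let `j(i)` be the least
  `j` with `inl i ∈ M j`, and `M' i = ⋃ k < j(i), M k`, a closed set (`clo_biUnion`) that does not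
  contain `inl i`, so `a i ∩ M' i` is finite. For every `j` let `h_j` be an injective choice on
  `{i ∈ J | inl i ∈ M j}` which avoids, for each `i`, `s i` and (if `inl i ∉ M j'` for all
  `j' < j`) the finite set `a i ∩ ⋃ k < j, M k`. Put `h i = h_{j(i)} i`. If `j(i) = j(i')` and
  `h i = h i'` then `i = i'`; if `j(i) < j(i')`, then `h i ∈ M j(i) ⊆ M' i'` (as `a i ⊆ M j(i)`),
  but `h i' ∉ M' i'`.

Finally apply this to the closed set `univ`.
-/

set_option autoImplicit false

open Set Cardinal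

namespace Pool.Agent.Helper19.QR

private theorem sfree_countable86 {I B : Type} [Nonempty B] (a : I → Set B) (K : Set I)
    (hK : K.Countable) (hi : ∀ i ∈ K, (a i).Infinite) (s : I → Finset B) :
    ∃ h : I → B, (∀ i ∈ K, h i ∈ a i ∧ h i ∉ s i) ∧ InjOn h K := by
  classical
  by_cases hne : K.Nonempty
  · obtain ⟨u, hu⟩ := hK.exists_eq_range hne
    have hp : ∀ (i : I) (T : Finset B), ∃ b : B, i ∈ K → (b ∈ a i ∧ b ∉ s i ∧ b ∉ T) := by
      intro i T
      by_cases hiK : i ∈ K
      · obtain ⟨b, hb, hb'⟩ := (hi i hiK).exists_notMem_finset (s i ∪ T)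
        refine ⟨b, fun _ => ⟨hb, fun h => hb' (Finset.mem_union_left _ h),
          fun h => hb' (Finset.mem_union_right _ h)⟩⟩
      · exact ⟨Classical.arbitrary B, fun h => absurd h hiK⟩
    choose pick hpick using hp
    let G : ℕ → Finset B := fun n => Nat.rec ∅ (fun n T => insert (pick (u n) T) T) n
    have hG : ∀ n, G (n + 1) = insert (pick (u n) (G n)) (G n) := fun n => rfl
    have hGm : Monotone G := by
      refine monotone_nat_of_le_succ fun n => ?_
      rw [hG]
      exact Finset.subset_insert _ _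
    have hn : ∀ i : I, ∃ n : ℕ, i ∈ K → u n = i := by
      intro i
      by_cases hiK : i ∈ K
      · rw [hu] at hiK
        obtain ⟨n, hn⟩ := hiK
        exact ⟨n, fun _ => hn⟩
      · exact ⟨0, fun h => absurd h hiK⟩
    choose n hn using hn
    have key : ∀ i ∈ K, ∀ j ∈ K, n i < n j → pick i (G (n i)) ≠ pick j (G (n j)) := by
      intro i hi' j hj hlt heq
      have h1 : pick i (G (n i)) ∈ G (n i + 1) := by
        rw [hG, hn i hi']
        exact Finset.mem_insert_self _ _
      have h2 := hGm (Nat.succ_le_of_lt hlt) h1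
      rw [heq] at h2
      exact (hpick j (G (n j)) hj).2.2 h2
    refine ⟨fun i => pick i (G (n i)), fun i hiK => ⟨(hpick i _ hiK).1, (hpick i _ hiK).2.1⟩, ?_⟩
    intro i hi' j hj heq
    rcases lt_trichotomy (n i) (n j) with h | h | h
    · exact absurd heq (key i hi' j hj h)
    · rw [← hn i hi', ← hn j hj, h]
    · exact absurd heq.symm (key j hj i hi' h)
  · rw [not_nonempty_iff_eq_empty] at hne
    subst hne
    exact ⟨fun _ => Classical.arbitrary B, by simp, by simp⟩

theorem sfree_of_clo {I B : Type} [Nonempty B] (a : I → Set B) (J : Set I)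
    (hc : ∀ i ∈ J, (a i).Countable) (hi : ∀ i ∈ J, (a i).Infinite)
    (Φ : Finset (I ⊕ B) → Set (I ⊕ B)) (hΦ : CV Φ)
    (hcl : ∀ N, Clo Φ N → ∀ i ∈ J, Sum.inl i ∉ N → (a i ∩ {b | Sum.inr b ∈ N}).Finite) :
    SFree a J := by
  classical
  let Ψ : Finset (I ⊕ B) → Set (I ⊕ B) := fun e =>
    Φ e ∪ ⋃ i ∈ {i : I | i ∈ J ∧ Sum.inl i ∈ e}, Sum.inr '' a i
  have hΨ : CV Ψ := by
    intro e
    refine (hΦ e).union ?_
    have hf : {i : I | i ∈ J ∧ Sum.inl i ∈ e}.Finite := by
      have h1 : ((Sum.inl : I → I ⊕ B) ⁻¹' (↑e : Set (I ⊕ B))).Finite :=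
        e.finite_toSet.preimage (Sum.inl_injective.injOn)
      exact h1.subset fun i hi => hi.2
    exact hf.countable.biUnion fun i hi => (hc i hi.1).image _
  have hle : ∀ e, Φ e ⊆ Ψ e := fun e => subset_union_left
  have hmem : ∀ N, Clo Ψ N → ∀ i ∈ J, Sum.inl i ∈ N → ∀ b ∈ a i, Sum.inr b ∈ N := by
    intro N hN i hiJ hiN b hb
    refine hN {Sum.inl i} (Finset.singleton_nonempty _) (by simpa using hiN) ?_
    refine Or.inr ?_
    simp only [mem_iUnion]
    exact ⟨i, ⟨hiJ, by simp⟩, b, hb, rfl⟩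
  have main : ∀ N, Clo Ψ N → SFree a {i | i ∈ J ∧ Sum.inl i ∈ N} := by
    refine fil hΨ (fun N => SFree a {i | i ∈ J ∧ Sum.inl i ∈ N}) ?_ ?_
    · intro N _ hN s
      refine sfree_countable86 a _ ?_ (fun i hi' => hi i hi'.1) s
      have h1 : ((Sum.inl : I → I ⊕ B) ⁻¹' N).Countable :=
        hN.preimage_of_injOn (Sum.inl_injective.injOn)
      exact h1.mono fun i hi' => hi'.2
    · intro ι _ _ M hM hclo hP s
      have hfin : ∀ (j : ι) (i : I), ∃ T : Finset B, i ∈ J → Sum.inl i ∉ (⋃ k ∈ Iio j, M k) →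
          ∀ b ∈ a i, Sum.inr b ∈ (⋃ k ∈ Iio j, M k) → b ∈ T := by
        intro j i
        by_cases h : i ∈ J ∧ Sum.inl i ∉ (⋃ k ∈ Iio j, M k)
        · have h1 := hcl _ (clo_biUnion hM (fun k => clo_mono hle (hclo k)) (Iio j)) i h.1 h.2
          refine ⟨h1.toFinset, fun _ _ b hb hb' => ?_⟩
          rw [Set.Finite.mem_toFinset]
          exact ⟨hb, hb'⟩
        · exact ⟨∅, fun h1 h2 => absurd ⟨h1, h2⟩ h⟩
      choose T hT using hfin
      choose H hH using fun j => hP j (fun i => s i ∪ T j i)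
      have hmin : ∀ i : I, Sum.inl i ∈ (⋃ j, M j) → ∃ j, Sum.inl i ∈ M j ∧
          ∀ k < j, Sum.inl i ∉ M k := by
        intro i hi'
        rw [mem_iUnion] at hi'
        obtain ⟨j, hj, hj'⟩ := (wellFounded_lt (α := ι)).has_min {j | Sum.inl i ∈ M j} hi'
        exact ⟨j, hj, fun k hk hk' => hj' k hk' hk⟩
      choose jj hjj using hmin
      refine ⟨fun i => if h : Sum.inl i ∈ (⋃ j, M j) then H (jj i h) i
        else Classical.arbitrary B, ?_, ?_⟩
      · intro i hi'
        have hiM : Sum.inl i ∈ (⋃ j, M j) := hi'.2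
        simp only [dif_pos hiM]
        have h1 := (hH (jj i hiM)).1 i ⟨hi'.1, (hjj i hiM).1⟩
        exact ⟨h1.1, fun h => h1.2 (Finset.mem_union_left _ h)⟩
      · have key : ∀ i ∈ J, ∀ (hiM : Sum.inl i ∈ (⋃ j, M j)), ∀ i' ∈ J,
            ∀ (hiM' : Sum.inl i' ∈ (⋃ j, M j)), jj i hiM < jj i' hiM' →
            H (jj i hiM) i ≠ H (jj i' hiM') i' := by
          intro i hiJ hiM i' hiJ' hiM' hlt heq
          have h1 := (hH (jj i hiM)).1 i ⟨hiJ, (hjj i hiM).1⟩
          have h2 := hmem _ (hclo (jj i hiM)) i hiJ (hjj i hiM).1 _ h1.1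
          have h3 := (hH (jj i' hiM')).1 i' ⟨hiJ', (hjj i' hiM').1⟩
          refine h3.2 (Finset.mem_union_right _ ?_)
          refine hT (jj i' hiM') i' hiJ' ?_ _ h3.1 ?_
          · intro h
            simp only [mem_iUnion] at h
            obtain ⟨k, hk, hk'⟩ := h
            exact (hjj i' hiM').2 k hk hk'
          · simp only [mem_iUnion]
            refine ⟨jj i hiM, hlt, ?_⟩
            rw [← heq]
            exact h2
        intro i hi' i' hi'' heq
        have hiM : Sum.inl i ∈ (⋃ j, M j) := hi'.2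
        have hiM' : Sum.inl i' ∈ (⋃ j, M j) := hi''.2
        simp only [dif_pos hiM, dif_pos hiM'] at heq
        rcases lt_trichotomy (jj i hiM) (jj i' hiM') with h | h | h
        · exact absurd heq (key i hi'.1 hiM i' hi''.1 hiM' h)
        · have h3 : Sum.inl i' ∈ M (jj i hiM) := by
            rw [h]
            exact (hjj i' hiM').1
          rw [← h] at heq
          exact (hH (jj i hiM)).2 ⟨hi'.1, (hjj i hiM).1⟩ ⟨hi''.1, h3⟩ heq
        · exact absurd heq.symm (key i' hi''.1 hiM' i hi'.1 hiM h)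
  have h1 := main univ (fun _ _ _ => subset_univ _)
  have h2 : {i | i ∈ J ∧ (Sum.inl i : I ⊕ B) ∈ (univ : Set (I ⊕ B))} = J := by
    ext i
    simp
  rw [h2] at h1
  exact h1

end Pool.Agent.Helper19.QR
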