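import Pool.Agent.Helper19.QR.Proj
import Pool.Agent.Helper15.CQ.Trans

/-!
# Block QR-TC: clique reflection gives transversal compactness

Countable nonempty sets `a i ⊆ Ω` (`i ∈ E`) with names `nm i : Ω`. If every `J ⊆ E` with
`#J ≤ 𝔠` has an injective choice, then there is an operation `Φ` such that every closed set `N` which does
not contain the name of `i ∈ E` does not contain `a i`. (Proof in `Helper15/CQ/{Closed,Tree,Trans}.lean`.)
-/

set_option autoImplicit false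

open Set Cardinal

namespace Pool.Agent.Helper19.QR

theorem cr_cq (h : CR) : Helper15.CQ.CR.{0} := by
  intro V S hS hW
  obtain ⟨f, hf⟩ := h V S hS (fun W hWc => by
    obtain ⟨f, hf⟩ := hW W hWc
    exact ⟨f, fun n A hA hA' hcl => hf n A (fun v hv => ⟨hA hv, hA' v hv⟩) hcl⟩)
  exact ⟨f, fun n A hA hcl => hf n A (subset_univ _) (fun v hv => hA hv) hcl⟩

theorem tc (h : CR) {Ω I : Type} (E : Set I) (nm : I → Ω) (a : I → Set Ω)
    (hc : ∀ i ∈ E, (a i).Countable) (hne : ∀ i ∈ E, (a i).Nonempty)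
    (hloc : ∀ J ⊆ E, #J ≤ 𝔠 → ∃ h : I → Ω, (∀ i ∈ J, h i ∈ a i) ∧ InjOn h J) :
    ∃ Φ : Finset Ω → Set Ω, CV Φ ∧
      ∀ N, Clo Φ N → ∀ i ∈ E, nm i ∉ N → ∃ b ∈ a i, b ∉ N := by
  obtain ⟨Φ, h1, h2⟩ := Helper15.CQ.transversal (cr_cq h) (Ω := Ω) (I := E) (fun i => a i) (fun i => hc i i.2)
    (fun i => hne i i.2) (fun i => nm i) (fun J hJ => by
      obtain ⟨g, hg, hg'⟩ := hloc (Subtype.val '' J) (by rintro _ ⟨i, _, rfl⟩; exact i.2)
        ((Cardinal.mk_image_eq Subtype.val_injective).le.trans hJ)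
      refine ⟨fun i => g i, fun i hi j hj hij => ?_, fun i hi => hg i ⟨i, hi, rfl⟩⟩
      exact Subtype.ext (hg' ⟨i, hi, rfl⟩ ⟨j, hj, rfl⟩ hij))
  refine ⟨Φ, h1, fun N hN i hi hi' => ?_⟩
  have h3 := h2 N hN ⟨i, hi⟩ hi'
  rw [not_subset] at h3
  exact h3

end Pool.Agent.Helper19.QR
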