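import Pool.Agent.Helper19.QR.Core

/-!
# Block QR-TI: countable tightness

Let all closures of sets of size `≤ 𝔠` in the compact Hausdorff space `X` embed in some `c₀(Γ)`. Then
`X` is countably tight.

Proof. Let `B` be a set and `B' = {x | ∃ D ⊆ B, D.Countable ∧ x ∈ closure D}`; `B ⊆ B'`, and
`closure D ⊆ B'` for countable `D ⊆ B'` (choose a countable subset of `B` for each point of `D` and take
the union). Suppose `x ∈ closure B`, `x ∉ B'`.

(1) If `f_0, f_1, ... : C(X, ℝ)` (countably many) vanish at `x`, there is `y ∈ B'` with `f_n y = 0` for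
all `n`. For each `n` there is `b_n ∈ B` with `|f_k b_n| < 1/(n+1)` for `k ≤ n`; the
sequence has a cluster point `y` in the compact set `closure {b_n}`, contained in `B'`.

(2) By recursion on `ω₁` choose `y_α ∈ B'` and `f_α : C(X, ℝ)` (`α < ω₁`, e.g. `α` in
`ω₁.ToType` or `(Cardinal.aleph 1).ord.ToType`, with `{β | β < α}` countable) such that
`f_α x = 0`, `f_α = 1` on `closure {y_β | β < α}` (Urysohn: this closed set is contained in `B'`, so
does not contain `x`), and `f_β y_α = 0` for all `β ≤ α` (by (1)).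

(3) Let `A = {y_α | α < ω₁}`, `#A ≤ ℵ₁ ≤ 𝔠`. The closed nonempty sets `closure {y_β | β ≥ α}` decrease, so
there is a point `z` in all of them; `f_α z = 0` for all `α`. As `z ∈ closure A` and `closure A`
embeds in `c₀(Γ)`, `countable_of_embeds` (`Helper93/EC/Measure.lean`) gives a countable `D ⊆ A` with
`z ∈ closure D`. As `D` is countable, `D ⊆ {y_β | β < α}` for some `α`, so `f_α z = 1`: a contradiction.
-/

set_option autoImplicit false

open Set Cardinal

namespace Pool.Agent.Helper19.QR

open Pool.Agent.Helper93.EC (EmbedsC0)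

/-- A well-ordered set of size `ℵ₁` with countable initial segments. -/
theorem exists_index38 : ∃ (I : Type) (_ : LinearOrder I) (_ : WellFoundedLT I),
    (∀ i : I, (Iio i).Countable) ∧ #I = aleph 1 := by
  refine ⟨(aleph 1).ord.ToType, inferInstance, inferInstance, fun i => ?_, ?_⟩
  · rw [← le_aleph0_iff_set_countable, ← lt_aleph_one_iff]
    have h := mk_Iio_lt i (by simp)
    rwa [mk_ord_toType] at h
  · rw [mk_ord_toType]

/-- Recursion along a well-founded order. -/
theorem exists_rec38 {I S : Type} [LinearOrder I] [WellFoundedLT I]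
    (P : ∀ i : I, (Iio i → S) → S → Prop) (h : ∀ i g, ∃ s, P i g s) :
    ∃ F : I → S, ∀ i, P i (fun j => F j) (F i) := by
  choose G hG using h
  let F : I → S := (wellFounded_lt (α := I)).fix (fun i ih => G i (fun j => ih j.1 j.2))
  refine ⟨F, fun i => ?_⟩
  have h1 : F i = G i (fun j : Iio i => F j) := (wellFounded_lt (α := I)).fix_eq _ i
  rw [h1]
  exact hG i _

/-- A countable family of functions vanishing at a point of the closure of `B` has a common zero in
the closure of a countable subset of `B`. -/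
theorem exists_zero38 {X : Type} [TopologicalSpace X] [CompactSpace X] {B : Set X} {x : X}
    (hx : x ∈ closure B) (F : Set C(X, ℝ)) (hF : F.Countable) (h0 : ∀ f ∈ F, f x = 0) :
    ∃ y, (∃ D ⊆ B, D.Countable ∧ y ∈ closure D) ∧ ∀ f ∈ F, f y = 0 := by
  have hF2 : (insert (0 : C(X, ℝ)) F).Countable := hF.insert _
  obtain ⟨f, hf⟩ := hF2.exists_eq_range (insert_nonempty _ _)
  have hfx : ∀ n, f n x = 0 := by
    intro n
    have h1 : f n ∈ insert (0 : C(X, ℝ)) F := hf ▸ mem_range_self n
    rcases h1 with h1 | h1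
    · rw [h1]
      rfl
    · exact h0 _ h1
  have hb : ∀ n : ℕ, ∃ b ∈ B, ∀ k ≤ n, |f k b| < 1 / ((n : ℝ) + 1) := by
    intro n
    have hopen : IsOpen (⋂ k ∈ Finset.range (n + 1), {z : X | |f k z| < 1 / ((n : ℝ) + 1)}) := by
      refine isOpen_biInter_finset fun k _ => ?_
      exact isOpen_lt (f k).continuous.abs continuous_const
    have hxm : x ∈ ⋂ k ∈ Finset.range (n + 1), {z : X | |f k z| < 1 / ((n : ℝ) + 1)} := by
      simp only [mem_iInter, mem_ofPred_eq]
      intro k _
      rw [hfx k, abs_zero]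
      positivity
    obtain ⟨b, hb1, hb2⟩ := mem_closure_iff.1 hx _ hopen hxm
    refine ⟨b, hb2, fun k hk => ?_⟩
    simp only [mem_iInter, mem_ofPred_eq] at hb1
    exact hb1 k (Finset.mem_range.2 (Nat.lt_succ_of_le hk))
  choose b hbB hb using hb
  obtain ⟨y, hy⟩ := exists_clusterPt_of_compactSpace (Filter.map b Filter.atTop)
  have hy' : MapClusterPt y Filter.atTop b := hy
  refine ⟨y, ⟨range b, ?_, countable_range b, ?_⟩, ?_⟩
  · rintro _ ⟨n, rfl⟩
    exact hbB n
  · rw [mem_closure_iff_nhds]
    intro U hU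
    obtain ⟨n, hn⟩ := (mapClusterPt_iff_frequently.1 hy' U hU).exists
    exact ⟨b n, hn, mem_range_self n⟩
  · intro g hg
    obtain ⟨k, hk⟩ : g ∈ range f := hf ▸ mem_insert_of_mem _ hg
    by_contra hne
    have hpos : 0 < |g y| := abs_pos.2 hne
    obtain ⟨m, hm⟩ := exists_nat_one_div_lt hpos
    have hU : {z : X | 1 / ((m : ℝ) + 1) < |g z|} ∈ nhds y :=
      (isOpen_lt continuous_const g.continuous.abs).mem_nhds hm
    have hfr := mapClusterPt_iff_frequently.1 hy' _ hU
    rw [Filter.frequently_atTop] at hfr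
    obtain ⟨n, hn1, hn2⟩ := hfr (max k m)
    have h3 := hb n k ((le_max_left _ _).trans hn1)
    rw [hk] at h3
    have h4 : (1 : ℝ) / ((n : ℝ) + 1) ≤ 1 / ((m : ℝ) + 1) := by
      have : (m : ℝ) ≤ n := by exact_mod_cast (le_max_right k m).trans hn1
      apply one_div_le_one_div_of_le (by positivity)
      linarith
    exact absurd (h3.trans_le h4) (not_lt.2 (le_of_lt hn2))

theorem tight_of_small {X : Type} [TopologicalSpace X] [CompactSpace X] [T2Space X]
    (hX : ∀ A : Set X, #A ≤ 𝔠 → EmbedsC0 (closure A)) : Tight X := by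
  classical
  intro B x hxB
  by_contra hcon
  push Not at hcon
  let B' : Set X := {z | ∃ D ⊆ B, D.Countable ∧ z ∈ closure D}
  have hxB' : x ∉ B' := fun ⟨D, h1, h2, h3⟩ => hcon D h1 h2 h3
  have hcl : ∀ E ⊆ B', E.Countable → closure E ⊆ B' := by
    intro E hE hc z hz
    have hch : ∀ e : E, ∃ D ⊆ B, D.Countable ∧ (e : X) ∈ closure D := fun e => hE e.2
    choose D hD1 hD2 hD3 using hch
    have := hc.to_subtype
    refine ⟨⋃ e : E, D e, iUnion_subset hD1, countable_iUnion hD2, ?_⟩
    refine closure_minimal (fun e he => ?_) isClosed_closure hz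
    exact closure_mono (subset_iUnion D ⟨e, he⟩) (hD3 ⟨e, he⟩)
  obtain ⟨I, _, _, hIc, hI⟩ := exists_index38
  -- the recursion
  let S : Type := {p : X × C(X, ℝ) // p.1 ∈ B' ∧ p.2 x = 0}
  obtain ⟨F, hF⟩ := exists_rec38 (I := I) (S := S)
    (fun i g s => (∀ z ∈ closure (range fun j : Iio i => (g j).1.1), s.1.2 z = 1) ∧
      (∀ j : Iio i, (g j).1.2 s.1.1 = 0) ∧ s.1.2 s.1.1 = 0) (by
      intro i g
      have := (hIc i).to_subtype
      have hsub : closure (range fun j : Iio i => (g j).1.1) ⊆ B' := by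
        refine hcl _ ?_ (countable_range _)
        rintro _ ⟨j, rfl⟩
        exact (g j).2.1
      obtain ⟨f, hf0, hf1, -⟩ := exists_continuous_zero_one_of_isClosed
        (isClosed_singleton (x := x)) (isClosed_closure (s := range fun j : Iio i => (g j).1.1))
        (Set.disjoint_singleton_left.2 fun h => hxB' (hsub h))
      have hfx : f x = 0 := hf0 (mem_singleton x)
      obtain ⟨y, hy1, hy2⟩ := exists_zero38 hxB (insert f (range fun j : Iio i => (g j).1.2))
        ((countable_range _).insert _) (by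
          rintro h (rfl | ⟨j, rfl⟩)
          · exact hfx
          · exact (g j).2.2)
      refine ⟨⟨(y, f), hy1, hfx⟩, fun z hz => hf1 hz, fun j => ?_, ?_⟩
      · exact hy2 _ (mem_insert_of_mem _ (mem_range_self j))
      · exact hy2 _ (mem_insert _ _))
  have hI0 : Nonempty I := by
    rw [← mk_ne_zero_iff, hI]
    exact (aleph_pos 1).ne'
  have hIunc : ¬ Countable I := by
    intro hc
    have h1 : #I ≤ aleph0 := mk_le_aleph0_iff.2 hc
    rw [hI] at h1
    exact absurd h1 (not_le.2 aleph0_lt_aleph_one)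
  let y : I → X := fun i => (F i).1.1
  let f : I → C(X, ℝ) := fun i => (F i).1.2
  have hf1 : ∀ i j : I, j < i → ∀ z ∈ closure (y '' Iio i), f i z = 1 := by
    intro i j _ z hz
    refine (hF i).1 z ?_
    have : (range fun j : Iio i => (F j).1.1) = y '' Iio i := by
      ext w
      constructor
      · rintro ⟨j, rfl⟩
        exact ⟨j.1, j.2, rfl⟩
      · rintro ⟨j, hj, rfl⟩
        exact ⟨⟨j, hj⟩, rfl⟩
    rw [this]
    exact hz
  have hf0 : ∀ i j : I, i ≤ j → f i (y j) = 0 := by
    intro i j hij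
    rcases hij.eq_or_lt with h | h
    · subst h
      exact (hF i).2.2
    · exact (hF j).2.1 ⟨i, h⟩
  obtain ⟨z, hz⟩ := exists_clusterPt_of_compactSpace (Filter.map y Filter.atTop)
  have hz' : MapClusterPt z Filter.atTop y := hz
  have hfz : ∀ i, f i z = 0 := by
    intro i
    by_contra hne
    have hU : {w : X | f i w ≠ 0} ∈ nhds z :=
      (isOpen_ne_fun (f i).continuous continuous_const).mem_nhds hne
    have hfr := mapClusterPt_iff_frequently.1 hz' _ hU
    rw [Filter.frequently_atTop] at hfr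
    obtain ⟨j, hj1, hj2⟩ := hfr i
    exact hj2 (hf0 i j hj1)
  have hzA : z ∈ closure (range y) := by
    rw [mem_closure_iff_nhds]
    intro U hU
    obtain ⟨i, hi⟩ := (mapClusterPt_iff_frequently.1 hz' U hU).exists
    exact ⟨y i, hi, mem_range_self i⟩
  have hA : #(range y) ≤ 𝔠 := by
    refine mk_range_le.trans ?_
    rw [hI]
    exact aleph_one_le_continuum
  obtain ⟨D, hD1, hD2, hD3⟩ :=
    Pool.Agent.Helper93.EC.countable_of_embeds (hX _ hA) hzA
  have hch : ∀ d : D, ∃ i, y i = d := fun d => hD1 d.2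
  choose k hk using hch
  have hDc := hD2.to_subtype
  have hcov : (⋃ d : D, Iic (k d)).Countable := by
    refine countable_iUnion fun d => ?_
    rw [← Iio_insert]
    exact (hIc _).insert _
  obtain ⟨i, hi⟩ : ∃ i, i ∉ ⋃ d : D, Iic (k d) := by
    by_contra hall
    push Not at hall
    apply hIunc
    rw [← countable_univ_iff]
    exact hcov.mono fun i _ => hall i
  simp only [mem_iUnion, mem_Iic, not_exists, not_le] at hi
  have hDsub : D ⊆ y '' Iio i := fun d hd => ⟨k ⟨d, hd⟩, hi ⟨d, hd⟩, hk ⟨d, hd⟩⟩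
  have hzc : z ∈ closure (y '' Iio i) := closure_mono hDsub hD3
  have hne : (y '' Iio i).Nonempty := closure_nonempty_iff.1 ⟨z, hzc⟩
  obtain ⟨_, j, hj, -⟩ := hne
  have h1 := hf1 i j hj z hzc
  rw [hfz i] at h1
  exact zero_ne_one h1

end Pool.Agent.Helper19.QR
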