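import Pool.Agent.Helper19.QR.Proj

/-!
# Block QR-TG: closed sets from a colouring of the tree of chains

Suppose the nodes (`IsNode S w`) are coloured by `f` such that there is no infinite set of pairwise comparable
(`Init`) nodes of one colour. Then there is an operation `Φ` with countable values such that no
nonempty countable closed set belongs to `S`.

Proof. If there is a countable `A` contained in no member of `S`, let `Φ e = A`. So assume that every
countable `A` is contained in a member of `S`.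

Extensions. (a) There is a node: `{M}` for any `M ∈ S`; fix one, `C₀`. (b) For every node `C` and
`x : Ω` there is a node `E` with `Init C E`, `C ≠ E`, whose largest member contains `x`: if `T` is the
largest member of `C`, take `M' ∈ S` containing the countable set `insert x (insert (w T) T)` and
`E = insert M' C`; fix one, `ext₂ C x`. (c) For a node `C` and `n : ℕ`, if there is a node `E` with
`Init C E`, `C ≠ E` and `f E = n`, fix one, `ext₁ C n`; otherwise `ext₁ C n = C`.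

Work on `Ω ⊕ Set (Set Ω)`; let `Φ* e` (a countable set) consist of `inr C₀`, and, for every
node `C` with `inr C ∈ e`: all `inl x` with `x ∈ insert (w T) T`, `T` the largest member of `C`; all
`inr (ext₁ C n)`, `n : ℕ`; and all `inr (ext₂ C x)` with `inl x ∈ e`. Let `Φ` be the operation given
by `proj` for `f = Sum.inl`: for closed `N`, `N` is the set of `x` with `inl x ∈ N*`,
`N* = cl Φ* (Sum.inl '' N)`.

Let `N` be nonempty, countable, closed under `Φ`, and suppose `N ∈ S`. Let `x : ℕ → Ω` enumerate `N`.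
Define nodes `C_k` (with `inr C_k ∈ N*`): `C_0 = C₀`, `C_{k+1} = ext₂ (ext₁ C_k (k.unpair.1)) (x_k)`.
They form a strictly increasing sequence of initial segments. Let `𝒟 = (⋃ k, C_k) ∪ {N}`.
`𝒟` is a node: the largest members `T_k` of `C_k` satisfy `insert (w T_k) T_k ⊆ N`, `T_k ⊂ T_{k+1}`, and
`⋃ T_k = N` as `x_k ∈ T_{k+1}`; every member of `C_k` is contained in `T_k`; so `N` is strictly above
all members of the `C_k`, and `cont` holds at `N` by the third alternative (at a member `M` of `C_k` it holds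
since `C_k` is an initial segment, so that the members of `𝒟` below `M` are those of `C_k`);
`wf`: a nonempty set `D` of members of `𝒟` is `{N}` or meets some `C_k`, and the least member of
`D ∩ C_k` is the least member of `D`. Moreover `Init C_k 𝒟`, and the same for `ext₁ C_k n`.

Let `n = f 𝒟`. For each `k` with `k.unpair.1 = n` there is a node `E` with `Init C_k E`, `E ≠ C_k` and
`f E = n`, namely `𝒟`; so `C'_k = ext₁ C_k n` has colour `n`, and it lies strictly between `C_k` and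
`C_{k+1}`. There are infinitely many such `k`, so `{C'_k}` is an infinite set of comparable nodes
of colour `n`: a contradiction.
-/

set_option autoImplicit false

open Set Cardinal

namespace Pool.Agent.Helper19.QR

private theorem init_refl85 {Ω : Type} (C : Set (Set Ω)) : Init C C :=
  ⟨Subset.rfl, fun M hM _ _ _ => hM⟩

private theorem init_trans85 {Ω : Type} {A B C : Set (Set Ω)} (h : Init A B) (h' : Init B C) :
    Init A C := by
  refine ⟨h.1.trans h'.1, fun M hM M' hM' hle => ?_⟩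
  exact h.2 M (h'.2 M hM M' (h.1 hM') hle) M' hM' hle

/-- the members of a node are strictly below every set strictly above the largest member -/
private theorem below85 {Ω : Type} {S : Set (Set Ω)} {w : Set Ω → Ω} (hw : ∀ M ∈ S, w M ∉ M)
    {C : Set (Set Ω)} (hC : IsNode S w C) {T N : Set Ω} (hT : T ∈ C) (hT' : ∀ M ∈ C, M ⊆ T)
    (hN : insert (w T) T ⊆ N) {M : Set Ω} (hM : M ∈ C) : insert (w M) M ⊆ N := by
  rcases hC.chain M hM T hT with h | h | h
  · rw [h]
    exact hN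
  · exact (h.trans (subset_insert _ _)).trans hN
  · exfalso
    exact hw T (hC.sub hT) (hT' M hM (h (mem_insert _ _)))

private theorem node_single85 {Ω : Type} {S : Set (Set Ω)} {w : Set Ω → Ω} {M : Set Ω} (hM : M ∈ S) :
    IsNode S w {M} := by
  refine ⟨?_, countable_singleton M, ?_, ?_, ?_, ?_⟩
  · rintro _ rfl
    exact hM
  · rintro _ rfl _ rfl
    exact Or.inl rfl
  · intro D hD hne
    obtain ⟨M', hM'⟩ := hne
    refine ⟨M', hM', fun M'' hM'' => ?_⟩
    rw [hD hM', hD hM'']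
  · rintro _ rfl
    refine Or.inl ?_
    rintro _ rfl h
    exact h.2 Subset.rfl
  · refine ⟨M, rfl, ?_⟩
    rintro _ rfl
    exact Subset.rfl

private theorem node_insert85 {Ω : Type} {S : Set (Set Ω)} {w : Set Ω → Ω}
    (hw : ∀ M ∈ S, w M ∉ M) {C : Set (Set Ω)} (hC : IsNode S w C) {T N : Set Ω} (hT : T ∈ C)
    (hT' : ∀ M ∈ C, M ⊆ T) (hN : insert (w T) T ⊆ N) (hNS : N ∈ S) :
    IsNode S w (insert N C) ∧ Init C (insert N C) ∧ C ≠ insert N C ∧
      ∀ M ∈ insert N C, M ⊆ N := by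
  have hTN : T ⊆ N := (subset_insert _ _).trans hN
  have hwT : w T ∉ T := hw T (hC.sub hT)
  have hwN : w T ∈ N := hN (mem_insert _ _)
  have hNC : N ∉ C := fun h => hwT (hT' N h hwN)
  have hnle : ∀ M ∈ C, ¬ N ⊆ M := fun M hM h => hwT (hT' M hM (h hwN))
  have hall : ∀ M ∈ insert N C, M ⊆ N := by
    rintro M (rfl | hM)
    · exact Subset.rfl
    · exact (hT' M hM).trans hTN
  refine ⟨⟨?_, ?_, ?_, ?_, ?_, ?_⟩, ⟨subset_insert _ _, ?_⟩, ?_, hall⟩
  · rintro M (rfl | hM)
    · exact hNS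
    · exact hC.sub hM
  · exact hC.count.insert N
  · rintro M (rfl | hM) M' (rfl | hM')
    · exact Or.inl rfl
    · exact Or.inr (Or.inr (below85 hw hC hT hT' hN hM'))
    · exact Or.inr (Or.inl (below85 hw hC hT hT' hN hM))
    · exact hC.chain M hM M' hM'
  · intro D hD hne
    by_cases h : (D ∩ C).Nonempty
    · obtain ⟨M, hM, hM'⟩ := hC.wf (D ∩ C) inter_subset_right h
      refine ⟨M, hM.1, fun M'' hM'' => ?_⟩
      rcases hD hM'' with h1 | h1
      · rw [h1]
        exact hall M (Or.inr hM.2)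
      · exact hM' M'' ⟨hM'', h1⟩
    · obtain ⟨M, hM⟩ := hne
      have h1 : ∀ M' ∈ D, M' = N := by
        intro M' hM'
        rcases hD hM' with h2 | h2
        · exact h2
        · exact absurd ⟨M', hM', h2⟩ h
      refine ⟨M, hM, fun M' hM' => ?_⟩
      rw [h1 M hM, h1 M' hM']
  · intro M hM
    by_cases hMN : M = N
    · refine Or.inr (Or.inl ⟨T, Or.inr hT, ?_, ?_⟩)
      · rw [hMN]
        exact ⟨hTN, fun h => hwT (h hwN)⟩
      · rintro M'' (h1 | h1) h2
        · rw [h1, hMN] at h2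
          exact absurd Subset.rfl h2.2
        · exact hT' M'' h1
    · have hMC : M ∈ C := by
        rcases hM with h | h
        · exact absurd h hMN
        · exact h
      have hlow : ∀ M' ∈ insert N C, M' ⊂ M → M' ∈ C := by
        rintro M' (h | h) h'
        · rw [h] at h'
          exact absurd h'.1 (hnle M hMC)
        · exact h
      rcases hC.cont M hMC with h | ⟨M', h1, h2, h3⟩ | h
      · exact Or.inl fun M' hM' h' => h M' (hlow M' hM' h') h'
      · exact Or.inr (Or.inl ⟨M', Or.inr h1, h2, fun M'' hM'' h' => h3 M'' (hlow M'' hM'' h') h'⟩)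
      · refine Or.inr (Or.inr fun x hx => ?_)
        obtain ⟨M', h1, h2⟩ := h x hx
        exact ⟨M', Or.inr h1, h2⟩
  · exact ⟨N, mem_insert _ _, hall⟩
  · rintro M (h | h) M' hM' hle
    · rw [h] at hle
      exact absurd hle (hnle M' hM')
    · exact h
  · intro h
    exact hNC (by rw [h]; exact mem_insert _ _)

/-- the limit of an increasing sequence of nodes -/
private theorem node_limit85 {Ω : Type} {S : Set (Set Ω)} {w : Set Ω → Ω}
    (hw : ∀ M ∈ S, w M ∉ M) (C : ℕ → Set (Set Ω)) (hC : ∀ k, IsNode S w (C k))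
    (hI : ∀ j k, j ≤ k → Init (C j) (C k)) (T : ℕ → Set Ω) (hT : ∀ k, T k ∈ C k)
    (hT' : ∀ k, ∀ M ∈ C k, M ⊆ T k) {N : Set Ω} (hNS : N ∈ S)
    (hN : ∀ k, insert (w (T k)) (T k) ⊆ N) (hcov : ∀ x ∈ N, ∃ k, x ∈ T k) :
    IsNode S w (insert N (⋃ k, C k)) ∧ ∀ k, Init (C k) (insert N (⋃ k, C k)) ∧ N ∉ C k := by
  have hTN : ∀ k, T k ⊆ N := fun k => (subset_insert _ _).trans (hN k)
  have hwT : ∀ k, w (T k) ∉ T k := fun k => hw _ ((hC k).sub (hT k))
  have hwN : ∀ k, w (T k) ∈ N := fun k => hN k (mem_insert _ _)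
  have hnle : ∀ k, ∀ M ∈ C k, ¬ N ⊆ M := fun k M hM h => hwT k (hT' k M hM (h (hwN k)))
  have hall : ∀ M ∈ insert N (⋃ k, C k), M ⊆ N := by
    rintro M (rfl | hM)
    · exact Subset.rfl
    · obtain ⟨k, hk⟩ := mem_iUnion.1 hM
      exact (hT' k M hk).trans (hTN k)
  have hbel : ∀ k, ∀ M ∈ C k, insert (w M) M ⊆ N := fun k M hM =>
    below85 hw (hC k) (hT k) (hT' k) (hN k) hM
  have hdown : ∀ k, ∀ M ∈ insert N (⋃ k, C k), ∀ M' ∈ C k, M ⊆ M' → M ∈ C k := by
    rintro k M (h | h) M' hM' hle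
    · rw [h] at hle
      exact absurd hle (hnle k M' hM')
    · obtain ⟨j, hj⟩ := mem_iUnion.1 h
      exact (hI k (max k j) (le_max_left _ _)).2 M ((hI j (max k j) (le_max_right _ _)).1 hj) M' hM'
        hle
  refine ⟨⟨?_, ?_, ?_, ?_, ?_, ?_⟩, fun k => ⟨⟨?_, hdown k⟩, ?_⟩⟩
  · rintro M (rfl | hM)
    · exact hNS
    · obtain ⟨k, hk⟩ := mem_iUnion.1 hM
      exact (hC k).sub hk
  · exact (countable_iUnion fun k => (hC k).count).insert N
  · rintro M (rfl | hM) M' (rfl | hM')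
    · exact Or.inl rfl
    · obtain ⟨k, hk⟩ := mem_iUnion.1 hM'
      exact Or.inr (Or.inr (hbel k M' hk))
    · obtain ⟨k, hk⟩ := mem_iUnion.1 hM
      exact Or.inr (Or.inl (hbel k M hk))
    · obtain ⟨k, hk⟩ := mem_iUnion.1 hM
      obtain ⟨j, hj⟩ := mem_iUnion.1 hM'
      exact (hC (max k j)).chain M ((hI k (max k j) (le_max_left _ _)).1 hk) M'
        ((hI j (max k j) (le_max_right _ _)).1 hj)
  · intro D hD hne
    by_cases h : ∃ k, (D ∩ C k).Nonempty
    · obtain ⟨k, hk⟩ := h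
      obtain ⟨M, hM, hM'⟩ := (hC k).wf (D ∩ C k) inter_subset_right hk
      refine ⟨M, hM.1, fun M'' hM'' => ?_⟩
      rcases hD hM'' with h1 | h1
      · rw [h1]
        exact hall M (Or.inr (mem_iUnion.2 ⟨k, hM.2⟩))
      · obtain ⟨j, hj⟩ := mem_iUnion.1 h1
        rcases (hC (max k j)).chain M ((hI k (max k j) (le_max_left _ _)).1 hM.2) M''
          ((hI j (max k j) (le_max_right _ _)).1 hj) with h2 | h2 | h2
        · rw [h2]
        · exact (subset_insert _ _).trans h2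
        · refine hM' M'' ⟨hM'', hdown k M'' (Or.inr h1) M hM.2 ((subset_insert _ _).trans h2)⟩
    · obtain ⟨M, hM⟩ := hne
      have h1 : ∀ M' ∈ D, M' = N := by
        intro M' hM'
        rcases hD hM' with h2 | h2
        · exact h2
        · obtain ⟨j, hj⟩ := mem_iUnion.1 h2
          exact absurd ⟨j, M', hM', hj⟩ h
      refine ⟨M, hM, fun M' hM' => ?_⟩
      rw [h1 M hM, h1 M' hM']
  · rintro M (h | h)
    · refine Or.inr (Or.inr fun x hx => ?_)
      rw [h] at hx
      obtain ⟨k, hk⟩ := hcov x hx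
      refine ⟨T k, Or.inr (mem_iUnion.2 ⟨k, hT k⟩), ?_, hk⟩
      rw [h]
      exact ⟨hTN k, fun h' => hwT k (h' (hwN k))⟩
    · obtain ⟨k, hk⟩ := mem_iUnion.1 h
      have hlow : ∀ M' ∈ insert N (⋃ k, C k), M' ⊂ M → M' ∈ C k := fun M' hM' h' =>
        hdown k M' hM' M hk h'.1
      rcases (hC k).cont M hk with h' | ⟨M', h1, h2, h3⟩ | h'
      · exact Or.inl fun M' hM' h'' => h' M' (hlow M' hM' h'') h''
      · exact Or.inr (Or.inl ⟨M', Or.inr (mem_iUnion.2 ⟨k, h1⟩), h2,
          fun M'' hM'' h'' => h3 M'' (hlow M'' hM'' h'') h''⟩)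
      · refine Or.inr (Or.inr fun x hx => ?_)
        obtain ⟨M', h1, h2⟩ := h' x hx
        exact ⟨M', Or.inr (mem_iUnion.2 ⟨k, h1⟩), h2⟩
  · exact ⟨N, mem_insert _ _, hall⟩
  · exact (subset_iUnion C k).trans (subset_insert _ _)
  · exact fun h => hnle k N h Subset.rfl

theorem global_closed {Ω : Type} (S : Set (Set Ω)) (w : Set Ω → Ω)
    (hS : ∀ M ∈ S, M.Countable) (hw : ∀ M ∈ S, w M ∉ M) (f : Set (Set Ω) → ℕ)
    (hf : ∀ (n : ℕ) (A : Set (Set (Set Ω))), (∀ C ∈ A, IsNode S w C ∧ f C = n) →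
      (∀ C ∈ A, ∀ D ∈ A, Init C D ∨ Init D C) → A.Finite) :
    ∃ Φ : Finset Ω → Set Ω, CV Φ ∧
      ∀ N : Set Ω, N.Nonempty → N.Countable → Clo Φ N → N ∉ S := by
  classical
  by_cases hcov : ∃ A : Set Ω, A.Countable ∧ ∀ M ∈ S, ¬ A ⊆ M
  · obtain ⟨A, hA, hA'⟩ := hcov
    refine ⟨fun _ => A, fun _ => hA, ?_⟩
    rintro N ⟨x, hx⟩ - hN hNS
    refine hA' N hNS (hN {x} (Finset.singleton_nonempty x) ?_)
    rw [Finset.coe_singleton]
    exact singleton_subset_iff.2 hx
  push Not at hcov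
  obtain ⟨M₀, hM₀, -⟩ := hcov ∅ countable_empty
  have hC₀ : IsNode S w {M₀} := node_single85 hM₀
  -- the largest member
  have htp : ∀ C, ∃ T, IsNode S w C → T ∈ C ∧ ∀ M ∈ C, M ⊆ T := by
    intro C
    by_cases hC : IsNode S w C
    · obtain ⟨T, h1, h2⟩ := hC.top
      exact ⟨T, fun _ => ⟨h1, h2⟩⟩
    · exact ⟨∅, fun h => absurd h hC⟩
  choose tp htp using htp
  have h1 : ∀ (C : Set (Set Ω)) (n : ℕ), ∃ E, IsNode S w C → IsNode S w E ∧ Init C E ∧
      ((∃ E', IsNode S w E' ∧ Init C E' ∧ C ≠ E' ∧ f E' = n) → C ≠ E ∧ f E = n) := by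
    intro C n
    by_cases h : ∃ E', IsNode S w E' ∧ Init C E' ∧ C ≠ E' ∧ f E' = n
    · obtain ⟨E', h1, h2, h3, h4⟩ := h
      exact ⟨E', fun _ => ⟨h1, h2, fun _ => ⟨h3, h4⟩⟩⟩
    · exact ⟨C, fun hC => ⟨hC, init_refl85 C, fun h' => absurd h' h⟩⟩
  choose ext₁ h1 using h1
  have h2 : ∀ (C : Set (Set Ω)) (x : Ω), ∃ E, IsNode S w C → IsNode S w E ∧ Init C E ∧
      x ∈ tp E := by
    intro C x
    by_cases hC : IsNode S w C
    · obtain ⟨hT, hT'⟩ := htp C hC
      obtain ⟨N, hN, hN'⟩ := hcov (insert x (insert (w (tp C)) (tp C)))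
        (((hS _ (hC.sub hT)).insert _).insert _)
      obtain ⟨h3, h4, -, h6⟩ := node_insert85 hw hC hT hT' ((subset_insert _ _).trans hN') hN
      refine ⟨insert N C, fun _ => ⟨h3, h4, ?_⟩⟩
      exact (htp _ h3).2 N (mem_insert _ _) (hN' (mem_insert _ _))
    · exact ⟨∅, fun h => absurd h hC⟩
  choose ext₂ h2 using h2
  -- the operation
  obtain ⟨Φ, hΦdef⟩ : ∃ Φ : Finset (Ω ⊕ Set (Set Ω)) → Set (Ω ⊕ Set (Set Ω)), ∀ e, Φ e =
      insert (Sum.inr {M₀}) (⋃ C ∈ {C | Sum.inr C ∈ e ∧ IsNode S w C},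
        (Sum.inl '' (insert (w (tp C)) (tp C)) ∪ range (fun n => Sum.inr (ext₁ C n)) ∪
          ⋃ x ∈ {x | Sum.inl x ∈ e}, {Sum.inr (ext₂ C x)})) := ⟨_, fun e => rfl⟩
  have hCV : CV Φ := by
    intro e
    rw [hΦdef]
    refine Countable.insert _ ?_
    have hf1 : {C : Set (Set Ω) | Sum.inr C ∈ e ∧ IsNode S w C}.Countable := by
      have h3 : (Sum.inr ⁻¹' (↑e : Set (Ω ⊕ Set (Set Ω))) : Set (Set (Set Ω))).Countable :=
        e.countable_toSet.preimage Sum.inr_injective
      exact h3.mono fun C hC => hC.1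
    have hf2 : {x : Ω | Sum.inl x ∈ e}.Countable := by
      have h3 : (Sum.inl ⁻¹' (↑e : Set (Ω ⊕ Set (Set Ω))) : Set Ω).Countable :=
        e.countable_toSet.preimage Sum.inl_injective
      exact h3.mono fun C hC => hC
    refine hf1.biUnion fun C hC => ?_
    refine Countable.union (Countable.union ?_ (countable_range _)) ?_
    · exact ((hS _ (hC.2.sub (htp C hC.2).1)).insert _).image _
    · exact hf2.biUnion fun x _ => countable_singleton _
  obtain ⟨Ψ, hΨ, hpr⟩ := proj (Φ := Φ) (Sum.inl : Ω → Ω ⊕ Set (Set Ω)) Sum.inl_injective hCV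
  refine ⟨Ψ, hΨ, ?_⟩
  intro N hne hNc hclo hNS
  obtain ⟨x, hx⟩ := hNc.exists_eq_range hne
  obtain ⟨Nst, hNst⟩ : ∃ Nst, Nst = cl Φ (Sum.inl '' N) := ⟨_, rfl⟩
  have hcl : Clo Φ Nst := by
    rw [hNst]
    exact clo_cl _
  have hinl : ∀ y, Sum.inl y ∈ Nst ↔ y ∈ N := by
    intro y
    have h3 := hpr N hclo
    rw [← hNst] at h3
    constructor
    · intro h
      rw [← h3]
      exact h
    · intro h
      rw [← h3] at h
      exact h
  have k0 : Sum.inr {M₀} ∈ Nst := by
    obtain ⟨y, hy⟩ := hne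
    have h3 := hcl {Sum.inl y} (Finset.singleton_nonempty _) (by
      rw [Finset.coe_singleton]
      exact singleton_subset_iff.2 ((hinl y).2 hy))
    apply h3
    rw [hΦdef]
    exact mem_insert _ _
  have k1 : ∀ C, IsNode S w C → Sum.inr C ∈ Nst → insert (w (tp C)) (tp C) ⊆ N ∧
      ∀ n, Sum.inr (ext₁ C n) ∈ Nst := by
    intro C hC hCN
    have h3 := hcl {Sum.inr C} (Finset.singleton_nonempty _) (by
      rw [Finset.coe_singleton]
      exact singleton_subset_iff.2 hCN)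
    rw [hΦdef] at h3
    have hmem : C ∈ {C | Sum.inr C ∈ ({Sum.inr C} : Finset (Ω ⊕ Set (Set Ω))) ∧ IsNode S w C} :=
      ⟨Finset.mem_singleton_self _, hC⟩
    constructor
    · intro y hy
      rw [← hinl]
      apply h3
      refine Or.inr (mem_biUnion (x := C) ?_ (Or.inl (Or.inl ⟨y, hy, rfl⟩)))
      exact ⟨Finset.mem_singleton_self _, hC⟩
    · intro n
      apply h3
      refine Or.inr (mem_biUnion (x := C) ?_ (Or.inl (Or.inr ⟨n, rfl⟩)))
      exact ⟨Finset.mem_singleton_self _, hC⟩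
  have k2 : ∀ C, IsNode S w C → Sum.inr C ∈ Nst → ∀ y ∈ N, Sum.inr (ext₂ C y) ∈ Nst := by
    intro C hC hCN y hy
    have h3 := hcl {Sum.inr C, Sum.inl y} (Finset.insert_nonempty _ _) (by
      rw [Finset.coe_insert, Finset.coe_singleton]
      exact insert_subset hCN (singleton_subset_iff.2 ((hinl y).2 hy)))
    rw [hΦdef] at h3
    apply h3
    refine Or.inr (mem_biUnion (x := C) ?_ (Or.inr (mem_biUnion (x := y) ?_ rfl)))
    · exact ⟨Finset.mem_insert_self _ _, hC⟩
    · exact Finset.mem_insert_of_mem (Finset.mem_singleton_self _)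
  -- the sequence
  obtain ⟨C, hC0, hCs⟩ : ∃ C : ℕ → Set (Set Ω), C 0 = {M₀} ∧
      ∀ k, C (k + 1) = ext₂ (ext₁ (C k) k.unpair.1) (x k) :=
    ⟨fun k => Nat.rec {M₀} (fun k c => ext₂ (ext₁ c k.unpair.1) (x k)) k, rfl, fun k => rfl⟩
  have hxN : ∀ k, x k ∈ N := fun k => by rw [hx]; exact mem_range_self k
  have hCn : ∀ k, IsNode S w (C k) ∧ Sum.inr (C k) ∈ Nst := by
    intro k
    induction k with
    | zero => rw [hC0]; exact ⟨hC₀, k0⟩
    | succ k ih =>
      have h3 := h1 (C k) k.unpair.1 ih.1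
      have h4 := (k1 (C k) ih.1 ih.2).2 k.unpair.1
      rw [hCs]
      exact ⟨(h2 _ (x k) h3.1).1, k2 _ h3.1 h4 (x k) (hxN k)⟩
  have hE : ∀ k n, IsNode S w (ext₁ (C k) n) ∧ Init (C k) (ext₁ (C k) n) := fun k n =>
    ⟨(h1 (C k) n (hCn k).1).1, (h1 (C k) n (hCn k).1).2.1⟩
  have hEs : ∀ k, Init (ext₁ (C k) k.unpair.1) (C (k + 1)) := by
    intro k
    rw [hCs]
    exact (h2 _ (x k) (hE k _).1).2.1
  have hstep : ∀ k, Init (C k) (C (k + 1)) := fun k => init_trans85 (hE k _).2 (hEs k)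
  have hI : ∀ j k, j ≤ k → Init (C j) (C k) := by
    intro j k hjk
    induction hjk with
    | refl => exact init_refl85 _
    | step _ ih => exact init_trans85 ih (hstep _)
  obtain ⟨hD, hDI⟩ := node_limit85 hw C (fun k => (hCn k).1) hI (fun k => tp (C k))
    (fun k => (htp _ (hCn k).1).1) (fun k => (htp _ (hCn k).1).2) hNS
    (fun k => (k1 (C k) (hCn k).1 (hCn k).2).1) (by
      intro y hy
      rw [hx] at hy
      obtain ⟨k, rfl⟩ := hy
      refine ⟨k + 1, ?_⟩
      show x k ∈ tp (C (k + 1))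
      rw [hCs]
      exact (h2 _ (x k) (hE k _).1).2.2)
  obtain ⟨n, hn⟩ : ∃ n, n = f (insert N (⋃ k, C k)) := ⟨_, rfl⟩
  have hcol : ∀ k, C k ≠ ext₁ (C k) n ∧ f (ext₁ (C k) n) = n := by
    intro k
    refine (h1 (C k) n (hCn k).1).2.2 ⟨_, hD, (hDI k).1, ?_, hn.symm⟩
    intro h
    exact (hDI k).2 (by rw [h]; exact mem_insert _ _)
  have hlt : ∀ j k, j < k → j.unpair.1 = n → Init (ext₁ (C j) n) (C k) := by
    intro j k hjk hj
    have h3 := hEs j
    rw [hj] at h3
    exact init_trans85 h3 (hI (j + 1) k hjk)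
  let g : ℕ → Set (Set Ω) := fun m => ext₁ (C (Nat.pair n m)) n
  have hun : ∀ m, (Nat.pair n m).unpair.1 = n := fun m => by rw [Nat.unpair_pair]
  have hgI : ∀ l m, l < m → Init (g l) (g m) ∧ g l ≠ g m := by
    intro l m hlm
    have h3 := hlt (Nat.pair n l) (Nat.pair n m) (Nat.pair_lt_pair_right n hlm) (hun l)
    refine ⟨init_trans85 h3 (hE _ n).2, ?_⟩
    intro h4
    have h5 : g m ⊆ C (Nat.pair n m) := by
      rw [← h4]
      exact h3.1
    exact (hcol (Nat.pair n m)).1 (Subset.antisymm (hE _ n).2.1 h5)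
  have hginj : Function.Injective g := by
    intro l m hlm
    rcases lt_trichotomy l m with h | h | h
    · exact absurd hlm (hgI l m h).2
    · exact h
    · exact absurd hlm.symm (hgI m l h).2
  refine infinite_range_of_injective hginj (hf n (range g) ?_ ?_)
  · rintro _ ⟨m, rfl⟩
    exact ⟨(hE _ n).1, (hcol _).2⟩
  · rintro _ ⟨l, rfl⟩ _ ⟨m, rfl⟩
    rcases lt_trichotomy l m with h | h | h
    · exact Or.inl (hgI l m h).1
    · rw [h]
      exact Or.inl (init_refl85 _)
    · exact Or.inr (hgI m l h).1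

end Pool.Agent.Helper19.QR
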