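import Pool.Agent.Helper19.QR.Core

/-!
# Block QR-TL: a colouring of the tree of chains

`IsNode S w C`: `C` is a countable set of members of `S`, well-ordered by inclusion, with
`w M ∈ M'` for `M ⊂ M'` in `C`, continuous, with a largest member. `Init D C`: `D` is an initial
segment of `C`. There is a colouring `c` of all `C` such that two nodes `D`, `C` with `Init D C` and
`c D = c C` are equal, provided `g M ∈ M` for `M ∈ C` and `g` is injective on `C`.

Proof (Todorcevic's regressive functions). Call a node `C` good if `g M ∈ M` for `M ∈ C` and `g` is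
injective on `C`; a node `D` with `Init D C` is then good too. For each countable `M` fix an injection
`num M : M → ℕ`. For a good node `C` with largest member `T` define `ρ C` and `col C ∈ ℕ`:

1. no member of `C` is strictly contained in `T` (so `C = {T}`): `ρ C = ∅`, `col C = 0`;
2. otherwise, if there is a largest `M'` among the members of `C` strictly contained in `T`:
   `ρ C = {M ∈ C | M ⊆ M'}` (which is `C` without `T`), `col C = 0`;
3. otherwise `cont` gives a member `M' ⊂ T` of `C` containing `g T`; let `M₁` be the least such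
   member (`wf`), `ρ C = {M ∈ C | M ⊆ M₁}`, `col C = 1 + num M₁ (g T)`.

In cases 2 and 3 `ρ C` is a good node, `Init (ρ C) C` and `ρ C ≠ C`, since `T ∉ ρ C`.

Claim: if `D`, `C` are good nodes, `Init D C`, `ρ D = ρ C` and `col D = col C`, then `D = C`. Let
`T_D`, `T_C` be the largest members and suppose `D ≠ C`; then `T_D ≠ T_C`, and
`insert (w T_D) T_D ⊆ T_C`, in particular `T_D ⊂ T_C` (by `chain`: the case
`insert (w T_C) T_C ⊆ T_D` would give `T_C ∈ D` by `Init`). If `col = 0` for both: if `ρ C = ∅` then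
`C = {T_C}`, so `D = C`. Otherwise `T_D ∈ ρ C = ρ D`, but `T_D ∉ ρ D`. If `col > 0` for both,
both have the same `M₁` (the largest member of `ρ D = ρ C`) and the same number, so `g T_D = g T_C`,
hence `T_D = T_C` as `g` is injective on `C`: contradiction.

The colour `c C` codes the sequence `col C, col (ρ C), col (ρ (ρ C)), ...` until the empty set is
reached (this happens after finitely many steps: the largest members of the iterates are strictly
decreasing members of `C`, and `C` is well-ordered). For instance, by well-founded recursion,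
`c C = Nat.pair (col C) (if ρ C = ∅ then 0 else c (ρ C) + 1)`; or define by induction the relation
`R C l` between nodes and lists. Now let `D`, `D'` be good nodes which are both initial segments of one good
node `C₀`, and `c D = c D'`; then `D = D'`, by well-founded induction: either both `ρ` are empty, or both are
nonempty with the same colour, and they are initial segments of `C₀`, so by the induction
hypothesis `ρ D = ρ D'`. Since `D` and `D'` are comparable (initial segments of a chain), the claim gives `D = D'`.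
-/

set_option autoImplicit false

open Set Cardinal

namespace Pool.Agent.Helper19.QR

private def HasTop94 {Ω : Type} (C : Set (Set Ω)) : Prop := ∃ T ∈ C, ∀ M ∈ C, M ⊆ T

private def Q94 {Ω : Type} (C : Set (Set Ω)) : Set (Set Ω) := {M ∈ C | M ≠ ⋃₀ C}

private def M94 {Ω : Type} (g : Set Ω → Ω) (C : Set (Set Ω)) : Set Ω :=
  ⋂₀ {M ∈ Q94 C | g (⋃₀ C) ∈ M}

open Classical in
private noncomputable def rho94 {Ω : Type} (g : Set Ω → Ω) (C : Set (Set Ω)) : Set (Set Ω) :=
  if Q94 C = ∅ ∨ HasTop94 (Q94 C) then Q94 C else {M ∈ C | M ⊆ M94 g C}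

open Classical in
private noncomputable def col94 {Ω : Type} (num : Set Ω → Ω → ℕ) (g : Set Ω → Ω)
    (C : Set (Set Ω)) : ℕ :=
  if Q94 C = ∅ ∨ HasTop94 (Q94 C) then 0 else 1 + num (M94 g C) (g (⋃₀ C))

private def Good94 {Ω : Type} (S : Set (Set Ω)) (w : Set Ω → Ω) (g : Set Ω → Ω)
    (C : Set (Set Ω)) : Prop := IsNode S w C ∧ (∀ M ∈ C, g M ∈ M) ∧ InjOn g C

private theorem top_mem94 {Ω : Type} {S : Set (Set Ω)} {w : Set Ω → Ω} {C : Set (Set Ω)}
    (h : IsNode S w C) : ⋃₀ C ∈ C := by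
  obtain ⟨T, hT, hle⟩ := h.top
  have : ⋃₀ C = T := Subset.antisymm (sUnion_subset hle) (subset_sUnion_of_mem hT)
  rw [this]; exact hT

private theorem seg_node94 {Ω : Type} {S : Set (Set Ω)} {w : Set Ω → Ω} {C D : Set (Set Ω)}
    (h : IsNode S w C) (hD : Init D C) (ht : HasTop94 D) : IsNode S w D where
  sub := hD.1.trans h.sub
  count := h.count.mono hD.1
  chain := fun M hM M' hM' => h.chain M (hD.1 hM) M' (hD.1 hM')
  wf := fun E hE hne => h.wf E (hE.trans hD.1) hne
  cont := by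
    intro M hM
    rcases h.cont M (hD.1 hM) with h1 | ⟨M', hM', hlt, hle⟩ | h3
    · left; intro M' hM'; exact h1 M' (hD.1 hM')
    · right; left
      exact ⟨M', hD.2 M' hM' M hM hlt.subset, hlt, fun M'' hM'' => hle M'' (hD.1 hM'')⟩
    · right; right
      intro x hx
      obtain ⟨M', hM', hlt, hx'⟩ := h3 x hx
      exact ⟨M', hD.2 M' hM' M hM hlt.subset, hlt, hx'⟩
  top := ht

private theorem good_seg94 {Ω : Type} {S : Set (Set Ω)} {w : Set Ω → Ω} {g : Set Ω → Ω}
    {C D : Set (Set Ω)} (h : Good94 S w g C) (hD : Init D C) (ht : HasTop94 D) :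
    Good94 S w g D :=
  ⟨seg_node94 h.1 hD ht, fun M hM => h.2.1 M (hD.1 hM), h.2.2.mono hD.1⟩

private theorem init_trans94 {Ω : Type} {C D E : Set (Set Ω)} (h1 : Init C D) (h2 : Init D E) :
    Init C E := ⟨h1.1.trans h2.1, fun M hM M' hM' hle =>
      h1.2 M (h2.2 M hM M' (h1.1 hM') hle) M' hM' hle⟩

private theorem case3_94 {Ω : Type} {S : Set (Set Ω)} {w : Set Ω → Ω} {g : Set Ω → Ω}
    {C : Set (Set Ω)} (h : Good94 S w g C) (hc : ¬ (Q94 C = ∅ ∨ HasTop94 (Q94 C))) :
    M94 g C ∈ Q94 C ∧ g (⋃₀ C) ∈ M94 g C := by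
  push Not at hc
  obtain ⟨hne, hnt⟩ := hc
  have hT := top_mem94 h.1
  have hlt : ∀ M ∈ Q94 C, M ⊂ ⋃₀ C := fun M hM =>
    (subset_sUnion_of_mem hM.1).ssubset_of_ne hM.2
  have hA : ∃ M ∈ Q94 C, g (⋃₀ C) ∈ M := by
    rcases h.1.cont _ hT with h1 | ⟨M', hM', hl, hle⟩ | h3
    · obtain ⟨M, hM⟩ := hne
      exact absurd (hlt M hM) (h1 M hM.1)
    · exact absurd ⟨M', ⟨hM', hl.ne⟩, fun M hM => hle M hM.1 (hlt M hM)⟩ hnt
    · obtain ⟨M', hM', hl, hx⟩ := h3 _ (h.2.1 _ hT)
      exact ⟨M', ⟨hM', hl.ne⟩, hx⟩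
  obtain ⟨M₀, hM₀, hx₀⟩ := hA
  obtain ⟨M₁, hM₁, hle⟩ := h.1.wf {M ∈ Q94 C | g (⋃₀ C) ∈ M} (fun M hM => hM.1.1) ⟨M₀, hM₀, hx₀⟩
  have : M94 g C = M₁ := Subset.antisymm (sInter_subset_of_mem hM₁) (subset_sInter hle)
  rw [this]; exact hM₁

private theorem rho_spec94 {Ω : Type} {S : Set (Set Ω)} {w : Set Ω → Ω} {g : Set Ω → Ω}
    {C : Set (Set Ω)} (h : Good94 S w g C) :
    Init (rho94 g C) C ∧ ⋃₀ C ∉ rho94 g C ∧ (rho94 g C = ∅ ∨ Good94 S w g (rho94 g C)) := by
  by_cases hc : Q94 C = ∅ ∨ HasTop94 (Q94 C)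
  · have e : rho94 g C = Q94 C := by rw [rho94, if_pos hc]
    rw [e]
    have hi : Init (Q94 C) C := by
      refine ⟨fun M hM => hM.1, fun M hM M' hM' hle => ⟨hM, ?_⟩⟩
      rintro rfl
      exact hM'.2 (Subset.antisymm (subset_sUnion_of_mem hM'.1) hle)
    refine ⟨hi, fun hh => hh.2 rfl, ?_⟩
    rcases hc with hc | hc
    · exact Or.inl hc
    · exact Or.inr (good_seg94 h hi hc)
  · have e : rho94 g C = {M ∈ C | M ⊆ M94 g C} := by rw [rho94, if_neg hc]
    obtain ⟨h1, h2⟩ := case3_94 h hc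
    rw [e]
    have hi : Init {M ∈ C | M ⊆ M94 g C} C :=
      ⟨fun M hM => hM.1, fun M hM M' hM' hle => ⟨hM, hle.trans hM'.2⟩⟩
    refine ⟨hi, fun hh => ?_, Or.inr (good_seg94 h hi ⟨M94 g C, ⟨h1.1, Subset.rfl⟩,
      fun M hM => hM.2⟩)⟩
    exact h1.2 (Subset.antisymm (subset_sUnion_of_mem h1.1) hh.2)

private theorem init_le94 {Ω : Type} {S : Set (Set Ω)} {w : Set Ω → Ω}
    {C D : Set (Set Ω)} (hD : IsNode S w D) (hi : Init D C) (he : ⋃₀ D = ⋃₀ C) : D = C :=
  Subset.antisymm hi.1 fun M hM => hi.2 M hM _ (top_mem94 hD) (he ▸ subset_sUnion_of_mem hM)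

private theorem claim94 {Ω : Type} {S : Set (Set Ω)} {w : Set Ω → Ω} {g : Set Ω → Ω}
    {num : Set Ω → Ω → ℕ} (hnum : ∀ M ∈ S, InjOn (num M) M)
    {C D : Set (Set Ω)} (hC : Good94 S w g C) (hD : Good94 S w g D) (hi : Init D C)
    (hr : rho94 g D = rho94 g C) (hcol : col94 num g D = col94 num g C) : D = C := by
  by_contra hne
  have hTD := top_mem94 hD.1
  have hTC := top_mem94 hC.1
  have hTne : ⋃₀ D ≠ ⋃₀ C := fun he => hne (init_le94 hD.1 hi he)
  by_cases hc : Q94 C = ∅ ∨ HasTop94 (Q94 C)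
  · have e : rho94 g C = Q94 C := by rw [rho94, if_pos hc]
    have hm : ⋃₀ D ∈ rho94 g C := by rw [e]; exact ⟨hi.1 hTD, hTne⟩
    rw [← hr] at hm
    exact (rho_spec94 hD).2.1 hm
  · by_cases hd : Q94 D = ∅ ∨ HasTop94 (Q94 D)
    · rw [col94, col94, if_pos hd, if_neg hc] at hcol
      omega
    · rw [col94, col94, if_neg hd, if_neg hc] at hcol
      obtain ⟨c1, c2⟩ := case3_94 hC hc
      obtain ⟨d1, d2⟩ := case3_94 hD hd
      have eC : rho94 g C = {M ∈ C | M ⊆ M94 g C} := by rw [rho94, if_neg hc]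
      have eD : rho94 g D = {M ∈ D | M ⊆ M94 g D} := by rw [rho94, if_neg hd]
      have hMC : M94 g C ∈ rho94 g C := by rw [eC]; exact ⟨c1.1, Subset.rfl⟩
      have hMD : M94 g D ∈ rho94 g D := by rw [eD]; exact ⟨d1.1, Subset.rfl⟩
      have hMeq : M94 g D = M94 g C := by
        apply Subset.antisymm
        · rw [hr, eC] at hMD; exact hMD.2
        · rw [← hr, eD] at hMC; exact hMC.2
      rw [hMeq] at hcol d2
      have := hnum _ (hC.1.sub c1.1) d2 c2 (by omega)
      exact hTne (hC.2.2 (hi.1 hTD) hTC this)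

private theorem iter94 {Ω : Type} {S : Set (Set Ω)} {w : Set Ω → Ω} {g : Set Ω → Ω}
    {num : Set Ω → Ω → ℕ} (hnum : ∀ M ∈ S, InjOn (num M) M) {C₀ : Set (Set Ω)}
    (h₀ : IsNode S w C₀) (n : ℕ) : ∀ C D : Set (Set Ω), (C = ∅ ∨ Good94 S w g C) →
      (D = ∅ ∨ Good94 S w g D) → Init C C₀ → Init D C₀ →
      (rho94 g)^[n] C = ∅ → (rho94 g)^[n] D = ∅ →
      (∀ i < n, (rho94 g)^[i] C ≠ ∅ ∧ (rho94 g)^[i] D ≠ ∅ ∧
        col94 num g ((rho94 g)^[i] D) = col94 num g ((rho94 g)^[i] C)) → D = C := by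
  induction n with
  | zero =>
    intro C D _ _ _ _ h1 h2 _
    simp only [Function.iterate_zero, id_eq] at h1 h2
    rw [h1, h2]
  | succ n ih =>
    intro C D hC hD hiC hiD h1 h2 hall
    have h00 := hall 0 (Nat.succ_pos n)
    simp only [Function.iterate_zero, id_eq] at h00
    have hC := hC.resolve_left h00.1
    have hD := hD.resolve_left h00.2.1
    have sC := rho_spec94 hC
    have sD := rho_spec94 hD
    have hr : rho94 g D = rho94 g C := by
      refine ih (rho94 g C) (rho94 g D) sC.2.2 sD.2.2 (init_trans94 sC.1 hiC)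
        (init_trans94 sD.1 hiD) ?_ ?_ ?_
      · rw [← Function.iterate_succ_apply]; exact h1
      · rw [← Function.iterate_succ_apply]; exact h2
      · intro i hi
        have := hall (i + 1) (Nat.succ_lt_succ hi)
        simp only [Function.iterate_succ_apply] at this
        exact this
    have hTD := top_mem94 hD.1
    have hTC := top_mem94 hC.1
    have cmp : ⋃₀ D ⊆ ⋃₀ C ∨ ⋃₀ C ⊆ ⋃₀ D := by
      rcases h₀.chain _ (hiD.1 hTD) _ (hiC.1 hTC) with h | h | h
      · exact Or.inl h.subset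
      · exact Or.inl ((subset_insert _ _).trans h)
      · exact Or.inr ((subset_insert _ _).trans h)
    have mk : ∀ A B : Set (Set Ω), Good94 S w g B → Init A C₀ → Init B C₀ →
        ⋃₀ A ⊆ ⋃₀ B → Init A B := fun A B hB hA hB0 hle =>
      ⟨fun M hM => hB0.2 M (hA.1 hM) _ (top_mem94 hB.1) ((subset_sUnion_of_mem hM).trans hle),
        fun M hM M' hM' hl => hA.2 M (hB0.1 hM) M' hM' hl⟩
    rcases cmp with h | h
    · exact claim94 hnum hC hD (mk D C hC hiD hiC h) hr h00.2.2
    · exact (claim94 hnum hD hC (mk C D hD hiC hiD h) hr.symm h00.2.2.symm).symm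

private theorem term94 {Ω : Type} {S : Set (Set Ω)} {w : Set Ω → Ω} {g : Set Ω → Ω}
    {C : Set (Set Ω)} (h : Good94 S w g C) : ∃ n, (rho94 g)^[n] C = ∅ := by
  by_contra hcon
  push Not at hcon
  have hall : ∀ n, Good94 S w g ((rho94 g)^[n] C) ∧ Init ((rho94 g)^[n] C) C := by
    intro n
    induction n with
    | zero => exact ⟨h, Subset.rfl, fun M hM _ _ _ => hM⟩
    | succ n ih =>
      have s := rho_spec94 ih.1
      have hn := hcon (n + 1)
      rw [Function.iterate_succ_apply'] at hn ⊢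
      exact ⟨s.2.2.resolve_left hn.ne_empty, init_trans94 s.1 ih.2⟩
  obtain ⟨M, ⟨n, rfl⟩, hle⟩ := h.1.wf (range fun n => ⋃₀ ((rho94 g)^[n] C))
    (by rintro _ ⟨n, rfl⟩; exact (hall n).2.1 (top_mem94 (hall n).1.1)) ⟨_, 0, rfl⟩
  have h1 := hle _ ⟨n + 1, rfl⟩
  have h2 := top_mem94 (hall (n + 1)).1.1
  simp only [Function.iterate_succ_apply'] at h1 h2
  have s := rho_spec94 (hall n).1
  have h3 : ⋃₀ (rho94 g ((rho94 g)^[n] C)) ⊆ ⋃₀ ((rho94 g)^[n] C) :=
    subset_sUnion_of_mem (s.1.1 h2)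
  rw [Subset.antisymm h3 h1] at h2
  exact s.2.1 h2

open Classical in
private noncomputable def len94 {Ω : Type} (g : Set Ω → Ω) (C : Set (Set Ω)) : ℕ :=
  if h : ∃ n, (rho94 g)^[n] C = ∅ then Nat.find h else 0

private noncomputable def code94 {Ω : Type} (num : Set Ω → Ω → ℕ) (g : Set Ω → Ω)
    (C : Set (Set Ω)) : ℕ :=
  Encodable.encode ((List.range (len94 g C)).map fun i => col94 num g ((rho94 g)^[i] C))

theorem local_special {Ω : Type} (S : Set (Set Ω)) (w : Set Ω → Ω)
    (hS : ∀ M ∈ S, M.Countable) (hw : ∀ M ∈ S, w M ∉ M) (g : Set Ω → Ω) :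
    ∃ c : Set (Set Ω) → ℕ, ∀ C D, IsNode S w C → IsNode S w D → (∀ M ∈ C, g M ∈ M) →
      InjOn g C → Init D C → c D = c C → D = C := by
  classical
  have hex : ∀ M : Set Ω, ∃ f : Ω → ℕ, M.Countable → InjOn f M := by
    intro M
    by_cases hM : M.Countable
    · obtain ⟨f, hf⟩ := Set.countable_iff_exists_injOn.1 hM
      exact ⟨f, fun _ => hf⟩
    · exact ⟨fun _ => 0, fun h => absurd h hM⟩
  choose num hnum using hex
  refine ⟨code94 num g, fun C D hC hD hg hinj hi hc => ?_⟩
  have gC : Good94 S w g C := ⟨hC, hg, hinj⟩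
  have gD : Good94 S w g D := ⟨hD, fun M hM => hg M (hi.1 hM), hinj.mono hi.1⟩
  have tC := term94 gC
  have tD := term94 gD
  have hl := Encodable.encode_injective hc
  have hlen : len94 g D = len94 g C := by
    have := congrArg List.length hl
    simpa using this
  rw [hlen] at hl
  have eC : len94 g C = Nat.find tC := by rw [len94, dif_pos tC]
  have eD : len94 g D = Nat.find tD := by rw [len94, dif_pos tD]
  refine iter94 (fun M hM => hnum M (hS M hM)) hC (len94 g C) C D (Or.inr gC) (Or.inr gD)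
    ⟨Subset.rfl, fun M hM _ _ _ => hM⟩ hi ?_ ?_ ?_
  · rw [eC]; exact Nat.find_spec tC
  · rw [← hlen, eD]; exact Nat.find_spec tD
  · intro i hi'
    refine ⟨?_, ?_, ?_⟩
    · rw [eC] at hi'; exact Nat.find_min tC hi'
    · rw [← hlen, eD] at hi'; exact Nat.find_min tD hi'
    · have := congrArg (fun l => l[i]?) hl
      simpa [hi'] using this

end Pool.Agent.Helper19.QR
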